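import Mathlib

/-!
Blocking sets for finite point sets in the plane: the points of the set are points of `ℝ × ℝ`, the
blocking points are points of the real projective plane `ℙ ℝ (Fin 3 → ℝ)`.
-/

namespace Helper171
open scoped LinearAlgebra.Projectivization

/-- Homogeneous coordinates of a point of the plane. -/
def hom (p : ℝ × ℝ) : Fin 3 → ℝ := ![p.1, p.2, 1]

theorem hom_ne_zero (p : ℝ × ℝ) : hom p ≠ 0 := by
  intro h
  have := congrFun h 2
  simp [hom] at this

/-- The point of the real projective plane given by a point of the plane. -/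
noncomputable def emb (p : ℝ × ℝ) : ℙ ℝ (Fin 3 → ℝ) :=
  Projectivization.mk ℝ (hom p) (hom_ne_zero p)

/-- The projective point `b` lies on the line through `p` and `q`. -/
def OnLine (p q : ℝ × ℝ) (b : ℙ ℝ (Fin 3 → ℝ)) : Prop :=
  Matrix.det (Matrix.of ![hom p, hom q, b.rep]) = 0

/-- `B` is a blocking set for `R`: it contains no point of `R`, and every line through two
distinct points of `R` contains a point of `B`. -/
def Blocks (R : Finset (ℝ × ℝ)) (B : Finset (ℙ ℝ (Fin 3 → ℝ))) : Prop :=
  (∀ p ∈ R, emb p ∉ B) ∧ ∀ p ∈ R, ∀ q ∈ R, p ≠ q → ∃ b ∈ B, OnLine p q b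

end Helper171
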