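import Pool.Agent.helper171_blk.Basic
import Pool.Agent.helper171_blk.Geo

/-! Generic coordinates and point-line duality. -/

namespace Helper171
open Finset Classical
open scoped LinearAlgebra.Projectivization

/-- a generic linear functional -/
def ev (t : ℝ) (x : Fin 3 → ℝ) : ℝ := x 0 + t * x 1 + t ^ 2 * x 2

theorem ev_sub_smul (t a b : ℝ) (x y : Fin 3 → ℝ) :
    ev t (a • y - b • x) = a * ev t y - b * ev t x := by
  simp only [ev, Pi.sub_apply, Pi.smul_apply, smul_eq_mul]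
  ring

theorem ev_finite {x : Fin 3 → ℝ} (hx : x ≠ 0) : {t : ℝ | ev t x = 0}.Finite := by
  let P : Polynomial ℝ := Polynomial.C (x 0) + Polynomial.C (x 1) * Polynomial.X +
    Polynomial.C (x 2) * Polynomial.X ^ 2
  have hP : P ≠ 0 := by
    intro h
    apply hx
    have h0 : P.coeff 0 = 0 := by rw [h]; simp
    have h1 : P.coeff 1 = 0 := by rw [h]; simp
    have h2 : P.coeff 2 = 0 := by rw [h]; simp
    simp [P, Polynomial.coeff_X, Polynomial.coeff_C] at h0 h1 h2
    ext i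
    fin_cases i
    · exact h0
    · exact h1
    · exact h2
  apply (P.roots.toFinset.finite_toSet).subset
  intro t ht
  simp only [Set.mem_ofPred_eq] at ht
  simp only [Finset.mem_coe, Multiset.mem_toFinset]
  rw [Polynomial.mem_roots hP]
  simp only [P, Polynomial.IsRoot, Polynomial.eval_add, Polynomial.eval_mul, Polynomial.eval_C,
    Polynomial.eval_X, Polynomial.eval_pow]
  unfold ev at ht
  linarith

theorem exists_good (F : Finset (Fin 3 → ℝ)) (hF : ∀ x ∈ F, x ≠ 0) (T : Finset ℝ) :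
    ∃ t, t ∉ T ∧ ∀ x ∈ F, ev t x ≠ 0 := by
  have h : ((T : Set ℝ) ∪ ⋃ x ∈ F, {t : ℝ | ev t x = 0}).Finite := by
    apply Set.Finite.union T.finite_toSet
    exact Set.Finite.biUnion F.finite_toSet (fun x hx => ev_finite (hF x hx))
  obtain ⟨t, ht⟩ := h.infinite_compl.nonempty
  refine ⟨t, ?_, ?_⟩
  · intro h1
    exact ht (Or.inl h1)
  · intro x hx h1
    apply ht
    right
    simp only [Set.mem_iUnion]
    exact ⟨x, hx, h1⟩

theorem collinear_of_line (a b c : ℝ) (hab : a ≠ 0 ∨ b ≠ 0) (S : Set (ℝ × ℝ))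
    (h : ∀ x ∈ S, a * x.1 + b * x.2 + c = 0) : Collinear ℝ S := by
  rw [collinear_iff_exists_forall_eq_smul_vadd]
  by_cases hb : b = 0
  · have ha : a ≠ 0 := by
      rcases hab with h1 | h1
      · exact h1
      · exact absurd hb h1
    refine ⟨(-c / a, 0), (0, 1), fun x hx => ⟨x.2, ?_⟩⟩
    have h1 := h x hx
    ext
    · simp only [vadd_eq_add, Prod.fst_add, Prod.smul_fst, smul_eq_mul, mul_zero, zero_add]
      rw [eq_div_iff ha]
      rw [hb] at h1
      linarith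
    · simp
  · refine ⟨(0, -c / b), (1, -a / b), fun x hx => ⟨x.1, ?_⟩⟩
    have h1 := h x hx
    ext
    · simp
    · simp only [vadd_eq_add, Prod.snd_add, Prod.smul_snd, smul_eq_mul]
      field_simp
      linarith

theorem line_alg (a b c : ℝ) (p q : ℝ × ℝ) (hpq : p ≠ q) (r : Fin 3 → ℝ)
    (hp : a * hom p 0 + b * hom p 1 + c * hom p 2 = 0)
    (hq : a * hom q 0 + b * hom q 1 + c * hom q 2 = 0)
    (hd : Matrix.det (Matrix.of ![hom p, hom q, r]) = 0) :
    a * r 0 + b * r 1 + c * r 2 = 0 := by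
  rw [Matrix.det_fin_three] at hd
  simp only [hom, Matrix.of_apply, Matrix.cons_val', Matrix.cons_val_zero, Matrix.cons_val_one,
    Matrix.cons_val, Matrix.cons_val_fin_one] at hd hp hq
  by_cases h1 : p.1 = q.1
  · have h2 : p.2 ≠ q.2 := fun h => hpq (Prod.ext h1 h)
    apply mul_left_cancel₀ (sub_ne_zero.mpr h2)
    linear_combination a * hd + r 1 * (hp - hq) + r 2 * (p.2 * hq - q.2 * hp)
  · apply mul_left_cancel₀ (sub_ne_zero.mpr h1)
    linear_combination (-b) * hd + r 0 * (hp - hq) + r 2 * (p.1 * hq - q.1 * hp)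

theorem exists_conf (R : Finset (ℝ × ℝ)) (B : Finset (ℙ ℝ (Fin 3 → ℝ)))
    (hcol : ¬ Collinear ℝ (R : Set (ℝ × ℝ))) (hB : Blocks R B) :
    ∃ C : Conf {x // x ∈ R} {x // x ∈ B},
      (∃ v w, v ∈ C.A.V ∧ w ∈ C.A.V ∧ v ≠ w) ∧
      ∀ v, Collinear ℝ ((fun i : {x // x ∈ R} => (i : ℝ × ℝ)) '' (C.A.L v : Set {x // x ∈ R})) := by
  obtain ⟨hB1, hB2⟩ := hB
  set F1 : Finset (Fin 3 → ℝ) := R.image hom ∪ B.image (fun b => b.rep) with hF1
  have hF1ne : ∀ x ∈ F1, x ≠ 0 := by
    intro x hx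
    rw [hF1, Finset.mem_union, Finset.mem_image, Finset.mem_image] at hx
    rcases hx with ⟨p, _, rfl⟩ | ⟨b, _, rfl⟩
    · exact hom_ne_zero p
    · exact b.rep_nonzero
  obtain ⟨t1, -, ht1⟩ := exists_good F1 hF1ne ∅
  set F2 : Finset (Fin 3 → ℝ) := ((F1 ×ˢ F1).image
    (fun z => ev t1 z.1 • z.2 - ev t1 z.2 • z.1)).filter (fun x => x ≠ 0) with hF2
  obtain ⟨t2, ht21, ht2⟩ := exists_good F2 (fun x hx => (Finset.mem_filter.mp hx).2) {t1}
  obtain ⟨t3, ht3, -⟩ := exists_good ∅ (by simp) {t1, t2}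
  simp only [Finset.mem_singleton, Finset.mem_insert, not_or] at ht21 ht3
  have hpR : ∀ p ∈ R, ev t1 (hom p) ≠ 0 := fun p hp => ht1 _ (by
    rw [hF1, Finset.mem_union]; left; exact Finset.mem_image_of_mem _ hp)
  have hbB : ∀ b ∈ B, ev t1 b.rep ≠ 0 := fun b hb => ht1 _ (by
    rw [hF1, Finset.mem_union]; right; exact Finset.mem_image_of_mem _ hb)
  have key : ∀ x ∈ F1, ∀ y ∈ F1, ev t1 x • y - ev t1 y • x ≠ 0 →
      ev t1 x * ev t2 y ≠ ev t1 y * ev t2 x := by
    intro x hx y hy hne h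
    have h1 := ht2 (ev t1 x • y - ev t1 y • x) (by
      rw [hF2, Finset.mem_filter, Finset.mem_image]
      exact ⟨⟨(x, y), Finset.mem_product.mpr ⟨hx, hy⟩, rfl⟩, hne⟩)
    rw [ev_sub_smul] at h1
    apply h1
    rw [h]
    ring
  have hpF : ∀ p ∈ R, hom p ∈ F1 := fun p hp => by
    rw [hF1, Finset.mem_union]; left; exact Finset.mem_image_of_mem _ hp
  have hbF : ∀ b ∈ B, b.rep ∈ F1 := fun b hb => by
    rw [hF1, Finset.mem_union]; right; exact Finset.mem_image_of_mem _ hb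
  have hpq : ∀ p ∈ R, ∀ q ∈ R, p ≠ q →
      ev t1 (hom p) * ev t2 (hom q) ≠ ev t1 (hom q) * ev t2 (hom p) := by
    intro p hp q hq hne
    apply key _ (hpF p hp) _ (hpF q hq)
    intro h
    have h2 := congrFun h 2
    have h0 := congrFun h 0
    have h1 := congrFun h 1
    simp only [hom, Pi.sub_apply, Pi.smul_apply, smul_eq_mul, Matrix.cons_val_zero,
      Matrix.cons_val_one, Matrix.cons_val, Pi.zero_apply, mul_one] at h0 h1 h2
    have hq0 := hpR p hp
    have he : ev t1 ![p.1, p.2, 1] = ev t1 ![q.1, q.2, 1] := by linarith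
    rw [he] at h0 h1
    have hq1 : ev t1 ![q.1, q.2, 1] ≠ 0 := hpR q hq
    apply hne
    ext
    · have : ev t1 ![q.1, q.2, 1] * q.1 = ev t1 ![q.1, q.2, 1] * p.1 := by linarith
      exact (mul_left_cancel₀ hq1 this).symm
    · have : ev t1 ![q.1, q.2, 1] * q.2 = ev t1 ![q.1, q.2, 1] * p.2 := by linarith
      exact (mul_left_cancel₀ hq1 this).symm
  have hpb : ∀ p ∈ R, ∀ b ∈ B, ev t1 (hom p) * ev t2 b.rep ≠ ev t1 b.rep * ev t2 (hom p) := by
    intro p hp b hb
    apply key _ (hpF p hp) _ (hbF b hb)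
    intro h
    apply hB1 p hp
    have : emb p = b := by
      rw [← b.mk_rep]
      unfold emb
      rw [Projectivization.mk_eq_mk_iff']
      refine ⟨ev t1 (hom p) / ev t1 b.rep, ?_⟩
      have h1 : ev t1 (hom p) • b.rep = ev t1 b.rep • hom p := sub_eq_zero.mp h
      rw [div_eq_inv_mul, mul_smul, h1, smul_smul, inv_mul_cancel₀ (hbB b hb), one_smul]
    rw [this]
    exact hb
  -- two distinct points
  obtain ⟨p0, hp0, q0, hq0, hpq0⟩ : ∃ p ∈ R, ∃ q ∈ R, p ≠ q := by
    by_contra hcon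
    push Not at hcon
    apply hcol
    have hsub : (R : Set (ℝ × ℝ)).Subsingleton := fun p hp q hq => hcon p hp q hq
    rcases hsub.eq_empty_or_singleton with h | ⟨x, h⟩
    · rw [h]; exact collinear_empty ℝ _
    · rw [h]; exact collinear_singleton ℝ _
  obtain ⟨b0, hb0, -⟩ := hB2 p0 hp0 q0 hq0 hpq0
  let A : Arr {x // x ∈ R} :=
    { a := fun p => ev t2 (hom p) / ev t1 (hom p), c := fun p => - ev t3 (hom p) / ev t1 (hom p) }
  let RR : Arr {x // x ∈ B} :=
    { a := fun b => ev t2 b.1.rep / ev t1 b.1.rep, c := fun b => - ev t3 b.1.rep / ev t1 b.1.rep }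
  have hA : ∀ (i : {x // x ∈ R}) (v : ℝ × ℝ), A.val i v.1 = v.2 ↔
      v.1 * ev t2 (hom i) - ev t3 (hom i) - v.2 * ev t1 (hom i) = 0 := by
    intro i v
    have h := hpR i.1 i.2
    simp only [Arr.val, A]
    rw [div_mul_eq_mul_div, ← add_div, div_eq_iff h]
    constructor
    · intro h; linarith
    · intro h; linarith
  have hRR : ∀ (i : {x // x ∈ B}) (v : ℝ × ℝ), RR.val i v.1 = v.2 ↔
      v.1 * ev t2 i.1.rep - ev t3 i.1.rep - v.2 * ev t1 i.1.rep = 0 := by
    intro i v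
    have h := hbB i.1 i.2
    simp only [Arr.val, RR]
    rw [div_mul_eq_mul_div, ← add_div, div_eq_iff h]
    constructor
    · intro h; linarith
    · intro h; linarith
  have ha : Function.Injective A.a := by
    intro p q h
    by_contra hne
    simp only [A] at h
    rw [div_eq_div_iff (hpR p.1 p.2) (hpR q.1 q.2)] at h
    exact hpq p.1 p.2 q.1 q.2 (fun h => hne (Subtype.ext h)) (by linarith)
  have har : ∀ i j, A.a i ≠ RR.a j := by
    intro p b h
    simp only [A, RR] at h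
    rw [div_eq_div_iff (hpR p.1 p.2) (hbB b.1 b.2)] at h
    exact hpb p.1 p.2 b.1 b.2 (by linarith)
  let ρ : ℝ × ℝ → {x // x ∈ B} := fun v =>
    if h : ∃ b : {x // x ∈ B}, RR.val b v.1 = v.2 then h.choose else ⟨b0, hb0⟩
  have hρ : ∀ v ∈ A.V, RR.val (ρ v) v.1 = v.2 := by
    intro v hv
    have h : ∃ b : {x // x ∈ B}, RR.val b v.1 = v.2 := by
      rw [mem_V A ha] at hv
      unfold Arr.b at hv
      obtain ⟨p, hp, q, hq, hne⟩ := Finset.one_lt_card.mp (by omega : 1 < (A.L v).card)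
      rw [mem_L, hA] at hp hq
      obtain ⟨b, hb, hdet⟩ := hB2 p.1 p.2 q.1 q.2 (fun h => hne (Subtype.ext h))
      refine ⟨⟨b, hb⟩, ?_⟩
      rw [hRR]
      have := line_alg (v.1 - 1 - v.2) (v.1 * t2 - t3 - v.2 * t1)
        (v.1 * t2 ^ 2 - t3 ^ 2 - v.2 * t1 ^ 2) p.1 q.1 (fun h => hne (Subtype.ext h)) b.rep
        (by unfold ev at hp; linarith) (by unfold ev at hq; linarith) hdet
      unfold ev
      linarith
    simp only [ρ, dif_pos h]
    exact h.choose_spec
  let C : Conf {x // x ∈ R} {x // x ∈ B} := ⟨A, RR, ρ, ha, har, hρ⟩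
  have hcolL : ∀ v, Collinear ℝ
      ((fun i : {x // x ∈ R} => (i : ℝ × ℝ)) '' (C.A.L v : Set {x // x ∈ R})) := by
    intro v
    by_cases hab : (v.1 - 1 - v.2) = 0 ∧ (v.1 * t2 - t3 - v.2 * t1) = 0
    · have hempty : (C.A.L v : Set {x // x ∈ R}) = ∅ := by
        rw [Set.eq_empty_iff_forall_notMem]
        intro i hi
        rw [Finset.mem_coe, mem_L] at hi
        change A.val i v.1 = v.2 at hi
        rw [hA] at hi
        obtain ⟨h1, h2⟩ := hab
        have h3 : v.1 * t2 ^ 2 - t3 ^ 2 - v.2 * t1 ^ 2 = 0 := by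
          simp only [ev, hom, Matrix.cons_val_zero, Matrix.cons_val_one, Matrix.cons_val] at hi
          linear_combination hi - i.1.1 * h1 - i.1.2 * h2
        have h4 : (t3 - t1) * (t3 - t2) = 0 := by
          linear_combination -h3 + (t1 + t2) * h2 - t1 * t2 * h1
        rcases mul_eq_zero.mp h4 with h5 | h5
        · exact ht3.1 (sub_eq_zero.mp h5)
        · exact ht3.2 (sub_eq_zero.mp h5)
      rw [hempty, Set.image_empty]
      exact collinear_empty ℝ _
    · apply collinear_of_line (v.1 - 1 - v.2) (v.1 * t2 - t3 - v.2 * t1)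
        (v.1 * t2 ^ 2 - t3 ^ 2 - v.2 * t1 ^ 2)
      · by_contra h
        push Not at h
        exact hab h
      · rintro _ ⟨i, hi, rfl⟩
        rw [Finset.mem_coe, mem_L] at hi
        change A.val i v.1 = v.2 at hi
        rw [hA] at hi
        simp only [ev, hom, Matrix.cons_val_zero, Matrix.cons_val_one, Matrix.cons_val] at hi
        linear_combination hi
  refine ⟨C, ?_, hcolL⟩
  -- crossing points
  have hcross : ∀ i j : {x // x ∈ R}, i ≠ j → ∃ v ∈ C.A.V, i ∈ C.A.L v ∧ j ∈ C.A.L v := by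
    intro i j hij
    have hne : A.a i - A.a j ≠ 0 := sub_ne_zero.mpr (fun h => hij (ha h))
    have h1 : i ∈ C.A.L (A.xr A i j, A.val i (A.xr A i j)) := by
      rw [mem_L]
    have h2 : j ∈ C.A.L (A.xr A i j, A.val i (A.xr A i j)) := by
      rw [mem_L]
      change A.a j * ((A.c j - A.c i) / (A.a i - A.a j)) + A.c j =
        A.a i * ((A.c j - A.c i) / (A.a i - A.a j)) + A.c i
      field_simp
      ring
    refine ⟨(A.xr A i j, A.val i (A.xr A i j)), ?_, h1, h2⟩
    rw [mem_V C.A C.ha]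
    exact Finset.one_lt_card.mpr ⟨i, h1, j, h2, hij⟩
  obtain ⟨v, hv, hv1, hv2⟩ := hcross ⟨p0, hp0⟩ ⟨q0, hq0⟩ (fun h => hpq0 (congrArg Subtype.val h))
  by_contra hcon
  push Not at hcon
  apply hcol
  have hall : ∀ r : {x // x ∈ R}, r ∈ C.A.L v := by
    intro r
    by_cases hr : r = ⟨p0, hp0⟩
    · rw [hr]; exact hv1
    · obtain ⟨w, hw, hw1, -⟩ := hcross r ⟨p0, hp0⟩ hr
      rw [hcon v w hv hw]
      exact hw1
  have himg : ((fun i : {x // x ∈ R} => (i : ℝ × ℝ)) '' (C.A.L v : Set {x // x ∈ R})) =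
      (R : Set (ℝ × ℝ)) := by
    ext x
    constructor
    · rintro ⟨i, _, rfl⟩
      exact i.2
    · intro hx
      exact ⟨⟨x, hx⟩, hall _, rfl⟩
  rw [← himg]
  exact hcolL v

end Helper171
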