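import Pool.Agent.helper171_blk.Geo

/-! Sharpness of the bound for sets on two lines. -/

namespace Helper171
open Finset Classical
open scoped LinearAlgebra.Projectivization

/-- `OnLine` for a point given by homogeneous coordinates. -/
theorem jt3_onLine_mk (p q : ℝ × ℝ) (v : Fin 3 → ℝ) (hv : v ≠ 0)
    (h : p.1 * (q.2 * v 2 - v 1) - p.2 * (q.1 * v 2 - v 0) + (q.1 * v 1 - q.2 * v 0) = 0) :
    OnLine p q (Projectivization.mk ℝ v hv) := by
  obtain ⟨a, ha⟩ := Projectivization.exists_smul_eq_mk_rep ℝ v hv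
  have hr : ∀ i, (Projectivization.mk ℝ v hv).rep i = (a : ℝ) * v i := by
    intro i
    rw [← ha]
    rfl
  unfold OnLine
  rw [Matrix.det_fin_three]
  simp only [Matrix.of_apply, Matrix.cons_val_zero, Matrix.cons_val_one, Matrix.cons_val_two,
    Matrix.cons_val', hom, Matrix.head_cons, Matrix.tail_cons, hr]
  linear_combination (a : ℝ) * h

theorem jt3_emb_inj {p q : ℝ × ℝ} (h : emb p = emb q) : p = q := by
  unfold emb at h
  rw [Projectivization.mk_eq_mk_iff'] at h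
  obtain ⟨a, ha⟩ := h
  have h0 := congrFun ha 0
  have h1 := congrFun ha 1
  have h2 := congrFun ha 2
  simp [hom] at h0 h1 h2
  rw [h2, one_mul] at h0 h1
  exact Prod.ext h0.symm h1.symm

/-- the point at infinity of the horizontal lines -/
theorem jt3_e0 : (![1, 0, 0] : Fin 3 → ℝ) ≠ 0 := by
  intro h
  simpa using congrFun h 0

/-- the common point of the lines through `(1, 0), (1, 2)` and through `(a, 0), (c, 2)` -/
theorem jt3_e1 (a c : ℕ) (ha : 2 ≤ a) :
    (![(c : ℝ) - a, 2 * (1 - (a : ℝ)), (c : ℝ) - a] : Fin 3 → ℝ) ≠ 0 := by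
  intro h
  have h1 := congrFun h 1
  have : (2 : ℝ) ≤ a := by exact_mod_cast ha
  simp at h1
  linarith

theorem jt3_emb_ne (p : ℝ × ℝ) (v : Fin 3 → ℝ) (hv : v ≠ 0) (h2 : v 2 = 0) :
    emb p ≠ Projectivization.mk ℝ v hv := by
  intro h
  unfold emb at h
  rw [Projectivization.mk_eq_mk_iff'] at h
  obtain ⟨a, ha⟩ := h
  have h3 := congrFun ha 2
  simp [hom, h2] at h3

theorem jt3_ne (a c : ℕ) (ha : 2 ≤ a) :
    Projectivization.mk ℝ (![1, 0, 0] : Fin 3 → ℝ) jt3_e0 ≠
      Projectivization.mk ℝ _ (jt3_e1 a c ha) := by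
  intro h
  rw [Projectivization.mk_eq_mk_iff'] at h
  obtain ⟨t, ht⟩ := h
  have h0 := congrFun ht 0
  have h1 := congrFun ht 1
  have : (2 : ℝ) ≤ a := by exact_mod_cast ha
  simp at h0 h1
  rcases h1 with h1 | h1
  · rw [h1] at h0
    simp at h0
  · linarith

/-- the common point is on neither of the lines `y = 0`, `y = 1`, `y = 2` -/
theorem jt3_emb_ne' (a c : ℕ) (ha : 2 ≤ a) (hc : 2 ≤ c) (p : ℝ × ℝ)
    (hp : p.2 = 0 ∨ p.2 = 1 ∨ p.2 = 2) :
    emb p ≠ Projectivization.mk ℝ _ (jt3_e1 a c ha) := by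
  intro h
  unfold emb at h
  rw [Projectivization.mk_eq_mk_iff'] at h
  obtain ⟨t, ht⟩ := h
  have h1 := congrFun ht 1
  have h2 := congrFun ht 2
  have a2 : (2 : ℝ) ≤ a := by exact_mod_cast ha
  have c2 : (2 : ℝ) ≤ c := by exact_mod_cast hc
  simp [hom] at h1 h2
  have ht0 : t ≠ 0 := by
    rintro rfl
    simp at h2
  have key : t * (2 * (1 - (a : ℝ)) - p.2 * ((c : ℝ) - a)) = 0 := by
    linear_combination h1 - p.2 * h2
  have key' := (mul_eq_zero.1 key).resolve_left ht0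
  rcases hp with h | h | h <;> rw [h] at key' <;> linarith

/-- For all `a, c ≥ 2` there are `a` points on a line and `c` points on a parallel line whose
connecting lines are blocked by `a + c - 1` points. -/
theorem two_lines_sharp (a c : ℕ) (ha : 2 ≤ a) (hc : 2 ≤ c) :
    ∃ (S₁ S₂ : Finset (ℝ × ℝ)) (B : Finset (ℙ ℝ (Fin 3 → ℝ))),
      Collinear ℝ (S₁ : Set (ℝ × ℝ)) ∧ Collinear ℝ (S₂ : Set (ℝ × ℝ)) ∧
      ¬ Collinear ℝ ((S₁ ∪ S₂ : Finset (ℝ × ℝ)) : Set (ℝ × ℝ)) ∧ Blocks (S₁ ∪ S₂) B ∧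
      Disjoint S₁ S₂ ∧ S₁.card = a ∧ S₂.card = c ∧ B.card + 1 = a + c := by
  let f₁ : ℕ → ℝ × ℝ := fun i => ((i : ℝ), 0)
  let f₂ : ℕ → ℝ × ℝ := fun i => ((i : ℝ), 2)
  let g : ℕ → ℙ ℝ (Fin 3 → ℝ) := fun x => emb ((x : ℝ) / 2, 1)
  have hf₁ : Function.Injective f₁ := by
    intro u w hab
    have := congrArg Prod.fst hab
    simpa [f₁] using this
  have hf₂ : Function.Injective f₂ := by
    intro u w hab
    have := congrArg Prod.fst hab
    simpa [f₂] using this
  have hg : Function.Injective g := by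
    intro u w hab
    have := congrArg Prod.fst (jt3_emb_inj hab)
    simp only at this
    have h2 : (u : ℝ) = w := by linarith
    exact_mod_cast h2
  let S₁ := (Finset.Icc 1 a).image f₁
  let S₂ := (Finset.Icc 1 c).image f₂
  let B₀ := (Finset.Icc 3 (a + c - 1)).image g
  let b₁ := Projectivization.mk ℝ (![1, 0, 0] : Fin 3 → ℝ) jt3_e0
  let b₂ := Projectivization.mk ℝ _ (jt3_e1 a c ha)
  have hdis : Disjoint S₁ S₂ := by
    rw [Finset.disjoint_left]
    intro p h1 h2
    obtain ⟨i, -, rfl⟩ := Finset.mem_image.1 h1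
    obtain ⟨j, -, h⟩ := Finset.mem_image.1 h2
    have := congrArg Prod.snd h
    simp [f₁, f₂] at this
  refine ⟨S₁, S₂, insert b₁ (insert b₂ B₀), ?_, ?_, ?_, ⟨?_, ?_⟩, hdis, ?_, ?_, ?_⟩
  · rw [collinear_iff_exists_forall_eq_smul_vadd]
    refine ⟨(0, 0), (1, 0), ?_⟩
    intro p hp
    simp only [S₁, Finset.coe_image, Set.mem_image, f₁] at hp
    obtain ⟨i, -, rfl⟩ := hp
    exact ⟨i, by simp⟩
  · rw [collinear_iff_exists_forall_eq_smul_vadd]
    refine ⟨(0, 2), (1, 0), ?_⟩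
    intro p hp
    simp only [S₂, Finset.coe_image, Set.mem_image, f₂] at hp
    obtain ⟨i, -, rfl⟩ := hp
    exact ⟨i, by simp⟩
  · intro hcol
    rw [collinear_iff_exists_forall_eq_smul_vadd] at hcol
    obtain ⟨p0, v, hv⟩ := hcol
    have m1 : f₁ 1 ∈ ((S₁ ∪ S₂ : Finset (ℝ × ℝ)) : Set (ℝ × ℝ)) := by
      simp only [Finset.coe_union, Set.mem_union, Finset.mem_coe]
      exact Or.inl (Finset.mem_image_of_mem _ (Finset.mem_Icc.2 ⟨le_rfl, by omega⟩))
    have m2 : f₁ 2 ∈ ((S₁ ∪ S₂ : Finset (ℝ × ℝ)) : Set (ℝ × ℝ)) := by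
      simp only [Finset.coe_union, Set.mem_union, Finset.mem_coe]
      exact Or.inl (Finset.mem_image_of_mem _ (Finset.mem_Icc.2 ⟨by omega, ha⟩))
    have m3 : f₂ 1 ∈ ((S₁ ∪ S₂ : Finset (ℝ × ℝ)) : Set (ℝ × ℝ)) := by
      simp only [Finset.coe_union, Set.mem_union, Finset.mem_coe]
      exact Or.inr (Finset.mem_image_of_mem _ (Finset.mem_Icc.2 ⟨le_rfl, by omega⟩))
    obtain ⟨r1, h1⟩ := hv _ m1
    obtain ⟨r2, h2⟩ := hv _ m2
    obtain ⟨r3, h3⟩ := hv _ m3
    simp only [f₁, f₂, vadd_eq_add] at h1 h2 h3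
    have a1 := congrArg Prod.fst h1
    have a2 := congrArg Prod.snd h1
    have c1 := congrArg Prod.fst h2
    have c2 := congrArg Prod.snd h2
    have d1 := congrArg Prod.fst h3
    have d2 := congrArg Prod.snd h3
    simp only [Prod.fst_add, Prod.snd_add, Prod.smul_fst, Prod.smul_snd, smul_eq_mul] at a1 a2 c1 c2 d1 d2
    push_cast at a1 a2 c1 c2 d1 d2
    -- (r2 - r1) v = (1, 0), (r3 - r1) v = (0, 2)
    have e1 : (r2 - r1) * v.1 = 1 := by linarith
    have e2 : (r2 - r1) * v.2 = 0 := by linarith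
    have e3 : (r3 - r1) * v.1 = 0 := by linarith
    have e4 : (r3 - r1) * v.2 = 2 := by linarith
    have e5 : (r2 - r1) * v.1 * ((r3 - r1) * v.2) = ((r2 - r1) * v.2) * ((r3 - r1) * v.1) := by
      ring
    rw [e1, e2, e3, e4] at e5
    norm_num at e5
  · intro p hp hmem
    rw [Finset.mem_insert, Finset.mem_insert] at hmem
    rcases hmem with h | h | h
    · exact jt3_emb_ne p _ jt3_e0 (by simp) h
    · refine jt3_emb_ne' a c ha hc p ?_ h
      rw [Finset.mem_union] at hp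
      rcases hp with hp | hp
      · obtain ⟨i, -, rfl⟩ := Finset.mem_image.1 hp
        exact Or.inl rfl
      · obtain ⟨i, -, rfl⟩ := Finset.mem_image.1 hp
        exact Or.inr (Or.inr rfl)
    · obtain ⟨x, -, hx⟩ := Finset.mem_image.1 h
      have h1 := congrArg Prod.snd (jt3_emb_inj hx)
      rw [Finset.mem_union] at hp
      rcases hp with hp | hp
      · obtain ⟨i, -, rfl⟩ := Finset.mem_image.1 hp
        simp [f₁] at h1
      · obtain ⟨i, -, rfl⟩ := Finset.mem_image.1 hp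
        simp [f₂] at h1
  · intro p hp q hq hpq
    rw [Finset.mem_union] at hp hq
    have mixed : ∀ i ∈ Finset.Icc 1 a, ∀ j ∈ Finset.Icc 1 c,
        ∃ b ∈ insert b₁ (insert b₂ B₀), OnLine (f₁ i) (f₂ j) b ∧ OnLine (f₂ j) (f₁ i) b := by
      intro i hi j hj
      rw [Finset.mem_Icc] at hi hj
      by_cases hij : 3 ≤ i + j ∧ i + j ≤ a + c - 1
      · refine ⟨g (i + j), ?_, ?_, ?_⟩
        · rw [Finset.mem_insert, Finset.mem_insert]
          right; right
          apply Finset.mem_image_of_mem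
          rw [Finset.mem_Icc]
          omega
        · apply jt3_onLine_mk
          simp [f₁, f₂, hom]
          ring
        · apply jt3_onLine_mk
          simp [f₁, f₂, hom]
          ring
      · have hij' : (i = 1 ∧ j = 1) ∨ (i = a ∧ j = c) := by omega
        refine ⟨b₂, by simp, ?_, ?_⟩
        · apply jt3_onLine_mk
          rcases hij' with ⟨rfl, rfl⟩ | ⟨rfl, rfl⟩
          · simp [f₁, f₂]
          · simp [f₁, f₂]
            ring
        · apply jt3_onLine_mk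
          rcases hij' with ⟨rfl, rfl⟩ | ⟨rfl, rfl⟩
          · simp [f₁, f₂]
          · simp [f₁, f₂]
            ring
    rcases hp with hp | hp <;> rcases hq with hq | hq
    · obtain ⟨i, hi, rfl⟩ := Finset.mem_image.1 hp
      obtain ⟨j, hj, rfl⟩ := Finset.mem_image.1 hq
      refine ⟨b₁, by simp, ?_⟩
      apply jt3_onLine_mk
      simp [f₁]
    · obtain ⟨i, hi, rfl⟩ := Finset.mem_image.1 hp
      obtain ⟨j, hj, rfl⟩ := Finset.mem_image.1 hq
      obtain ⟨b, hb, h1, -⟩ := mixed i hi j hj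
      exact ⟨b, hb, h1⟩
    · obtain ⟨i, hi, rfl⟩ := Finset.mem_image.1 hp
      obtain ⟨j, hj, rfl⟩ := Finset.mem_image.1 hq
      obtain ⟨b, hb, -, h1⟩ := mixed j hj i hi
      exact ⟨b, hb, h1⟩
    · obtain ⟨i, hi, rfl⟩ := Finset.mem_image.1 hp
      obtain ⟨j, hj, rfl⟩ := Finset.mem_image.1 hq
      refine ⟨b₁, by simp, ?_⟩
      apply jt3_onLine_mk
      simp [f₂]
  · rw [Finset.card_image_of_injective _ hf₁, Nat.card_Icc]
    omega
  · rw [Finset.card_image_of_injective _ hf₂, Nat.card_Icc]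
    omega
  · have h1 : b₁ ∉ insert b₂ B₀ := by
      rw [Finset.mem_insert]
      rintro (h | h)
      · exact jt3_ne a c ha h
      · obtain ⟨x, -, hx⟩ := Finset.mem_image.1 h
        exact jt3_emb_ne _ _ jt3_e0 (by simp) hx
    have h2 : b₂ ∉ B₀ := by
      intro h
      obtain ⟨x, -, hx⟩ := Finset.mem_image.1 h
      exact jt3_emb_ne' a c ha hc _ (Or.inr (Or.inl rfl)) hx
    rw [Finset.card_insert_of_notMem h1, Finset.card_insert_of_notMem h2,
      Finset.card_image_of_injective _ hg, Nat.card_Icc]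
    omega

end Helper171
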