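import Pool.Agent.helper171_blk.Defs

/-! Basic counting for arrangements. -/

namespace Helper171
open Finset Classical

section
variable {ι κ : Type*} [Fintype ι] [Fintype κ]

theorem mem_L (A : Arr ι) (v : ℝ × ℝ) (i : ι) : i ∈ A.L v ↔ A.val i v.1 = v.2 := by
  simp [Arr.L]

omit [Fintype ι] [Fintype κ] in
theorem val_xr (A : Arr ι) (R : Arr κ) (i : ι) (j : κ) (h : A.a i ≠ R.a j) :
    A.val i (A.xr R i j) = R.val j (A.xr R i j) := by
  have h' : A.a i - R.a j ≠ 0 := sub_ne_zero.mpr h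
  unfold Arr.val Arr.xr
  field_simp
  ring

omit [Fintype ι] [Fintype κ] in
theorem eq_xr (A : Arr ι) (R : Arr κ) (i : ι) (j : κ) (h : A.a i ≠ R.a j) (s : ℝ)
    (hs : A.val i s = R.val j s) : s = A.xr R i j := by
  have h' : A.a i - R.a j ≠ 0 := sub_ne_zero.mpr h
  unfold Arr.val at hs
  unfold Arr.xr
  field_simp
  linarith

theorem mem_V (A : Arr ι) (ha : Function.Injective A.a) (v : ℝ × ℝ) : v ∈ A.V ↔ 2 ≤ A.b v := by
  unfold Arr.V Arr.b
  rw [show (2 ≤ (A.L v).card) = (1 < (A.L v).card) from rfl, Finset.one_lt_card]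
  simp only [mem_image, mem_filter, mem_univ, true_and, Prod.exists, mem_L]
  constructor
  · rintro ⟨i, j, hij, rfl⟩
    exact ⟨i, rfl, j, (val_xr A A i j (fun h => hij (ha h))).symm, hij⟩
  · rintro ⟨i, hi, j, hj, hij⟩
    refine ⟨i, j, hij, ?_⟩
    have := eq_xr A A i j (fun h => hij (ha h)) v.1 (hi.trans hj.symm)
    rw [← this]
    ext <;> simp [hi]

theorem mem_Cross (A : Arr ι) (R : Arr κ) (har : ∀ i j, A.a i ≠ R.a j) (j : κ) (y : ℝ × ℝ) :
    y ∈ A.Cross R j ↔ R.val j y.1 = y.2 ∧ (A.L y).Nonempty := by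
  unfold Arr.Cross
  simp only [mem_image, mem_univ, true_and, Finset.Nonempty, mem_L]
  constructor
  · rintro ⟨i, rfl⟩
    exact ⟨rfl, i, val_xr A R i j (har i j)⟩
  · rintro ⟨h, i, hi⟩
    refine ⟨i, ?_⟩
    have := eq_xr A R i j (har i j) y.1 (hi.trans h.symm)
    rw [← this]
    ext <;> simp [h]

theorem sum_Cross (A : Arr ι) (R : Arr κ) (har : ∀ i j, A.a i ≠ R.a j) (j : κ) :
    ∑ y ∈ A.Cross R j, A.b y = Fintype.card ι := by
  have h1 : ∀ y ∈ A.Cross R j, A.b y =
      (univ.filter fun i => (A.xr R i j, R.val j (A.xr R i j)) = y).card := by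
    intro y hy
    rw [mem_Cross A R har] at hy
    unfold Arr.b
    congr 1
    ext i
    simp only [mem_L, mem_filter, mem_univ, true_and]
    constructor
    · intro hi
      have := eq_xr A R i j (har i j) y.1 (hi.trans hy.1.symm)
      rw [← this]
      ext <;> simp [hy.1]
    · intro hi
      rw [← hi]
      exact val_xr A R i j (har i j)
  rw [Finset.sum_congr rfl h1, ← Finset.card_univ]
  symm
  apply Finset.card_eq_sum_card_fiberwise
  intro i _
  exact Finset.mem_coe.2 (Finset.mem_image_of_mem _ (mem_univ i))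

theorem Sel_subset (C : Conf ι κ) (j : κ) : C.Sel j ⊆ C.A.Cross C.R j := by
  intro v hv
  unfold Conf.Sel at hv
  rw [mem_filter] at hv
  rw [mem_Cross _ _ C.har]
  refine ⟨?_, ?_⟩
  · rw [← hv.2]; exact C.hρ v hv.1
  · have := (mem_V _ C.ha v).1 hv.1
    unfold Arr.b at this
    exact Finset.card_pos.1 (by omega)

theorem card_V_eq (C : Conf ι κ) : C.A.V.card = ∑ j, (C.Sel j).card := by
  unfold Conf.Sel
  exact Finset.card_eq_sum_card_fiberwise (fun v _ => Finset.mem_coe.2 (Finset.mem_univ _))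

theorem total (C : Conf ι κ) : Fintype.card ι * Fintype.card κ = C.E + C.W := by
  have h1 : ∀ j, ∑ y ∈ C.Sel j, C.A.b y + ∑ y ∈ C.Non j, C.A.b y = Fintype.card ι := by
    intro j
    rw [← sum_Cross C.A C.R C.har j]
    unfold Conf.Non
    rw [add_comm]
    exact Finset.sum_sdiff (Sel_subset C j)
  have h2 : C.E = ∑ j, ∑ y ∈ C.Sel j, C.A.b y := by
    unfold Conf.E Conf.Sel
    exact (Finset.sum_fiberwise _ _ _).symm
  unfold Conf.W
  rw [h2, ← Finset.sum_add_distrib, Finset.sum_congr rfl (fun j _ => h1 j)]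
  simp [mul_comm]

theorem sig_le_W (C : Conf ι κ) : C.sig ≤ C.W := by
  unfold Conf.sig Conf.W
  apply Finset.sum_le_sum
  intro j _
  rw [Finset.card_eq_sum_ones]
  apply Finset.sum_le_sum
  intro y hy
  unfold Conf.Non at hy
  rw [mem_sdiff, mem_Cross _ _ C.har] at hy
  unfold Arr.b
  exact Finset.card_pos.2 hy.1.2

theorem sum_pairs (A : Arr ι) (ha : Function.Injective A.a) :
    ∑ v ∈ A.V, A.b v * (A.b v - 1) = Fintype.card ι * (Fintype.card ι - 1) := by
  have h1 : ∀ v ∈ A.V, A.b v * (A.b v - 1) =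
      (((univ : Finset (ι × ι)).filter fun p => p.1 ≠ p.2).filter
        fun p => (A.xr A p.1 p.2, A.val p.1 (A.xr A p.1 p.2)) = v).card := by
    intro v hv
    have : A.b v * (A.b v - 1) = (A.L v).offDiag.card := by
      rw [Finset.offDiag_card]
      unfold Arr.b
      rw [Nat.mul_sub, mul_one]
    rw [this]
    congr 1
    ext ⟨i, j⟩
    simp only [mem_offDiag, mem_L, mem_filter, mem_univ, true_and]
    constructor
    · rintro ⟨hi, hj, hij⟩
      refine ⟨hij, ?_⟩
      have := eq_xr A A i j (fun h => hij (ha h)) v.1 (hi.trans hj.symm)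
      rw [← this]
      ext <;> simp [hi]
    · rintro ⟨hij, rfl⟩
      exact ⟨rfl, (val_xr A A i j (fun h => hij (ha h))).symm, hij⟩
  rw [Finset.sum_congr rfl h1]
  have h2 : (((univ : Finset (ι × ι)).filter fun p => p.1 ≠ p.2)).card =
      Fintype.card ι * (Fintype.card ι - 1) := by
    have : ((univ : Finset (ι × ι)).filter fun p => p.1 ≠ p.2) = (univ : Finset ι).offDiag := by
      ext ⟨i, j⟩
      simp
    rw [this, Finset.offDiag_card, Nat.mul_sub, mul_one, Finset.card_univ]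
  rw [← h2]
  symm
  apply Finset.card_eq_sum_card_fiberwise
  intro p hp
  unfold Arr.V
  exact Finset.mem_coe.2 (Finset.mem_image_of_mem _ hp)

end
end Helper171
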