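import Pool.Agent.helper171_blk.Basic

/-! Faces counted by their leftmost vertex. -/

namespace Helper171
open Finset Classical

theorem mem_rep_le {ι : Type*} [Fintype ι] (A : Arr ι) {F : Finset ι} {u : ℝ × ℝ} {P : ι → Prop}
    (hF : F = A.below u ∪ (A.L u).filter P) {i : ι} (hi : i ∈ F) : A.val i u.1 ≤ u.2 := by
  rw [hF, mem_union, mem_filter] at hi
  rcases hi with hi | hi
  · unfold Arr.below at hi
    rw [mem_filter] at hi
    exact hi.2.le
  · exact ((mem_L A u i).1 hi.1).le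

theorem notMem_rep_le {ι : Type*} [Fintype ι] (A : Arr ι) {F : Finset ι} {u : ℝ × ℝ} {P : ι → Prop}
    (hF : F = A.below u ∪ (A.L u).filter P) {i : ι} (hi : i ∉ F) : u.2 ≤ A.val i u.1 := by
  by_contra hlt
  push Not at hlt
  apply hi
  rw [hF, mem_union]
  left
  unfold Arr.below
  rw [mem_filter]
  exact ⟨mem_univ _, hlt⟩

theorem mem_rep_of {ι : Type*} [Fintype ι] (A : Arr ι) {F : Finset ι} {u : ℝ × ℝ} {P : ι → Prop}
    (hF : F = A.below u ∪ (A.L u).filter P) {i : ι} (hi : i ∈ A.L u) (hP : P i) : i ∈ F := by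
  rw [hF, mem_union]
  right
  rw [mem_filter]
  exact ⟨hi, hP⟩

theorem notMem_rep_of {ι : Type*} [Fintype ι] (A : Arr ι) {F : Finset ι} {u : ℝ × ℝ} {P : ι → Prop}
    (hF : F = A.below u ∪ (A.L u).filter P) {i : ι} (hi : i ∈ A.L u) (hP : ¬ P i) : i ∉ F := by
  rw [hF, mem_union, mem_filter]
  rintro (h | h)
  · unfold Arr.below at h
    rw [mem_filter] at h
    have := (mem_L A u i).1 hi
    rw [this] at h
    exact lt_irrefl _ h.2
  · exact hP h.2

theorem RW_aux {ι : Type*} [Fintype ι] (A : Arr ι)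
    {F : Finset ι} {u u' : ℝ × ℝ} (h : RWat A F u) (h' : RWat A F u') (hle : u.1 ≤ u'.1) :
    u = u' := by
  obtain ⟨θ, hF, -, -⟩ := h
  obtain ⟨θ', hF', ⟨i, hi, hiθ⟩, ⟨k, hk, hkθ⟩⟩ := h'
  have hiF := mem_rep_of A hF' hi hiθ
  have hkF := notMem_rep_of A hF' hk (not_lt.2 hkθ)
  have h1 := mem_rep_le A hF hiF
  have h2 := notMem_rep_le A hF hkF
  have h3 := (mem_L A u' i).1 hi
  have h4 := (mem_L A u' k).1 hk
  unfold Arr.val at h1 h2 h3 h4
  have hak : A.a i < A.a k := lt_of_lt_of_le hiθ hkθ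
  have hx : u.1 = u'.1 := by
    rcases hle.lt_or_eq with hlt | heq
    · exfalso
      nlinarith [mul_pos (sub_pos.2 hak) (sub_pos.2 hlt)]
    · exact heq
  have hy : u.2 = u'.2 := by
    rw [hx] at h1 h2
    linarith
  exact Prod.ext hx hy

theorem LW_aux {ι : Type*} [Fintype ι] (A : Arr ι)
    {F : Finset ι} {u u' : ℝ × ℝ} (h : LWat A F u) (h' : LWat A F u') (hle : u'.1 ≤ u.1) :
    u = u' := by
  obtain ⟨θ, hF, -, -⟩ := h
  obtain ⟨θ', hF', ⟨i, hi, hiθ⟩, ⟨k, hk, hkθ⟩⟩ := h'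
  have hiF := mem_rep_of A hF' hi hiθ
  have hkF := notMem_rep_of A hF' hk (not_lt.2 hkθ)
  have h1 := mem_rep_le A hF hiF
  have h2 := notMem_rep_le A hF hkF
  have h3 := (mem_L A u' i).1 hi
  have h4 := (mem_L A u' k).1 hk
  unfold Arr.val at h1 h2 h3 h4
  have hak : A.a k < A.a i := lt_of_le_of_lt hkθ hiθ
  have hx : u.1 = u'.1 := by
    rcases hle.lt_or_eq with hlt | heq
    · exfalso
      nlinarith [mul_pos (sub_pos.2 hak) (sub_pos.2 hlt)]
    · exact heq.symm
  have hy : u.2 = u'.2 := by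
    rw [hx] at h1 h2
    linarith
  exact Prod.ext hx hy

theorem RWat_unique {ι : Type*} [Fintype ι] (A : Arr ι) (ha : Function.Injective A.a)
    {F : Finset ι} {u u' : ℝ × ℝ} (h : RWat A F u) (h' : RWat A F u') : u = u' := by
  rcases le_total u.1 u'.1 with hle | hle
  · exact RW_aux A h h' hle
  · exact (RW_aux A h' h hle).symm

theorem LWat_unique {ι : Type*} [Fintype ι] (A : Arr ι) (ha : Function.Injective A.a)
    {F : Finset ι} {u u' : ℝ × ℝ} (h : LWat A F u) (h' : LWat A F u') : u = u' := by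
  rcases le_total u.1 u'.1 with hle | hle
  · exact (LW_aux A h' h hle).symm
  · exact LW_aux A h h' hle

/-- the lines through `v` that are not of largest slope there -/
noncomputable def Lower {ι : Type*} [Fintype ι] (A : Arr ι) (v : ℝ × ℝ) : Finset ι :=
  (A.L v).filter fun i => ∃ k ∈ A.L v, A.a i < A.a k

/-- the face right of `v` just above line `i` -/
noncomputable def Gf {ι : Type*} [Fintype ι] (A : Arr ι) (v : ℝ × ℝ) (i : ι) : Finset ι :=
  A.below v ∪ (A.L v).filter fun k => A.a k ≤ A.a i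

theorem Lower_card {ι : Type*} [Fintype ι] (A : Arr ι) (ha : Function.Injective A.a)
    {v : ℝ × ℝ} (hv : v ∈ A.V) : (Lower A v).card + 1 = A.b v := by
  have hb := (mem_V A ha v).1 hv
  have hne : (A.L v).Nonempty := by
    rw [← card_pos]
    exact lt_of_lt_of_le (by norm_num) hb
  obtain ⟨m, hm, hmax⟩ := exists_max_image (A.L v) A.a hne
  have hE : Lower A v = (A.L v).erase m := by
    ext i
    unfold Lower
    rw [mem_filter, mem_erase]
    constructor
    · rintro ⟨hi, k, hk, hik⟩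
      refine ⟨?_, hi⟩
      rintro rfl
      exact absurd (hmax k hk) (not_le.2 hik)
    · rintro ⟨hne, hi⟩
      refine ⟨hi, m, hm, ?_⟩
      exact lt_of_le_of_ne (hmax i hi) (fun h => hne (ha h))
  rw [hE]
  unfold Arr.b
  exact card_erase_add_one hm

theorem Gf_RWat {ι : Type*} [Fintype ι] (A : Arr ι)
    {v : ℝ × ℝ} {i : ι} (hi : i ∈ Lower A v) : RWat A (Gf A v i) v := by
  unfold Lower at hi
  rw [mem_filter] at hi
  obtain ⟨hiL, k, hk, hik⟩ := hi
  have hne : ((A.L v).filter fun k => A.a i < A.a k).Nonempty := ⟨k, mem_filter.2 ⟨hk, hik⟩⟩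
  obtain ⟨m, hm, hmin⟩ := exists_min_image _ A.a hne
  rw [mem_filter] at hm
  refine ⟨A.a m, ?_, ⟨i, hiL, hm.2⟩, ⟨m, hm.1, le_rfl⟩⟩
  unfold Gf
  congr 1
  apply filter_congr
  intro k hk
  constructor
  · intro h
    exact lt_of_le_of_lt h hm.2
  · intro h
    by_contra hlt
    push Not at hlt
    exact absurd (hmin k (mem_filter.2 ⟨hk, hlt⟩)) (not_le.2 h)

theorem RWat_Gf {ι : Type*} [Fintype ι] (A : Arr ι) {F : Finset ι}
    {v : ℝ × ℝ} (h : RWat A F v) : ∃ i ∈ Lower A v, F = Gf A v i := by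
  obtain ⟨θ, hF, ⟨i, hi, hiθ⟩, ⟨k, hk, hkθ⟩⟩ := h
  have hne : ((A.L v).filter fun k => A.a k < θ).Nonempty := ⟨i, mem_filter.2 ⟨hi, hiθ⟩⟩
  obtain ⟨m, hm, hmax⟩ := exists_max_image _ A.a hne
  rw [mem_filter] at hm
  refine ⟨m, ?_, ?_⟩
  · unfold Lower
    rw [mem_filter]
    exact ⟨hm.1, k, hk, lt_of_lt_of_le hm.2 hkθ⟩
  · rw [hF]
    unfold Gf
    congr 1
    apply filter_congr
    intro k hk
    constructor
    · intro h
      exact hmax k (mem_filter.2 ⟨hk, h⟩)
    · intro h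
      exact lt_of_le_of_lt h hm.2

theorem card_RW {ι : Type*} [Fintype ι] (A : Arr ι) (ha : Function.Injective A.a) :
    (RW A).card + A.V.card = ∑ v ∈ A.V, A.b v := by
  have h1 : RW A = (A.V.sigma fun v => Lower A v).image fun x => Gf A x.1 x.2 := by
    ext F
    unfold RW
    simp only [mem_filter, mem_univ, true_and, mem_image, mem_sigma, Sigma.exists]
    constructor
    · rintro ⟨u, hu, h⟩
      obtain ⟨i, hi, hFi⟩ := RWat_Gf A h
      exact ⟨u, i, ⟨hu, hi⟩, hFi.symm⟩
    · rintro ⟨u, i, ⟨hu, hi⟩, rfl⟩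
      exact ⟨u, hu, Gf_RWat A hi⟩
  have h2 : (RW A).card = (A.V.sigma fun v => Lower A v).card := by
    rw [h1]
    apply card_image_of_injOn
    rintro ⟨v, i⟩ hx ⟨v', i'⟩ hx' he
    simp only [coe_sigma, Set.mem_sigma_iff, mem_coe] at hx hx'
    simp only at he
    have hR := Gf_RWat A hx.2
    have hR' := Gf_RWat A hx'.2
    rw [← he] at hR'
    have hvv := RWat_unique A ha hR hR'
    subst hvv
    have hkey : ∀ i i', i ∈ Lower A v → Gf A v i = Gf A v i' → A.a i ≤ A.a i' := by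
      intro i i' hi he
      have hiL : i ∈ A.L v := (mem_filter.1 hi).1
      have hiG : i ∈ Gf A v i := mem_rep_of A (P := fun k => A.a k ≤ A.a i) rfl hiL le_rfl
      rw [he] at hiG
      by_contra hlt
      exact notMem_rep_of A (P := fun k => A.a k ≤ A.a i') rfl hiL hlt hiG
    have : i = i' := ha (le_antisymm (hkey i i' hx.2 he) (hkey i' i hx'.2 he.symm))
    subst this
    rfl
  rw [h2, card_sigma, card_eq_sum_ones A.V, ← sum_add_distrib]
  exact sum_congr rfl fun v hv => Lower_card A ha hv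

theorem sum_side {ι : Type*} [Fintype ι] (A : Arr ι) :
    ∑ F ∈ Faces A, side A F = 2 * A.V.card := by
  unfold side
  rw [sum_add_distrib]
  have hT : ∑ F ∈ Faces A, (A.V.filter fun u => Topat A F u).card = A.V.card := by
    simp only [card_filter]
    rw [sum_comm, card_eq_sum_ones]
    refine sum_congr rfl fun u hu => ?_
    have hmem : (A.below u ∪ A.L u) ∈ Faces A := by
      unfold Faces
      rw [mem_filter]
      exact ⟨mem_univ _, u, hu, Or.inr (Or.inr (Or.inl rfl))⟩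
    rw [sum_eq_single_of_mem _ hmem]
    · rw [if_pos]; rfl
    · intro F _ hF
      rw [if_neg]
      exact hF
  have hB : ∑ F ∈ Faces A, (A.V.filter fun u => Botat A F u).card = A.V.card := by
    simp only [card_filter]
    rw [sum_comm, card_eq_sum_ones]
    refine sum_congr rfl fun u hu => ?_
    have hmem : (A.below u) ∈ Faces A := by
      unfold Faces
      rw [mem_filter]
      exact ⟨mem_univ _, u, hu, Or.inr (Or.inr (Or.inr rfl))⟩
    rw [sum_eq_single_of_mem _ hmem]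
    · rw [if_pos]; rfl
    · intro F _ hF
      rw [if_neg]
      exact hF
  rw [hT, hB]
  ring

end Helper171
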