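import Pool.Agent.helper171_blk.Basic
import Pool.Agent.helper171_blk.JA

/-! Almost all faces have a leftmost vertex. -/

namespace Helper171
open Finset Classical

section aux
variable {ι : Type*} [Fintype ι]

theorem FSR_val (A : Arr ι) (i : ι) (s : ℝ) : A.val i s = A.a i * s + A.c i := rfl

theorem FSR_below (A : Arr ι) (v : ℝ × ℝ) (i : ι) : i ∈ A.below v ↔ A.val i v.1 < v.2 := by
  simp [Arr.below]

theorem FSR_xr_eq (A : Arr ι) {i j : ι} (h : A.a i < A.a j) :
    A.val i (A.xr A i j) = A.val j (A.xr A i j) := by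
  have h1 : A.a i - A.a j ≠ 0 := by linarith
  simp only [FSR_val, Arr.xr]
  field_simp
  ring

theorem FSR_lt_xr (A : Arr ι) {i j : ι} (h : A.a i < A.a j) {s : ℝ}
    (hs : A.val j s < A.val i s) : s < A.xr A i j := by
  have h1 := FSR_xr_eq A h
  simp only [FSR_val] at *
  by_contra hc
  push Not at hc
  nlinarith [mul_nonneg (sub_nonneg.2 h.le) (sub_nonneg.2 hc)]

theorem FSR_xr_le (A : Arr ι) {i j : ι} (h : A.a i < A.a j) {s : ℝ}
    (hs : A.val i s ≤ A.val j s) : A.xr A i j ≤ s := by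
  have h1 := FSR_xr_eq A h
  simp only [FSR_val] at *
  by_contra hc
  push Not at hc
  nlinarith [mul_pos (sub_pos.2 h) (sub_pos.2 hc)]

theorem FSR_slope (A : Arr ι) {k l : ι} {s t : ℝ} (h : s ≤ t) (h1 : A.val l s < A.val k s)
    (h2 : A.val k t ≤ A.val l t) : A.a k < A.a l := by
  simp only [FSR_val] at *
  by_contra hc
  push Not at hc
  nlinarith [mul_nonneg (sub_nonneg.2 hc) (sub_nonneg.2 h)]

theorem FSR_cor (A : Arr ι) {F : Finset ι} {u : ℝ × ℝ} (h : Cor A F u) :
    (∀ k ∈ F, A.val k u.1 ≤ u.2) ∧ ∀ l, l ∉ F → u.2 ≤ A.val l u.1 := by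
  rcases h with ⟨θ, h, -, -⟩ | ⟨θ, h, -, -⟩ | h | h
  · subst h
    constructor
    · intro k hk
      rcases mem_union.1 hk with hk | hk
      · exact ((FSR_below A u k).1 hk).le
      · exact ((mem_L A u k).1 (mem_filter.1 hk).1).le
    · intro l hl
      by_contra hc
      exact hl (mem_union_left _ ((FSR_below A u l).2 (not_le.1 hc)))
  · subst h
    constructor
    · intro k hk
      rcases mem_union.1 hk with hk | hk
      · exact ((FSR_below A u k).1 hk).le
      · exact ((mem_L A u k).1 (mem_filter.1 hk).1).le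
    · intro l hl
      by_contra hc
      exact hl (mem_union_left _ ((FSR_below A u l).2 (not_le.1 hc)))
  · unfold Topat at h
    subst h
    constructor
    · intro k hk
      rcases mem_union.1 hk with hk | hk
      · exact ((FSR_below A u k).1 hk).le
      · exact ((mem_L A u k).1 hk).le
    · intro l hl
      by_contra hc
      exact hl (mem_union_left _ ((FSR_below A u l).2 (not_le.1 hc)))
  · unfold Botat at h
    subst h
    constructor
    · intro k hk
      exact ((FSR_below A u k).1 hk).le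
    · intro l hl
      by_contra hc
      exact hl ((FSR_below A u l).2 (not_le.1 hc))

/-- up-closed sets of lines -/
def FSR_Up (A : Arr ι) (F : Finset ι) : Prop := ∀ k ∈ F, ∀ l, A.a k < A.a l → l ∈ F

theorem FSR_main (A : Arr ι) (ha : Function.Injective A.a) {F : Finset ι} (hF : F ∈ Faces A)
    (hup : ¬ FSR_Up A F) : F ∈ RW A := by
  obtain ⟨-, u, hu, hcor⟩ := mem_filter.1 hF
  obtain ⟨hin, hout⟩ := FSR_cor A hcor
  set Q : Finset (ι × ι) := univ.filter (fun q : ι × ι => q.1 ∈ F ∧ q.2 ∉ F ∧ A.a q.1 < A.a q.2)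
    with hQ
  have hne : Q.Nonempty := by
    unfold FSR_Up at hup
    push Not at hup
    obtain ⟨k, hk, l, hkl, hl⟩ := hup
    exact ⟨(k, l), mem_filter.2 ⟨mem_univ _, hk, hl, hkl⟩⟩
  obtain ⟨⟨i, j⟩, hij, hmax⟩ := exists_max_image Q (fun q => A.xr A q.1 q.2) hne
  obtain ⟨-, hi, hj, haij⟩ := mem_filter.1 hij
  simp only at hi hj haij
  have hmax' : ∀ k l, k ∈ F → l ∉ F → A.a k < A.a l → A.xr A k l ≤ A.xr A i j := by
    intro k l hk hl hkl
    exact hmax (k, l) (mem_filter.2 ⟨mem_univ _, hk, hl, hkl⟩)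
  set s0 := A.xr A i j with hs0
  have hx : A.val i s0 = A.val j s0 := FSR_xr_eq A haij
  have hle : s0 ≤ u.1 := FSR_xr_le A haij ((hin i hi).trans (hout j hj))
  set v0 : ℝ × ℝ := (s0, A.val i s0) with hv0
  -- (a)
  have hA : ∀ k ∈ F, A.val k s0 ≤ A.val i s0 := by
    intro k hk
    by_contra hc
    push Not at hc
    rw [hx] at hc
    have h1 : A.a k < A.a j := FSR_slope A hle hc ((hin k hk).trans (hout j hj))
    exact absurd (hmax' k j hk hj h1) (not_le.2 (FSR_lt_xr A h1 hc))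
  -- (b)
  have hB : ∀ l, l ∉ F → A.val i s0 ≤ A.val l s0 := by
    intro l hl
    by_contra hc
    push Not at hc
    have h1 : A.a i < A.a l := FSR_slope A hle hc ((hin i hi).trans (hout l hl))
    exact absurd (hmax' i l hi hl h1) (not_le.2 (FSR_lt_xr A h1 hc))
  have hiL : i ∈ A.L v0 := (mem_L A v0 i).2 rfl
  have hjL : j ∈ A.L v0 := (mem_L A v0 j).2 hx.symm
  have hV : v0 ∈ A.V := by
    rw [mem_V A ha]
    have : i ≠ j := by rintro rfl; exact lt_irrefl _ haij
    exact one_lt_card.2 ⟨i, hiL, j, hjL, this⟩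
  rcases eq_or_lt_of_le hle with heq | hlt
  · -- the case `v0 = u`
    have h1 : A.val i u.1 = u.2 := by
      refine le_antisymm (hin i hi) ?_
      rw [← heq, hx, heq]
      exact hout j hj
    have h2 : A.val j u.1 = u.2 := by
      rw [← heq, ← hx, heq]; exact h1
    have hiL' : i ∈ A.L u := (mem_L A u i).2 h1
    have hjL' : j ∈ A.L u := (mem_L A u j).2 h2
    refine mem_filter.2 ⟨mem_univ _, u, hu, ?_⟩
    rcases hcor with h | ⟨θ, h, -, -⟩ | h | h
    · exact h
    · exfalso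
      have h3 : θ < A.a i := by
        rw [h] at hi
        rcases mem_union.1 hi with hi | hi
        · have := (FSR_below A u i).1 hi
          linarith
        · exact (mem_filter.1 hi).2
      have h4 : A.a j ≤ θ := by
        by_contra hc
        push Not at hc
        apply hj
        rw [h]
        exact mem_union_right _ (mem_filter.2 ⟨hjL', hc⟩)
      linarith
    · exfalso
      apply hj
      unfold Topat at h
      rw [h]
      exact mem_union_right _ hjL'
    · exfalso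
      unfold Botat at h
      rw [h] at hi
      have := (FSR_below A u i).1 hi
      linarith
  · -- (c)
    have hC : ∀ k ∈ F, ∀ l, l ∉ F → k ∈ A.L v0 → l ∈ A.L v0 → A.a k < A.a l := by
      intro k hk l hl hkL hlL
      have h1 : A.val k s0 = A.val i s0 := (mem_L A v0 k).1 hkL
      have h2 : A.val l s0 = A.val i s0 := (mem_L A v0 l).1 hlL
      by_contra hc
      push Not at hc
      have h3 : A.a l < A.a k := lt_of_le_of_ne hc fun h => hl (ha h ▸ hk)
      have h4 := (hin k hk).trans (hout l hl)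
      simp only [FSR_val] at h1 h2 h4
      nlinarith [mul_pos (sub_pos.2 h3) (sub_pos.2 hlt)]
    have hne' : ((A.L v0).filter fun l => l ∉ F).Nonempty := ⟨j, mem_filter.2 ⟨hjL, hj⟩⟩
    obtain ⟨m, hm, hmin⟩ := exists_min_image _ (fun l => A.a l) hne'
    obtain ⟨hmL, hmF⟩ := mem_filter.1 hm
    refine mem_filter.2 ⟨mem_univ _, v0, hV, A.a m, ?_, ⟨i, hiL, hC i hi m hmF hiL hmL⟩,
      ⟨m, hmL, le_refl _⟩⟩
    ext k
    constructor
    · intro hk
      rcases lt_or_eq_of_le (hA k hk) with h | h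
      · exact mem_union_left _ ((FSR_below A v0 k).2 h)
      · have hkL : k ∈ A.L v0 := (mem_L A v0 k).2 h
        exact mem_union_right _ (mem_filter.2 ⟨hkL, hC k hk m hmF hkL hmL⟩)
    · intro hk
      by_contra hkF
      rcases mem_union.1 hk with hk | hk
      · have h1 := (FSR_below A v0 k).1 hk
        exact absurd (hB k hkF) (not_le.2 h1)
      · obtain ⟨hkL, h2⟩ := mem_filter.1 hk
        exact absurd (hmin k (mem_filter.2 ⟨hkL, hkF⟩)) (not_le.2 h2)

theorem FSR_Up_eq (A : Arr ι) (ha : Function.Injective A.a) {F G : Finset ι} (hF : FSR_Up A F)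
    (hG : FSR_Up A G) (h : F.card = G.card) : F = G := by
  by_cases hFG : F ⊆ G
  · exact eq_of_subset_of_card_le hFG h.ge
  · obtain ⟨k, hk, hkG⟩ := not_subset.1 hFG
    have hGF : G ⊆ F := by
      intro l hl
      rcases lt_trichotomy (A.a k) (A.a l) with h1 | h1 | h1
      · exact hF k hk l h1
      · exact (ha h1) ▸ hk
      · exact absurd (hG l hl k h1) hkG
    exact (eq_of_subset_of_card_le hGF h.le).symm

/-- the mirror image of a family -/
def FSR_M (A : Arr ι) : Arr ι := ⟨fun i => -A.a i, A.c⟩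

theorem FSR_M_val (A : Arr ι) (i : ι) (s : ℝ) : (FSR_M A).val i (-s) = A.val i s := by
  simp [FSR_M, Arr.val]

theorem FSR_M_L (A : Arr ι) (v : ℝ × ℝ) : (FSR_M A).L (-v.1, v.2) = A.L v := by
  ext i
  rw [mem_L, mem_L]
  simp only [FSR_M_val]

theorem FSR_M_below (A : Arr ι) (v : ℝ × ℝ) : (FSR_M A).below (-v.1, v.2) = A.below v := by
  ext i
  rw [FSR_below, FSR_below]
  simp only [FSR_M_val]

theorem FSR_M_inj (A : Arr ι) (ha : Function.Injective A.a) : Function.Injective (FSR_M A).a := by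
  intro i j h
  exact ha (neg_injective h)

theorem FSR_M_V (A : Arr ι) (ha : Function.Injective A.a) (v : ℝ × ℝ) :
    (-v.1, v.2) ∈ (FSR_M A).V ↔ v ∈ A.V := by
  rw [mem_V _ (FSR_M_inj A ha), mem_V _ ha]
  unfold Arr.b
  rw [FSR_M_L]

theorem FSR_M_RWat (A : Arr ι) (F : Finset ι) (u : ℝ × ℝ) :
    RWat (FSR_M A) F (-u.1, u.2) ↔ LWat A F u := by
  unfold RWat LWat
  rw [FSR_M_L, FSR_M_below]
  constructor
  · rintro ⟨θ, h1, ⟨i, hi, h2⟩, ⟨j, hj, h3⟩⟩
    refine ⟨-θ, ?_, ⟨i, hi, ?_⟩, ⟨j, hj, ?_⟩⟩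
    · rw [h1]
      congr 1
      ext k
      have e : (FSR_M A).a k = -A.a k := rfl
      constructor
      · intro hk
        obtain ⟨h, h'⟩ := mem_filter.1 hk
        exact mem_filter.2 ⟨h, by linarith⟩
      · intro hk
        obtain ⟨h, h'⟩ := mem_filter.1 hk
        exact mem_filter.2 ⟨h, by linarith⟩
    · simp only [FSR_M] at h2; linarith
    · simp only [FSR_M] at h3; linarith
  · rintro ⟨θ, h1, ⟨i, hi, h2⟩, ⟨j, hj, h3⟩⟩
    refine ⟨-θ, ?_, ⟨i, hi, ?_⟩, ⟨j, hj, ?_⟩⟩
    · rw [h1]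
      congr 1
      ext k
      have e : (FSR_M A).a k = -A.a k := rfl
      constructor
      · intro hk
        obtain ⟨h, h'⟩ := mem_filter.1 hk
        exact mem_filter.2 ⟨h, by linarith⟩
      · intro hk
        obtain ⟨h, h'⟩ := mem_filter.1 hk
        exact mem_filter.2 ⟨h, by linarith⟩
    · simp only [FSR_M]; linarith
    · simp only [FSR_M]; linarith

theorem FSR_M_M (A : Arr ι) : FSR_M (FSR_M A) = A := by
  simp [FSR_M]

theorem FSR_M_LWat (A : Arr ι) (F : Finset ι) (u : ℝ × ℝ) :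
    LWat (FSR_M A) F (-u.1, u.2) ↔ RWat A F u := by
  have := FSR_M_RWat (FSR_M A) F (-u.1, u.2)
  rw [FSR_M_M] at this
  simp only [neg_neg] at this
  exact this.symm

theorem FSR_M_Cor (A : Arr ι) (F : Finset ι) (u : ℝ × ℝ) :
    Cor (FSR_M A) F (-u.1, u.2) ↔ Cor A F u := by
  unfold Cor
  rw [FSR_M_RWat, FSR_M_LWat]
  unfold Topat Botat
  rw [FSR_M_L, FSR_M_below]
  tauto

theorem FSR_M_RW (A : Arr ι) (ha : Function.Injective A.a) : RW (FSR_M A) = LW A := by
  ext F
  simp only [RW, LW, mem_filter, mem_univ, true_and]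
  constructor
  · rintro ⟨u, hu, h⟩
    refine ⟨(-u.1, u.2), ?_, ?_⟩
    · rw [← FSR_M_V A ha]; simpa using hu
    · rw [← FSR_M_RWat]; simpa using h
  · rintro ⟨u, hu, h⟩
    exact ⟨(-u.1, u.2), (FSR_M_V A ha u).2 hu, (FSR_M_RWat A F u).2 h⟩

theorem FSR_M_Faces (A : Arr ι) (ha : Function.Injective A.a) : Faces (FSR_M A) = Faces A := by
  ext F
  simp only [Faces, mem_filter, mem_univ, true_and]
  constructor
  · rintro ⟨u, hu, h⟩
    refine ⟨(-u.1, u.2), ?_, ?_⟩
    · rw [← FSR_M_V A ha]; simpa using hu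
    · rw [← FSR_M_Cor]; simpa using h
  · rintro ⟨u, hu, h⟩
    exact ⟨(-u.1, u.2), (FSR_M_V A ha u).2 hu, (FSR_M_Cor A F u).2 h⟩

end aux

theorem card_Faces_sdiff_RW {ι : Type*} [Fintype ι] (A : Arr ι) (ha : Function.Injective A.a) :
    (Faces A \ RW A).card ≤ Fintype.card ι + 1 := by
  have h1 : ∀ F ∈ Faces A \ RW A, FSR_Up A F := by
    intro F hF
    obtain ⟨h2, h3⟩ := mem_sdiff.1 hF
    by_contra hc
    exact h3 (FSR_main A ha h2 hc)
  have h2 : (Faces A \ RW A).card ≤ (range (Fintype.card ι + 1)).card := by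
    refine card_le_card_of_injOn (fun F => F.card) (fun F _ => ?_) ?_
    · have : F.card ≤ Fintype.card ι := card_le_univ F
      exact mem_coe.2 (mem_range.2 (Nat.lt_succ_of_le this))
    · intro F hF G hG h
      exact FSR_Up_eq A ha (h1 F (mem_coe.1 hF)) (h1 G (mem_coe.1 hG)) h
  rwa [card_range] at h2

theorem card_Faces_sdiff_LW {ι : Type*} [Fintype ι] (A : Arr ι) (ha : Function.Injective A.a) :
    (Faces A \ LW A).card ≤ Fintype.card ι + 1 := by
  rw [← FSR_M_RW A ha, ← FSR_M_Faces A ha]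
  exact card_Faces_sdiff_RW (FSR_M A) (FSR_M_inj A ha)

end Helper171
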