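import Pool.Agent.helper171_blk.Basic

/-! Walking along an edge of a face. -/

namespace Helper171
open Finset Classical

theorem wk_cross {ι : Type*} (A : Arr ι) (i k : ι) (h : A.a i ≠ A.a k) (x : ℝ) :
    A.val k x - A.val i x = (A.a k - A.a i) * (x - A.xr A i k) := by
  have h' : A.a i - A.a k ≠ 0 := sub_ne_zero.mpr h
  have e : A.xr A i k * (A.a i - A.a k) = A.c k - A.c i := by
    unfold Arr.xr
    field_simp
  unfold Arr.val
  linear_combination (-1 : ℝ) * e

theorem wk_right_core {ι : Type*} [Fintype ι] (A : Arr ι) (ha : Function.Injective A.a)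
    (i : ι) (s : ℝ) (F : Finset ι)
    (h1 : ∀ k ∈ F, k ≠ i → A.val k s < A.val i s ∨ (A.val k s = A.val i s ∧ A.a k < A.a i))
    (h2 : ∀ k ∉ F, k ≠ i → A.val i s < A.val k s ∨ (A.val k s = A.val i s ∧ A.a i < A.a k))
    (h3 : ∃ k ∈ F, ∃ l ∉ F, A.a l < A.a k) :
    ∃ k1, k1 ≠ i ∧ s < A.xr A i k1 ∧
      (∀ k ∈ F, k ≠ i → A.val k (A.xr A i k1) < A.val i (A.xr A i k1) ∨
        (A.val k (A.xr A i k1) = A.val i (A.xr A i k1) ∧ A.a i < A.a k)) ∧
      (∀ k ∉ F, k ≠ i → A.val i (A.xr A i k1) < A.val k (A.xr A i k1) ∨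
        (A.val k (A.xr A i k1) = A.val i (A.xr A i k1) ∧ A.a k < A.a i)) := by
  have hne : ∀ k, k ≠ i → A.a i ≠ A.a k := fun k hk h => hk (ha h).symm
  -- slopes larger than `a i` inside `F` give a crossing to the right
  have hF : ∀ k ∈ F, k ≠ i → A.a i < A.a k → s < A.xr A i k := by
    intro k hk hki hlt
    have e := wk_cross A i k (hne k hki) s
    rcases h1 k hk hki with h | ⟨_, h⟩
    · by_contra hc
      push Not at hc
      have : 0 ≤ (A.a k - A.a i) * (s - A.xr A i k) :=
        mul_nonneg (by linarith) (by linarith)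
      linarith
    · exact absurd h (not_lt.mpr hlt.le)
  have hG : ∀ k ∉ F, k ≠ i → A.a k < A.a i → s < A.xr A i k := by
    intro k hk hki hlt
    have e := wk_cross A i k (hne k hki) s
    rcases h2 k hk hki with h | ⟨_, h⟩
    · by_contra hc
      push Not at hc
      have : (A.a k - A.a i) * (s - A.xr A i k) ≤ 0 :=
        mul_nonpos_of_nonpos_of_nonneg (by linarith) (by linarith)
      linarith
    · exact absurd h (not_lt.mpr hlt.le)
  have hX : (univ.filter fun k => k ≠ i ∧ s < A.xr A i k).Nonempty := by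
    obtain ⟨k, hk, l, hl, hlk⟩ := h3
    by_contra hc
    rw [Finset.not_nonempty_iff_eq_empty, Finset.filter_eq_empty_iff] at hc
    have hc' : ∀ k, k ≠ i → ¬ s < A.xr A i k := fun k hk h => hc (Finset.mem_univ k) ⟨hk, h⟩
    have hk' : A.a k ≤ A.a i := by
      by_cases hki : k = i
      · rw [hki]
      · by_contra h
        exact hc' k hki (hF k hk hki (not_le.mp h))
    have hl' : A.a i ≤ A.a l := by
      by_cases hli : l = i
      · rw [hli]
      · by_contra h
        exact hc' l hli (hG l hl hli (not_le.mp h))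
    linarith
  obtain ⟨k1, hk1, hmin⟩ := Finset.exists_min_image _ (fun k => A.xr A i k) hX
  simp only [Finset.mem_filter, Finset.mem_univ, true_and] at hk1 hmin
  refine ⟨k1, hk1.1, hk1.2, ?_, ?_⟩
  · intro k hk hki
    have e := wk_cross A i k (hne k hki) (A.xr A i k1)
    have es := wk_cross A i k (hne k hki) s
    rcases lt_or_gt_of_ne (hne k hki) with hlt | hgt
    · have h4 := hmin k ⟨hki, hF k hk hki hlt⟩
      have : (A.a k - A.a i) * (A.xr A i k1 - A.xr A i k) ≤ 0 :=
        mul_nonpos_of_nonneg_of_nonpos (by linarith) (by linarith)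
      rcases lt_or_eq_of_le (show A.val k (A.xr A i k1) ≤ A.val i (A.xr A i k1) by linarith)
        with h | h
      · exact Or.inl h
      · exact Or.inr ⟨h, hlt⟩
    · left
      have h5 : A.val k s ≤ A.val i s := by
        rcases h1 k hk hki with h | ⟨h, _⟩
        · exact h.le
        · exact h.le
      have h6 : 0 < (A.a i - A.a k) * (A.xr A i k1 - s) :=
        mul_pos (by linarith) (by linarith [hk1.2])
      nlinarith
  · intro k hk hki
    have e := wk_cross A i k (hne k hki) (A.xr A i k1)
    have es := wk_cross A i k (hne k hki) s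
    rcases lt_or_gt_of_ne (hne k hki) with hlt | hgt
    · left
      have h5 : A.val i s ≤ A.val k s := by
        rcases h2 k hk hki with h | ⟨h, _⟩
        · exact h.le
        · exact h.ge
      have h6 : 0 < (A.a k - A.a i) * (A.xr A i k1 - s) :=
        mul_pos (by linarith) (by linarith [hk1.2])
      nlinarith
    · have h4 := hmin k ⟨hki, hG k hk hki hgt⟩
      have : 0 ≤ (A.a k - A.a i) * (A.xr A i k1 - A.xr A i k) :=
        mul_nonneg_of_nonpos_of_nonpos (by linarith) (by linarith)
      rcases lt_or_eq_of_le (show A.val i (A.xr A i k1) ≤ A.val k (A.xr A i k1) by linarith)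
        with h | h
      · exact Or.inl h
      · exact Or.inr ⟨h.symm, hgt⟩

theorem walk_right {ι : Type*} [Fintype ι] (A : Arr ι) (ha : Function.Injective A.a)
    (i : ι) (s : ℝ) (F : Finset ι)
    (h1 : ∀ k ∈ F, k ≠ i → A.val k s < A.val i s ∨ (A.val k s = A.val i s ∧ A.a k < A.a i))
    (h2 : ∀ k ∉ F, k ≠ i → A.val i s < A.val k s ∨ (A.val k s = A.val i s ∧ A.a i < A.a k))
    (h3 : ∃ k ∈ F, ∃ l ∉ F, A.a l < A.a k) :
    ∃ u ∈ A.V, s < u.1 ∧ A.val i u.1 = u.2 ∧ Cor A F u := by
  obtain ⟨k1, hk1i, hk1s, g1, g2⟩ := wk_right_core A ha i s F h1 h2 h3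
  obtain ⟨t, ht⟩ : ∃ t, t = A.xr A i k1 := ⟨_, rfl⟩
  rw [← ht] at hk1s g1 g2
  have mL : ∀ k, k ∈ A.L (t, A.val i t) ↔ A.val k t = A.val i t := by
    intro k
    rw [mem_L]
  have mB : ∀ k, k ∈ A.below (t, A.val i t) ↔ A.val k t < A.val i t := by
    intro k
    simp [Arr.below]
  refine ⟨(t, A.val i t), ?_, hk1s, rfl, ?_⟩
  · unfold Arr.V
    rw [Finset.mem_image]
    refine ⟨(i, k1), ?_, ?_⟩
    · simp only [Finset.mem_filter, Finset.mem_univ, true_and]
      exact fun h => hk1i h.symm
    · rw [ht]
  · by_cases hi : i ∈ F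
    · have hFm : ∀ k, k ∈ F ↔ A.val k t < A.val i t ∨ (A.val k t = A.val i t ∧ A.a i ≤ A.a k) := by
        intro k
        by_cases hki : k = i
        · subst hki
          simp [hi]
        · constructor
          · intro hk
            rcases g1 k hk hki with h | ⟨h, h'⟩
            · exact Or.inl h
            · exact Or.inr ⟨h, h'.le⟩
          · intro h
            by_contra hk
            rcases g2 k hk hki with h' | ⟨h', h''⟩
            · rcases h with h | ⟨h, _⟩ <;> linarith
            · rcases h with h | ⟨_, h⟩ <;> linarith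
      by_cases hall : ∀ k, A.val k t = A.val i t → A.a i ≤ A.a k
      · right; right; left
        unfold Topat
        ext k
        rw [hFm, Finset.mem_union, mB, mL]
        constructor
        · rintro (h | ⟨h, _⟩)
          · exact Or.inl h
          · exact Or.inr h
        · rintro (h | h)
          · exact Or.inl h
          · exact Or.inr ⟨h, hall k h⟩
      · push Not at hall
        obtain ⟨k2, hk2, hk2'⟩ := hall
        have hne : (univ.filter fun k => A.val k t = A.val i t ∧ A.a k < A.a i).Nonempty :=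
          ⟨k2, by simp [hk2, hk2']⟩
        obtain ⟨k3, hk3, hmax⟩ := Finset.exists_max_image _ (fun k => A.a k) hne
        simp only [Finset.mem_filter, Finset.mem_univ, true_and] at hk3 hmax
        right; left
        refine ⟨A.a k3, ?_, ⟨i, ?_, hk3.2⟩, ⟨k3, ?_, le_rfl⟩⟩
        · ext k
          rw [hFm, Finset.mem_union, mB, Finset.mem_filter, mL]
          constructor
          · rintro (h | ⟨h, h'⟩)
            · exact Or.inl h
            · exact Or.inr ⟨h, lt_of_lt_of_le hk3.2 h'⟩
          · rintro (h | ⟨h, h'⟩)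
            · exact Or.inl h
            · refine Or.inr ⟨h, ?_⟩
              by_contra hc
              have := hmax k ⟨h, not_le.mp hc⟩
              linarith
        · rw [mL]
        · rw [mL]; exact hk3.1
    · have hFm : ∀ k, k ∈ F ↔ A.val k t < A.val i t ∨ (A.val k t = A.val i t ∧ A.a i < A.a k) := by
        intro k
        by_cases hki : k = i
        · subst hki
          simp [hi]
        · constructor
          · intro hk
            exact g1 k hk hki
          · intro h
            by_contra hk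
            rcases g2 k hk hki with h' | ⟨h', h''⟩
            · rcases h with h | ⟨h, _⟩ <;> linarith
            · rcases h with h | ⟨_, h⟩ <;> linarith
      by_cases hall : ∀ k, A.val k t = A.val i t → A.a k ≤ A.a i
      · right; right; right
        unfold Botat
        ext k
        rw [hFm, mB]
        constructor
        · rintro (h | ⟨h, h'⟩)
          · exact h
          · exact absurd (hall k h) (not_le.mpr h')
        · intro h
          exact Or.inl h
      · push Not at hall
        obtain ⟨k2, hk2, hk2'⟩ := hall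
        right; left
        refine ⟨A.a i, ?_, ⟨k2, ?_, hk2'⟩, ⟨i, ?_, le_rfl⟩⟩
        · ext k
          rw [hFm, Finset.mem_union, mB, Finset.mem_filter, mL]
        · rw [mL]; exact hk2
        · rw [mL]

theorem walk_left {ι : Type*} [Fintype ι] (A : Arr ι) (ha : Function.Injective A.a)
    (i : ι) (s : ℝ) (F : Finset ι)
    (h1 : ∀ k ∈ F, k ≠ i → A.val k s < A.val i s ∨ (A.val k s = A.val i s ∧ A.a i < A.a k))
    (h2 : ∀ k ∉ F, k ≠ i → A.val i s < A.val k s ∨ (A.val k s = A.val i s ∧ A.a k < A.a i))
    (h3 : ∃ k ∈ F, ∃ l ∉ F, A.a k < A.a l) :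
    ∃ u ∈ A.V, u.1 < s ∧ A.val i u.1 = u.2 ∧ Cor A F u := by
  obtain ⟨B, hB⟩ : ∃ B : Arr ι, B = ⟨fun k => - A.a k, A.c⟩ := ⟨_, rfl⟩
  have ea : ∀ k, B.a k = - A.a k := fun k => by rw [hB]
  have ev : ∀ k x, B.val k x = A.val k (-x) := fun k x => by
    rw [hB]; unfold Arr.val; simp
  have hb : Function.Injective B.a := fun x y h => ha (by rw [ea, ea] at h; linarith)
  have eL : ∀ x y, B.L (x, y) = A.L (-x, y) := by
    intro x y
    ext k
    rw [mem_L, mem_L, ev]
  have eB : ∀ x y, B.below (x, y) = A.below (-x, y) := by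
    intro x y
    ext k
    simp [Arr.below, ev]
  obtain ⟨⟨x, y⟩, hu, hs, hv, hc⟩ := walk_right B hb i (-s) F
    (by
      intro k hk hki
      rw [ev, ev, neg_neg, ea, ea]
      rcases h1 k hk hki with h | ⟨h, h'⟩
      · exact Or.inl h
      · exact Or.inr ⟨h, by linarith⟩)
    (by
      intro k hk hki
      rw [ev, ev, neg_neg, ea, ea]
      rcases h2 k hk hki with h | ⟨h, h'⟩
      · exact Or.inl h
      · exact Or.inr ⟨h, by linarith⟩)
    (by
      obtain ⟨k, hk, l, hl, h⟩ := h3
      exact ⟨k, hk, l, hl, by rw [ea, ea]; linarith⟩)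
  refine ⟨(-x, y), ?_, ?_, ?_, ?_⟩
  · rw [mem_V A ha]
    rw [mem_V B hb] at hu
    unfold Arr.b at hu ⊢
    rw [eL] at hu
    exact hu
  · simp only at hs ⊢
    linarith
  · simp only at hv ⊢
    rw [← ev]; exact hv
  · rcases hc with h | h | h | h
    · right; left
      obtain ⟨θ, e, ⟨k, hk, hk'⟩, l, hl, hl'⟩ := h
      rw [eL] at hk hl
      rw [ea] at hk' hl'
      refine ⟨-θ, ?_, ⟨k, hk, by linarith⟩, l, hl, by linarith⟩
      rw [e, eB, eL]
      ext m
      simp only [Finset.mem_union, Finset.mem_filter, ea]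
      constructor
      · rintro (h | ⟨h, h'⟩)
        · exact Or.inl h
        · exact Or.inr ⟨h, by linarith⟩
      · rintro (h | ⟨h, h'⟩)
        · exact Or.inl h
        · exact Or.inr ⟨h, by linarith⟩
    · left
      obtain ⟨θ, e, ⟨k, hk, hk'⟩, l, hl, hl'⟩ := h
      rw [eL] at hk hl
      rw [ea] at hk' hl'
      refine ⟨-θ, ?_, ⟨k, hk, by linarith⟩, l, hl, by linarith⟩
      rw [e, eB, eL]
      ext m
      simp only [Finset.mem_union, Finset.mem_filter, ea]
      constructor
      · rintro (h | ⟨h, h'⟩)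
        · exact Or.inl h
        · exact Or.inr ⟨h, by linarith⟩
      · rintro (h | ⟨h, h'⟩)
        · exact Or.inl h
        · exact Or.inr ⟨h, by linarith⟩
    · right; right; left
      unfold Topat at h ⊢
      rw [h, eB, eL]
    · right; right; right
      unfold Botat at h ⊢
      rw [h, eB]

end Helper171
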