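import Pool.Agent.helper171_blk.Basic
import Pool.Agent.helper171_blk.JA
import Pool.Agent.helper171_blk.JC

/-! Bounded faces have side corners. -/

namespace Helper171
open Finset Classical

/-! ### auxiliary lemmas -/

theorem JD_star {ι : Type*} [Fintype ι] (A : Arr ι) (ha : Function.Injective A.a) (F : Finset ι)
    (S : Finset (ℝ × ℝ)) (hS : ∀ u ∈ S, u ∈ A.V ∧ Cor A F u) : S.card ≤ side A F + 2 := by
  have h1 : S ⊆ ((S.filter fun u => RWat A F u) ∪ (S.filter fun u => LWat A F u)) ∪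
      ((A.V.filter fun u => Topat A F u) ∪ (A.V.filter fun u => Botat A F u)) := by
    intro u hu
    obtain ⟨hV, h | h | h | h⟩ := hS u hu
    · exact Finset.mem_union_left _ (Finset.mem_union_left _ (Finset.mem_filter.2 ⟨hu, h⟩))
    · exact Finset.mem_union_left _ (Finset.mem_union_right _ (Finset.mem_filter.2 ⟨hu, h⟩))
    · exact Finset.mem_union_right _ (Finset.mem_union_left _ (Finset.mem_filter.2 ⟨hV, h⟩))
    · exact Finset.mem_union_right _ (Finset.mem_union_right _ (Finset.mem_filter.2 ⟨hV, h⟩))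
  have h2 := Finset.card_le_card h1
  have h3 := Finset.card_union_le ((S.filter fun u => RWat A F u) ∪ (S.filter fun u => LWat A F u))
    ((A.V.filter fun u => Topat A F u) ∪ (A.V.filter fun u => Botat A F u))
  have h4 := Finset.card_union_le (S.filter fun u => RWat A F u) (S.filter fun u => LWat A F u)
  have h5 := Finset.card_union_le (A.V.filter fun u => Topat A F u) (A.V.filter fun u => Botat A F u)
  have h6 : (S.filter fun u => RWat A F u).card ≤ 1 := by
    rw [Finset.card_le_one]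
    intro a ha1 b hb
    exact RWat_unique A ha (Finset.mem_filter.1 ha1).2 (Finset.mem_filter.1 hb).2
  have h7 : (S.filter fun u => LWat A F u).card ≤ 1 := by
    rw [Finset.card_le_one]
    intro a ha1 b hb
    exact LWat_unique A ha (Finset.mem_filter.1 ha1).2 (Finset.mem_filter.1 hb).2
  unfold side
  omega

theorem JD_mem_below {ι : Type*} [Fintype ι] (A : Arr ι) (v : ℝ × ℝ) (i : ι) :
    i ∈ A.below v ↔ A.val i v.1 < v.2 := by
  unfold Arr.below
  simp

theorem JD_LW {ι : Type*} [Fintype ι] (A : Arr ι) {F : Finset ι} (hl : F ∈ LW A) :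
    ∃ k ∈ F, ∃ l ∉ F, A.a l < A.a k := by
  obtain ⟨v, _, θ, hF, ⟨k, hk, hk2⟩, ⟨l, hl1, hl2⟩⟩ := (Finset.mem_filter.1 hl).2
  refine ⟨k, ?_, l, ?_, lt_of_le_of_lt hl2 hk2⟩
  · rw [hF]
    exact Finset.mem_union_right _ (Finset.mem_filter.2 ⟨hk, hk2⟩)
  · rw [hF, Finset.mem_union, JD_mem_below, Finset.mem_filter]
    rintro (h | h)
    · rw [mem_L] at hl1
      linarith
    · linarith [h.2]

theorem JD_RW {ι : Type*} [Fintype ι] (A : Arr ι) {F : Finset ι} (hl : F ∈ RW A) :
    ∃ k ∈ F, ∃ l ∉ F, A.a k < A.a l := by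
  obtain ⟨v, _, θ, hF, ⟨k, hk, hk2⟩, ⟨l, hl1, hl2⟩⟩ := (Finset.mem_filter.1 hl).2
  refine ⟨k, ?_, l, ?_, lt_of_lt_of_le hk2 hl2⟩
  · rw [hF]
    exact Finset.mem_union_right _ (Finset.mem_filter.2 ⟨hk, hk2⟩)
  · rw [hF, Finset.mem_union, JD_mem_below, Finset.mem_filter]
    rintro (h | h)
    · rw [mem_L] at hl1
      linarith
    · linarith [h.2]

/-- two distinct lines do not meet at two abscissas -/
theorem JD_two {ι : Type*} (A : Arr ι) (ha : Function.Injective A.a) {i j : ι} {s t : ℝ}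
    (hst : s < t) (h1 : A.val i s = A.val j s) (h2 : A.val i t = A.val j t) : i = j := by
  apply ha
  unfold Arr.val at h1 h2
  have h3 : (A.a i - A.a j) * (t - s) = 0 := by linear_combination h2 - h1
  rcases mul_eq_zero.1 h3 with h | h
  · linarith
  · linarith

theorem one_le_side {ι : Type*} [Fintype ι] (A : Arr ι) (ha : Function.Injective A.a)
    {F : Finset ι} (hr : F ∈ RW A) (hl : F ∈ LW A) : 1 ≤ side A F := by
  have h3 := JD_LW A hl
  obtain ⟨v, hv, θ, hF, ⟨k, hk, hk2⟩, ⟨l, hl1, hl2⟩⟩ := (Finset.mem_filter.1 hr).2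
  have hRW : RWat A F v := ⟨θ, hF, ⟨k, hk, hk2⟩, ⟨l, hl1, hl2⟩⟩
  -- the last line of `F`
  obtain ⟨i, hi, himax⟩ := Finset.exists_max_image ((A.L v).filter fun i => A.a i < θ) A.a
    ⟨k, Finset.mem_filter.2 ⟨hk, hk2⟩⟩
  obtain ⟨j, hj, hjmin⟩ := Finset.exists_min_image ((A.L v).filter fun i => θ ≤ A.a i) A.a
    ⟨l, Finset.mem_filter.2 ⟨hl1, hl2⟩⟩
  obtain ⟨hiL, hiθ⟩ := Finset.mem_filter.1 hi
  obtain ⟨hjL, hjθ⟩ := Finset.mem_filter.1 hj
  have hiv := (mem_L A v i).1 hiL
  have hjv := (mem_L A v j).1 hjL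
  have hmem : ∀ q, q ∈ F ↔ A.val q v.1 < v.2 ∨ (A.val q v.1 = v.2 ∧ A.a q < θ) := by
    intro q
    rw [hF, Finset.mem_union, JD_mem_below, Finset.mem_filter, mem_L]
  obtain ⟨u, huV, hu1, hui, huC⟩ := walk_right A ha i v.1 F
    (fun q hq hqi => by
      rcases (hmem q).1 hq with h | ⟨h, h'⟩
      · left; rw [hiv]; exact h
      · right
        refine ⟨by rw [h, hiv], lt_of_le_of_ne (himax q (Finset.mem_filter.2 ⟨(mem_L A v q).2 h, h'⟩))
          fun e => hqi (ha e)⟩)
    (fun q hq hqi => by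
      rw [hmem] at hq
      push Not at hq
      rcases eq_or_lt_of_le hq.1 with h | h
      · right
        exact ⟨by rw [← h, hiv], lt_of_lt_of_le hiθ (hq.2 h.symm)⟩
      · left; rw [hiv]; exact h) h3
  obtain ⟨u', huV', hu1', hui', huC'⟩ := walk_right A ha j v.1 F
    (fun q hq hqi => by
      rcases (hmem q).1 hq with h | ⟨h, h'⟩
      · left; rw [hjv]; exact h
      · right
        exact ⟨by rw [h, hjv], lt_of_lt_of_le h' hjθ⟩)
    (fun q hq hqi => by
      rw [hmem] at hq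
      push Not at hq
      rcases eq_or_lt_of_le hq.1 with h | h
      · right
        refine ⟨by rw [← h, hjv], lt_of_le_of_ne (hjmin q (Finset.mem_filter.2
          ⟨(mem_L A v q).2 h.symm, hq.2 h.symm⟩)) fun e => hqi (ha e).symm⟩
      · left; rw [hjv]; exact h) h3
  have huu : u ≠ u' := by
    rintro rfl
    have := JD_two A ha hu1 (hiv.trans hjv.symm) (hui.trans hui'.symm)
    rw [this] at hiθ
    linarith
  have hvu : v ≠ u := by rintro rfl; exact lt_irrefl _ hu1
  have hvu' : v ≠ u' := by rintro rfl; exact lt_irrefl _ hu1'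
  have h := JD_star A ha F {v, u, u'} (by
    intro x hx
    simp only [Finset.mem_insert, Finset.mem_singleton] at hx
    rcases hx with rfl | rfl | rfl
    · exact ⟨hv, Or.inl hRW⟩
    · exact ⟨huV, huC⟩
    · exact ⟨huV', huC'⟩)
  rw [Finset.card_insert_of_notMem, Finset.card_insert_of_notMem, Finset.card_singleton] at h
  · omega
  · simpa using huu
  · simp [hvu, hvu']

/-- height over the red line -/
theorem JD_ht {ι κ : Type*} [Fintype ι] [Fintype κ] (C : Conf ι κ) (i : ι) (j : κ) (s : ℝ) :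
    C.A.val i s - C.R.val j s = (C.A.a i - C.R.a j) * (s - C.A.xr C.R i j) := by
  have h : C.A.a i - C.R.a j ≠ 0 := sub_ne_zero.2 (C.har i j)
  unfold Arr.val Arr.xr
  field_simp
  ring

theorem two_le_side {ι κ : Type*} [Fintype ι] [Fintype κ] (C : Conf ι κ) {F : Finset ι}
    (hr : F ∈ RW C.A) (hl : F ∈ LW C.A) (hP : 1 ≤ PF C F) : 2 ≤ side C.A F := by
  have hL := JD_LW C.A hl
  have hL' := hL
  have hR := JD_RW C.A hr
  unfold PF at hP
  obtain ⟨v, hv⟩ := Finset.card_pos.1 hP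
  obtain ⟨hvV, ⟨w, hwV, hρ, hvw, hno⟩, hface⟩ := Finset.mem_filter.1 hv
  obtain ⟨j, hj⟩ : ∃ j, C.ρ v = j := ⟨_, rfl⟩
  rw [hj] at hno hρ
  have hrv : C.R.val j v.1 = v.2 := by rw [← hj]; exact C.hρ v hvV
  have hrw : C.R.val j w.1 = w.2 := by rw [← hρ]; exact C.hρ w hwV
  -- position of the crossing points
  have hz : ∀ i, C.A.xr C.R i j ≤ v.1 ∨ w.1 ≤ C.A.xr C.R i j := by
    intro i
    by_contra hc
    push Not at hc
    refine hno (C.A.xr C.R i j, C.R.val j (C.A.xr C.R i j)) ?_ hc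
    rw [mem_Cross C.A C.R C.har]
    refine ⟨rfl, i, (mem_L _ _ _).2 ?_⟩
    have := JD_ht C i j (C.A.xr C.R i j)
    rw [sub_self, mul_zero, sub_eq_zero] at this
    exact this
  have hm : ∀ i, C.A.a i - C.R.a j ≠ 0 := fun i => sub_ne_zero.2 (C.har i j)
  have hmemv : ∀ i, i ∈ F ↔ C.A.val i v.1 < v.2 ∨ (C.A.val i v.1 = v.2 ∧ C.A.a i < C.R.a j) := by
    intro i
    rw [← hface]
    unfold face
    rw [Finset.mem_union, JD_mem_below, Finset.mem_filter, mem_L, hj]
  -- the lines of `F`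
  have hF : ∀ i, i ∈ F ↔ (C.A.xr C.R i j ≤ v.1 ∧ C.A.a i - C.R.a j < 0) ∨
      (w.1 ≤ C.A.xr C.R i j ∧ 0 < C.A.a i - C.R.a j) := by
    intro i
    rw [hmemv]
    have h1 := JD_ht C i j v.1
    rw [hrv] at h1
    have e1 : C.A.val i v.1 < v.2 ↔ (C.A.a i - C.R.a j) * (v.1 - C.A.xr C.R i j) < 0 := by
      rw [← h1, sub_neg]
    have e2 : C.A.val i v.1 = v.2 ↔ (C.A.a i - C.R.a j) * (v.1 - C.A.xr C.R i j) = 0 := by
      rw [← h1, sub_eq_zero]
    rw [e1, e2, mul_eq_zero, or_iff_right (hm i), mul_neg_iff]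
    rcases lt_or_gt_of_ne (hm i) with h | h <;> rcases hz i with h' | h'
    · rcases eq_or_lt_of_le h' with h'' | h''
      · constructor
        · intro _; left; exact ⟨h', h⟩
        · intro _; right; exact ⟨by linarith, by linarith⟩
      · constructor
        · intro _; left; exact ⟨h', h⟩
        · intro _; left; right; exact ⟨h, by linarith⟩
    · constructor
      · rintro ((⟨h1, _⟩ | ⟨_, h2⟩) | ⟨h3, _⟩)
        · linarith
        · linarith
        · linarith
      · rintro (⟨h1, _⟩ | ⟨_, h2⟩)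
        · linarith
        · linarith
    · constructor
      · rintro ((⟨_, h2⟩ | ⟨h1, _⟩) | ⟨_, h3⟩)
        · linarith
        · linarith
        · linarith
      · rintro (⟨_, h2⟩ | ⟨h1, _⟩)
        · linarith
        · linarith
    · constructor
      · intro _; right; exact ⟨h', h⟩
      · intro _; left; left; exact ⟨h, by linarith⟩
  have hFn : ∀ i, i ∉ F ↔ (C.A.xr C.R i j ≤ v.1 ∧ 0 < C.A.a i - C.R.a j) ∨
      (w.1 ≤ C.A.xr C.R i j ∧ C.A.a i - C.R.a j < 0) := by
    intro i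
    rw [hF]
    rcases lt_or_gt_of_ne (hm i) with h | h <;> rcases hz i with h' | h'
    · constructor
      · intro hh; exact absurd (Or.inl ⟨h', h⟩) hh
      · rintro (⟨_, h2⟩ | ⟨h1, _⟩)
        · linarith
        · linarith
    · constructor
      · intro _; right; exact ⟨h', h⟩
      · rintro _ (⟨h1, _⟩ | ⟨_, h2⟩)
        · linarith
        · linarith
    · constructor
      · intro _; left; exact ⟨h', h⟩
      · rintro _ (⟨_, h2⟩ | ⟨h1, _⟩)
        · linarith
        · linarith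
    · constructor
      · intro hh; exact absurd (Or.inr ⟨h', h⟩) hh
      · rintro (⟨h1, _⟩ | ⟨_, h2⟩)
        · linarith
        · linarith
  -- membership at `w`
  have hFw : F = C.A.below w ∪ (C.A.L w).filter (fun i => C.R.a j < C.A.a i) := by
    ext i
    rw [hF, Finset.mem_union, JD_mem_below, Finset.mem_filter, mem_L]
    have h1 := JD_ht C i j w.1
    rw [hrw] at h1
    have e1 : C.A.val i w.1 < w.2 ↔ (C.A.a i - C.R.a j) * (w.1 - C.A.xr C.R i j) < 0 := by
      rw [← h1, sub_neg]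
    have e2 : C.A.val i w.1 = w.2 ↔ (C.A.a i - C.R.a j) * (w.1 - C.A.xr C.R i j) = 0 := by
      rw [← h1, sub_eq_zero]
    rw [e1, e2, mul_eq_zero, or_iff_right (hm i), mul_neg_iff]
    rcases lt_or_gt_of_ne (hm i) with h | h <;> rcases hz i with h' | h'
    · constructor
      · intro _; left; right; exact ⟨h, by linarith⟩
      · intro _; left; exact ⟨h', h⟩
    · constructor
      · rintro (⟨h1, _⟩ | ⟨_, h2⟩)
        · linarith
        · linarith
      · rintro ((⟨h1, _⟩ | ⟨_, h2⟩) | ⟨h3, _⟩)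
        · linarith
        · linarith
        · linarith
    · constructor
      · rintro (⟨_, h2⟩ | ⟨h1, _⟩)
        · linarith
        · linarith
      · rintro ((⟨_, h2⟩ | ⟨h1, _⟩) | ⟨h3, _⟩)
        · linarith
        · linarith
        · linarith
    · rcases eq_or_lt_of_le h' with h'' | h''
      · constructor
        · intro _; right; exact ⟨by linarith, by linarith⟩
        · intro _; right; exact ⟨h', h⟩
      · constructor
        · intro _; left; left; exact ⟨h, by linarith⟩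
        · intro _; right; exact ⟨h', h⟩
  have hFv : F = C.A.below v ∪ (C.A.L v).filter (fun i => C.A.a i < C.R.a j) := by
    rw [← hface, ← hj]
    rfl
  have hCv : Cor C.A F v := by
    by_cases h1 : ∃ i ∈ C.A.L v, C.A.a i < C.R.a j
    · by_cases h2 : ∃ i ∈ C.A.L v, C.R.a j ≤ C.A.a i
      · exact Or.inl ⟨C.R.a j, hFv, h1, h2⟩
      · right; right; left
        unfold Topat
        rw [hFv]
        congr 1
        refine Finset.filter_true_of_mem fun i hi => ?_
        by_contra hc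
        exact h2 ⟨i, hi, not_lt.1 hc⟩
    · right; right; right
      unfold Botat
      conv_lhs => rw [hFv]
      rw [Finset.filter_false_of_mem (fun i hi hc => h1 ⟨i, hi, hc⟩), Finset.union_empty]
  have hCw : Cor C.A F w := by
    by_cases h1 : ∃ i ∈ C.A.L w, C.R.a j < C.A.a i
    · by_cases h2 : ∃ i ∈ C.A.L w, C.A.a i ≤ C.R.a j
      · exact Or.inr (Or.inl ⟨C.R.a j, hFw, h1, h2⟩)
      · right; right; left
        unfold Topat
        rw [hFw]
        congr 1
        refine Finset.filter_true_of_mem fun i hi => ?_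
        by_contra hc
        exact h2 ⟨i, hi, not_lt.1 hc⟩
    · right; right; right
      unfold Botat
      conv_lhs => rw [hFw]
      rw [Finset.filter_false_of_mem (fun i hi hc => h1 ⟨i, hi, hc⟩), Finset.union_empty]
  -- a generic abscissa
  obtain ⟨s1, hs1, hgen⟩ : ∃ s1 ∈ Set.Ioo v.1 w.1, ∀ i k, i ≠ k → C.A.val i s1 ≠ C.A.val k s1 := by
    have hfin : ((Set.Ioo v.1 w.1) \ ((univ : Finset (ι × ι)).image fun p =>
      C.A.xr C.A p.1 p.2 : Finset ℝ)).Nonempty :=
      ((Set.Ioo_infinite hvw).sdiff (Finset.finite_toSet _)).nonempty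
    obtain ⟨s1, h1, h2⟩ := hfin
    refine ⟨s1, h1, fun i k hik he => h2 ?_⟩
    rw [Finset.mem_coe, Finset.mem_image]
    refine ⟨(i, k), Finset.mem_univ _, ?_⟩
    have hak : C.A.a i - C.A.a k ≠ 0 := sub_ne_zero.2 fun e => hik (C.ha e)
    unfold Arr.val at he
    unfold Arr.xr
    simp only
    rw [div_eq_iff hak]
    linear_combination -he
  -- heights at `s1`
  have hlow : ∀ i ∈ F, C.A.val i s1 < C.R.val j s1 := by
    intro i hi
    have h1 := JD_ht C i j s1
    rcases (hF i).1 hi with ⟨h2, h3⟩ | ⟨h2, h3⟩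
    · nlinarith [mul_pos_of_neg_of_neg h3 (by linarith [hs1.1] : C.A.xr C.R i j - s1 < 0)]
    · nlinarith [mul_pos h3 (by linarith [hs1.2] : 0 < C.A.xr C.R i j - s1)]
  have hhigh : ∀ i ∉ F, C.R.val j s1 < C.A.val i s1 := by
    intro i hi
    have h1 := JD_ht C i j s1
    rcases (hFn i).1 hi with ⟨h2, h3⟩ | ⟨h2, h3⟩
    · nlinarith [mul_pos h3 (by linarith [hs1.1] : 0 < s1 - C.A.xr C.R i j)]
    · nlinarith [mul_pos_of_neg_of_neg h3 (by linarith [hs1.2] : s1 - C.A.xr C.R i j < 0)]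
  -- a corner below
  obtain ⟨u, huV, huC, hu⟩ : ∃ u ∈ C.A.V, Cor C.A F u ∧ u.2 < C.R.val j u.1 := by
    obtain ⟨k0, hk0, _⟩ := hL
    obtain ⟨i, hi, himax⟩ := Finset.exists_max_image F (fun i => C.A.val i s1) ⟨k0, hk0⟩
    have g1 : ∀ k ∈ F, k ≠ i → C.A.val k s1 < C.A.val i s1 := fun k hk hki =>
      lt_of_le_of_ne (himax k hk) (hgen k i hki)
    have g2 : ∀ k ∉ F, k ≠ i → C.A.val i s1 < C.A.val k s1 := fun k hk hki =>
      (hlow i hi).trans (hhigh k hk)
    rcases (hF i).1 hi with ⟨h2, h3⟩ | ⟨h2, h3⟩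
    · obtain ⟨u, huV, hu1, hui, huC⟩ := walk_right C.A C.ha i s1 F (fun k hk hki => Or.inl (g1 k hk hki))
        (fun k hk hki => Or.inl (g2 k hk hki)) hL'
      refine ⟨u, huV, huC, ?_⟩
      have h1 := JD_ht C i j u.1
      rw [← hui]
      nlinarith [mul_pos_of_neg_of_neg h3 (by linarith [hs1.1] : C.A.xr C.R i j - u.1 < 0)]
    · obtain ⟨u, huV, hu1, hui, huC⟩ := walk_left C.A C.ha i s1 F (fun k hk hki => Or.inl (g1 k hk hki))
        (fun k hk hki => Or.inl (g2 k hk hki)) hR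
      refine ⟨u, huV, huC, ?_⟩
      have h1 := JD_ht C i j u.1
      rw [← hui]
      nlinarith [mul_pos h3 (by linarith [hs1.2] : 0 < C.A.xr C.R i j - u.1)]
  -- a corner above
  obtain ⟨u', huV', huC', hu'⟩ : ∃ u ∈ C.A.V, Cor C.A F u ∧ C.R.val j u.1 < u.2 := by
    obtain ⟨_, _, l0, hl0, _⟩ := hL
    obtain ⟨i, hi, himin⟩ := Finset.exists_min_image Fᶜ (fun i => C.A.val i s1)
      ⟨l0, Finset.mem_compl.2 hl0⟩
    rw [Finset.mem_compl] at hi
    have g1 : ∀ k ∈ F, k ≠ i → C.A.val k s1 < C.A.val i s1 := fun k hk hki =>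
      (hlow k hk).trans (hhigh i hi)
    have g2 : ∀ k ∉ F, k ≠ i → C.A.val i s1 < C.A.val k s1 := fun k hk hki =>
      lt_of_le_of_ne (himin k (Finset.mem_compl.2 hk)) (hgen i k hki.symm)
    rcases (hFn i).1 hi with ⟨h2, h3⟩ | ⟨h2, h3⟩
    · obtain ⟨u, huV, hu1, hui, huC⟩ := walk_right C.A C.ha i s1 F (fun k hk hki => Or.inl (g1 k hk hki))
        (fun k hk hki => Or.inl (g2 k hk hki)) hL'
      refine ⟨u, huV, huC, ?_⟩
      have h1 := JD_ht C i j u.1
      rw [← hui]
      nlinarith [mul_pos h3 (by linarith [hs1.1] : 0 < u.1 - C.A.xr C.R i j)]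
    · obtain ⟨u, huV, hu1, hui, huC⟩ := walk_left C.A C.ha i s1 F (fun k hk hki => Or.inl (g1 k hk hki))
        (fun k hk hki => Or.inl (g2 k hk hki)) hR
      refine ⟨u, huV, huC, ?_⟩
      have h1 := JD_ht C i j u.1
      rw [← hui]
      nlinarith [mul_pos_of_neg_of_neg h3 (by linarith [hs1.2] : u.1 - C.A.xr C.R i j < 0)]
  have n1 : v ≠ w := by rintro rfl; exact lt_irrefl _ hvw
  have n2 : v ≠ u := by rintro rfl; linarith
  have n3 : v ≠ u' := by rintro rfl; linarith
  have n4 : w ≠ u := by rintro rfl; linarith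
  have n5 : w ≠ u' := by rintro rfl; linarith
  have n6 : u ≠ u' := by rintro rfl; linarith
  have h := JD_star C.A C.ha F {v, w, u, u'} (by
    intro x hx
    simp only [Finset.mem_insert, Finset.mem_singleton] at hx
    rcases hx with rfl | rfl | rfl | rfl
    · exact ⟨hvV, hCv⟩
    · exact ⟨hwV, hCw⟩
    · exact ⟨huV, huC⟩
    · exact ⟨huV', huC'⟩)
  rw [Finset.card_insert_of_notMem, Finset.card_insert_of_notMem, Finset.card_insert_of_notMem,
    Finset.card_singleton] at h
  · omega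
  · simpa using n6
  · simp [n4, n5]
  · simp [n1, n2, n3]

end Helper171
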