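import Pool.Agent.helper171_blk.Basic
import Pool.Agent.helper171_blk.JA

/-! Two corners for every chord. -/

namespace Helper171
open Finset Classical

theorem je_sign {ι κ : Type*} [Fintype ι] [Fintype κ] (C : Conf ι κ) (i : ι) (j : κ) (s : ℝ) :
    C.A.val i s - C.R.val j s = (C.A.a i - C.R.a j) * (s - C.A.xr C.R i j) := by
  have h : C.A.a i - C.R.a j ≠ 0 := sub_ne_zero.2 (C.har i j)
  unfold Arr.val Arr.xr
  field_simp
  ring

/-- the set of lines below a point where the chord leaves to the right equals the set at the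
other end -/
theorem je_iff {ι κ : Type*} [Fintype ι] [Fintype κ] (C : Conf ι κ) (j : κ) (i : ι) {s t : ℝ}
    (hst : s < t) (hno : ¬ (s < C.A.xr C.R i j ∧ C.A.xr C.R i j < t)) :
    (C.A.val i s < C.R.val j s ∨ (C.A.val i s = C.R.val j s ∧ C.A.a i < C.R.a j)) ↔
    (C.A.val i t < C.R.val j t ∨ (C.A.val i t = C.R.val j t ∧ C.R.a j < C.A.a i)) := by
  have h1 := je_sign C i j s
  have h2 := je_sign C i j t
  set x := C.A.xr C.R i j with hx
  set α := C.A.a i with hα
  set r := C.R.a j with hr
  set A := C.A.val i s with hA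
  set B := C.R.val j s with hB
  set A' := C.A.val i t with hA'
  set B' := C.R.val j t with hB'
  have hne : α ≠ r := C.har i j
  by_cases hxs : x ≤ s
  · have hL : (A < B ∨ (A = B ∧ α < r)) ↔ α < r := by
      constructor
      · rintro (h | h)
        · by_contra hcon
          push Not at hcon
          have : 0 ≤ (α - r) * (s - x) := mul_nonneg (by linarith) (by linarith)
          linarith
        · exact h.2
      · intro h
        rcases hxs.lt_or_eq with h' | h'
        · left
          have : (α - r) * (s - x) < 0 := mul_neg_of_neg_of_pos (by linarith) (by linarith)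
          linarith
        · right
          refine ⟨?_, h⟩
          rw [h', sub_self, mul_zero] at h1
          linarith
    have hR : (A' < B' ∨ (A' = B' ∧ r < α)) ↔ α < r := by
      constructor
      · rintro (h | h)
        · by_contra hcon
          push Not at hcon
          have : 0 ≤ (α - r) * (t - x) := mul_nonneg (by linarith) (by linarith)
          linarith
        · exfalso
          have : 0 < (α - r) * (t - x) := mul_pos (by linarith [h.2]) (by linarith)
          linarith [h.1]
      · intro h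
        left
        have : (α - r) * (t - x) < 0 := mul_neg_of_neg_of_pos (by linarith) (by linarith)
        linarith
    rw [hL, hR]
  · have hxt : t ≤ x := by
      by_contra hcon
      exact hno ⟨lt_of_not_ge hxs, lt_of_not_ge hcon⟩
    have hL : (A < B ∨ (A = B ∧ α < r)) ↔ r < α := by
      constructor
      · rintro (h | h)
        · by_contra hcon
          push Not at hcon
          have : 0 ≤ (α - r) * (s - x) := mul_nonneg_of_nonpos_of_nonpos (by linarith) (by linarith)
          linarith
        · exfalso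
          have : 0 < (α - r) * (s - x) := mul_pos_of_neg_of_neg (by linarith [h.2]) (by linarith)
          linarith [h.1]
      · intro h
        left
        have : (α - r) * (s - x) < 0 := mul_neg_of_pos_of_neg (by linarith) (by linarith)
        linarith
    have hR : (A' < B' ∨ (A' = B' ∧ r < α)) ↔ r < α := by
      constructor
      · rintro (h | h)
        · by_contra hcon
          push Not at hcon
          have : 0 ≤ (α - r) * (t - x) := mul_nonneg_of_nonpos_of_nonpos (by linarith) (by linarith)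
          linarith
        · exact h.2
      · intro h
        rcases hxt.lt_or_eq with h' | h'
        · left
          have : (α - r) * (t - x) < 0 := mul_neg_of_pos_of_neg (by linarith) (by linarith)
          linarith
        · right
          refine ⟨?_, h⟩
          rw [h', sub_self, mul_zero] at h2
          linarith
    rw [hL, hR]

theorem je_mem_below {ι : Type*} [Fintype ι] (A : Arr ι) (v : ℝ × ℝ) (i : ι) :
    i ∈ A.below v ↔ A.val i v.1 < v.2 := by
  simp [Arr.below]

theorem je_L_nonempty {ι : Type*} [Fintype ι] (A : Arr ι) (ha : Function.Injective A.a)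
    {v : ℝ × ℝ} (hv : v ∈ A.V) : (A.L v).Nonempty := by
  rw [mem_V A ha, Arr.b] at hv
  exact Finset.card_pos.1 (by omega)

theorem je_Cross {ι κ : Type*} [Fintype ι] [Fintype κ] (C : Conf ι κ) {v : ℝ × ℝ}
    (hv : v ∈ C.A.V) : v ∈ C.A.Cross C.R (C.ρ v) :=
  (mem_Cross C.A C.R C.har _ _).2 ⟨C.hρ v hv, je_L_nonempty C.A C.ha hv⟩

theorem je_xr_Cross {ι κ : Type*} [Fintype ι] [Fintype κ] (C : Conf ι κ) (i : ι) (j : κ) :
    (C.A.xr C.R i j, C.R.val j (C.A.xr C.R i j)) ∈ C.A.Cross C.R j := by
  rw [mem_Cross C.A C.R C.har]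
  refine ⟨rfl, i, ?_⟩
  rw [mem_L]
  have := je_sign C i j (C.A.xr C.R i j)
  rw [sub_self, mul_zero] at this
  show C.A.val i (C.A.xr C.R i j) = C.R.val j (C.A.xr C.R i j)
  linarith

/-- the face seen from the right end -/
theorem je_face_right {ι κ : Type*} [Fintype ι] [Fintype κ] (C : Conf ι κ) {v w : ℝ × ℝ}
    (hv : v ∈ C.A.V) (hw : w ∈ C.A.V) (hρ : C.ρ w = C.ρ v) (hlt : v.1 < w.1)
    (hno : ∀ y ∈ C.A.Cross C.R (C.ρ v), ¬ (v.1 < y.1 ∧ y.1 < w.1)) :
    face C v = C.A.below w ∪ (C.A.L w).filter (fun i => C.R.a (C.ρ w) < C.A.a i) := by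
  ext i
  have h := je_iff C (C.ρ v) i hlt (hno _ (je_xr_Cross C i (C.ρ v)))
  have h1 := C.hρ v hv
  have h2 := C.hρ w hw
  rw [hρ] at h2 ⊢
  rw [h1, h2] at h
  rw [face, mem_union, mem_union, mem_filter, mem_filter, je_mem_below, je_mem_below, mem_L, mem_L]
  exact h

/-- vertices of the two kinds at which `F` is at the top -/
noncomputable def jeT {ι κ : Type*} [Fintype ι] [Fintype κ] (C : Conf ι κ) (F : Finset ι)
    (b : Bool) : Finset (ℝ × ℝ) :=
  C.A.V.filter fun u => Topat C.A F u ∧
    ∀ i ∈ C.A.L u, if b then C.A.a i < C.R.a (C.ρ u) else C.R.a (C.ρ u) < C.A.a i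

/-- vertices of the two kinds at which `F` is at the bottom -/
noncomputable def jeB {ι κ : Type*} [Fintype ι] [Fintype κ] (C : Conf ι κ) (F : Finset ι)
    (b : Bool) : Finset (ℝ × ℝ) :=
  C.A.V.filter fun u => Botat C.A F u ∧
    ∀ i ∈ C.A.L u, if b then C.A.a i < C.R.a (C.ρ u) else C.R.a (C.ρ u) < C.A.a i

theorem jeT_card {ι κ : Type*} [Fintype ι] [Fintype κ] (C : Conf ι κ) (F : Finset ι) :
    (jeT C F true).card + (jeT C F false).card ≤ (C.A.V.filter fun u => Topat C.A F u).card := by
  rw [← card_union_of_disjoint]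
  · refine card_le_card ?_
    intro u hu
    rw [mem_union] at hu
    rw [mem_filter]
    rcases hu with hu | hu <;>
    · rw [jeT, mem_filter] at hu
      exact ⟨hu.1, hu.2.1⟩
  · rw [disjoint_left]
    intro u hu hu'
    rw [jeT, mem_filter] at hu hu'
    obtain ⟨i, hi⟩ := je_L_nonempty C.A C.ha hu.1
    have h1 := hu.2.2 i hi
    have h2 := hu'.2.2 i hi
    simp only [if_true, Bool.false_eq_true, if_false] at h1 h2
    exact lt_asymm h1 h2

theorem jeB_card {ι κ : Type*} [Fintype ι] [Fintype κ] (C : Conf ι κ) (F : Finset ι) :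
    (jeB C F true).card + (jeB C F false).card ≤ (C.A.V.filter fun u => Botat C.A F u).card := by
  rw [← card_union_of_disjoint]
  · refine card_le_card ?_
    intro u hu
    rw [mem_union] at hu
    rw [mem_filter]
    rcases hu with hu | hu <;>
    · rw [jeB, mem_filter] at hu
      exact ⟨hu.1, hu.2.1⟩
  · rw [disjoint_left]
    intro u hu hu'
    rw [jeB, mem_filter] at hu hu'
    obtain ⟨i, hi⟩ := je_L_nonempty C.A C.ha hu.1
    have h1 := hu.2.2 i hi
    have h2 := hu'.2.2 i hi
    simp only [if_true, Bool.false_eq_true, if_false] at h1 h2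
    exact lt_asymm h1 h2

theorem je_RW_card {ι : Type*} [Fintype ι] (A : Arr ι) (ha : Function.Injective A.a)
    (F : Finset ι) : (A.V.filter fun u => RWat A F u).card ≤ if F ∈ RW A then 1 else 0 := by
  split_ifs with h
  · rw [card_le_one]
    intro u hu u' hu'
    rw [mem_filter] at hu hu'
    exact RWat_unique A ha hu.2 hu'.2
  · rw [Nat.le_zero, card_eq_zero, filter_eq_empty_iff]
    intro u hu hF
    apply h
    rw [RW, mem_filter]
    exact ⟨mem_univ _, u, hu, hF⟩

theorem je_LW_card {ι : Type*} [Fintype ι] (A : Arr ι) (ha : Function.Injective A.a)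
    (F : Finset ι) : (A.V.filter fun u => LWat A F u).card ≤ if F ∈ LW A then 1 else 0 := by
  split_ifs with h
  · rw [card_le_one]
    intro u hu u' hu'
    rw [mem_filter] at hu hu'
    exact LWat_unique A ha hu.2 hu'.2
  · rw [Nat.le_zero, card_eq_zero, filter_eq_empty_iff]
    intro u hu hF
    apply h
    rw [LW, mem_filter]
    exact ⟨mem_univ _, u, hu, hF⟩

theorem two_PF_le {ι κ : Type*} [Fintype ι] [Fintype κ] (C : Conf ι κ) (F : Finset ι) :
    2 * PF C F ≤ (if F ∈ RW C.A then 1 else 0) + (if F ∈ LW C.A then 1 else 0) + side C.A F := by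
  set P := C.A.V.filter (fun v => Perf C v ∧ face C v = F) with hP
  have hPF : PF C F = P.card := rfl
  -- the left ends
  have h1 : P ⊆ (C.A.V.filter fun u => RWat C.A F u) ∪ (jeT C F true ∪ jeB C F false) := by
    intro v hv
    rw [hP, mem_filter] at hv
    obtain ⟨hvV, -, hF⟩ := hv
    rw [mem_union, mem_union, mem_filter, jeT, mem_filter, jeB, mem_filter]
    by_cases hT : ∀ i ∈ C.A.L v, C.A.a i < C.R.a (C.ρ v)
    · right; left
      refine ⟨hvV, ?_, by simpa using hT⟩
      rw [Topat, ← hF, face, filter_true_of_mem hT]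
    · by_cases hB : ∀ i ∈ C.A.L v, C.R.a (C.ρ v) < C.A.a i
      · right; right
        refine ⟨hvV, ?_, by simpa using hB⟩
        rw [Botat, ← hF, face, filter_false_of_mem (fun i hi => (hB i hi).le.not_gt), union_empty]
      · left
        push Not at hT hB
        obtain ⟨i, hi, hi'⟩ := hT
        obtain ⟨i2, hi2, hi2'⟩ := hB
        refine ⟨hvV, C.R.a (C.ρ v), by rw [← hF, face],
          ⟨i2, hi2, lt_of_le_of_ne hi2' (C.har i2 _)⟩, ⟨i, hi, hi'⟩⟩
  -- the right ends
  have hex : ∀ v : ℝ × ℝ, ∃ w : ℝ × ℝ, v ∈ P → w ∈ C.A.V ∧ C.ρ w = C.ρ v ∧ v.1 < w.1 ∧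
      ∀ y ∈ C.A.Cross C.R (C.ρ v), ¬ (v.1 < y.1 ∧ y.1 < w.1) := by
    intro v
    by_cases hv : v ∈ P
    · have hv' := hv
      rw [hP, mem_filter] at hv'
      obtain ⟨w, hw⟩ := hv'.2.1
      exact ⟨w, fun _ => hw⟩
    · exact ⟨v, fun h => absurd h hv⟩
  choose w hw using hex
  have hinj : Set.InjOn w (P : Set (ℝ × ℝ)) := by
    intro v hv v' hv' hww
    have hv1 := hw v hv
    have hv2 := hw v' hv'
    rw [hww] at hv1
    have hVv : v ∈ C.A.V := (mem_filter.1 hv).1
    have hVv' : v' ∈ C.A.V := (mem_filter.1 hv').1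
    have hρ : C.ρ v = C.ρ v' := by rw [← hv1.2.1, ← hv2.2.1]
    have c1 := je_Cross C hVv
    have c2 := je_Cross C hVv'
    have hx : v.1 = v'.1 := by
      rcases lt_trichotomy v.1 v'.1 with h | h | h
      · exact absurd ⟨h, hv2.2.2.1⟩ (hv1.2.2.2 v' (by rw [hρ]; exact c2))
      · exact h
      · exact absurd ⟨h, hv1.2.2.1⟩ (hv2.2.2.2 v (by rw [← hρ]; exact c1))
    have e1 := C.hρ v hVv
    have e2 := C.hρ v' hVv'
    rw [hρ, hx, e2] at e1
    exact Prod.ext hx e1.symm
  have hcard : (P.image w).card = P.card := card_image_of_injOn hinj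
  have h2 : P.image w ⊆ (C.A.V.filter fun u => LWat C.A F u) ∪ (jeT C F false ∪ jeB C F true) := by
    intro x hx
    rw [mem_image] at hx
    obtain ⟨v, hv, rfl⟩ := hx
    obtain ⟨hwV, hρ, hlt, hno⟩ := hw v hv
    rw [hP, mem_filter] at hv
    obtain ⟨hvV, -, hF⟩ := hv
    rw [je_face_right C hvV hwV hρ hlt hno] at hF
    rw [mem_union, mem_union, mem_filter, jeT, mem_filter, jeB, mem_filter]
    by_cases hT : ∀ i ∈ C.A.L (w v), C.R.a (C.ρ (w v)) < C.A.a i
    · right; left
      refine ⟨hwV, ?_, by simpa using hT⟩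
      rw [Topat, ← hF, filter_true_of_mem hT]
    · by_cases hB : ∀ i ∈ C.A.L (w v), C.A.a i < C.R.a (C.ρ (w v))
      · right; right
        refine ⟨hwV, ?_, by simpa using hB⟩
        rw [Botat, ← hF, filter_false_of_mem (fun i hi => (hB i hi).le.not_gt), union_empty]
      · left
        push Not at hT hB
        obtain ⟨i, hi, hi'⟩ := hT
        obtain ⟨i2, hi2, hi2'⟩ := hB
        refine ⟨hwV, C.R.a (C.ρ (w v)), hF.symm,
          ⟨i2, hi2, lt_of_le_of_ne hi2' (C.har i2 _).symm⟩, ⟨i, hi, hi'⟩⟩
  have k1 := (card_le_card h1).trans (card_union_le _ _)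
  have k1' := card_union_le (jeT C F true) (jeB C F false)
  have k2 := (card_le_card h2).trans (card_union_le _ _)
  have k2' := card_union_le (jeT C F false) (jeB C F true)
  have k3 := je_RW_card C.A C.ha F
  have k4 := je_LW_card C.A C.ha F
  have k5 := jeT_card C F
  have k6 := jeB_card C F
  rw [hcard] at k2
  rw [hPF, side]
  omega

end Helper171
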