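import Pool.Agent.helper171_blk.Basic

/-! Vertices that start no perfect chord. -/

namespace Helper171
open Finset Classical

/- auxiliary: points of `Sel j` are determined by their abscissa -/
theorem Sel_ext_aux {ι κ : Type*} [Fintype ι] [Fintype κ] (C : Conf ι κ) (j : κ) {v v' : ℝ × ℝ}
    (hv : v ∈ C.Sel j) (hv' : v' ∈ C.Sel j) (h : v.1 = v'.1) : v = v' := by
  unfold Conf.Sel at hv hv'
  rw [mem_filter] at hv hv'
  have h1 := C.hρ v hv.1
  have h2 := C.hρ v' hv'.1
  rw [hv.2] at h1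
  rw [hv'.2] at h2
  refine Prod.ext h ?_
  rw [← h1, ← h2, h]

/- auxiliary: the count on one red line -/
theorem card_notPerf_aux {ι κ : Type*} [Fintype ι] [Fintype κ] (C : Conf ι κ) (j : κ) :
    ((C.Sel j).filter fun v => ¬ Perf C v).card ≤ (C.Non j).card + 1 := by
  set N := (C.Sel j).filter fun v => ¬ Perf C v with hN
  have hNS : ∀ v ∈ N, v ∈ C.Sel j := fun v hv => (mem_filter.1 hv).1
  have hNP : ∀ v ∈ N, ¬ Perf C v := fun v hv => (mem_filter.1 hv).2
  have hV : ∀ v ∈ C.Sel j, v ∈ C.A.V ∧ C.ρ v = j := fun v hv => by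
    unfold Conf.Sel at hv
    exact mem_filter.1 hv
  let S : ℝ × ℝ → Finset (ℝ × ℝ) := fun v => (C.A.Cross C.R j).filter fun y => v.1 < y.1
  have hS : ∀ v y, y ∈ S v ↔ y ∈ C.A.Cross C.R j ∧ v.1 < y.1 := fun v y => mem_filter
  have hf : ∀ v, ∃ y, (S v).Nonempty → y ∈ S v ∧ ∀ z ∈ S v, y.1 ≤ z.1 := by
    intro v
    by_cases h : (S v).Nonempty
    · obtain ⟨y, hy, hy'⟩ := exists_min_image (S v) (fun z => z.1) h
      exact ⟨y, fun _ => ⟨hy, hy'⟩⟩
    · exact ⟨v, fun h' => absurd h' h⟩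
  choose f hf using hf
  have h0 : (N.filter fun v => ¬ (S v).Nonempty).card ≤ 1 := by
    rw [card_le_one]
    intro v hv v' hv'
    rw [mem_filter] at hv hv'
    rcases lt_trichotomy v.1 v'.1 with h | h | h
    · exact absurd ⟨v', (hS _ _).2 ⟨Sel_subset C j (hNS _ hv'.1), h⟩⟩ hv.2
    · exact Sel_ext_aux C j (hNS _ hv.1) (hNS _ hv'.1) h
    · exact absurd ⟨v, (hS _ _).2 ⟨Sel_subset C j (hNS _ hv.1), h⟩⟩ hv'.2
  have h1 : (N.filter fun v => (S v).Nonempty).card ≤ (C.Non j).card := by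
    apply card_le_card_of_injOn f
    · intro v hv
      rw [mem_coe, mem_filter] at hv
      obtain ⟨hvN, hvS⟩ := hv
      obtain ⟨hy, hy'⟩ := hf v hvS
      rw [hS] at hy
      rw [mem_coe]
      unfold Conf.Non
      rw [mem_sdiff]
      refine ⟨hy.1, fun hsel => ?_⟩
      apply hNP v hvN
      refine ⟨f v, (hV _ hsel).1, ?_, hy.2, ?_⟩
      · rw [(hV _ hsel).2, (hV _ (hNS v hvN)).2]
      · rw [(hV _ (hNS v hvN)).2]
        rintro z hz ⟨hz1, hz2⟩
        exact absurd (hy' z ((hS _ _).2 ⟨hz, hz1⟩)) (not_le.2 hz2)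
    · intro v hv v' hv' hvv
      rw [mem_coe, mem_filter] at hv hv'
      obtain ⟨hvN, hvS⟩ := hv
      obtain ⟨hvN', hvS'⟩ := hv'
      obtain ⟨hy, hy'⟩ := hf v hvS
      obtain ⟨hz, hz'⟩ := hf v' hvS'
      rw [hS] at hy hz
      rcases lt_trichotomy v.1 v'.1 with h | h | h
      · have h3 := hy' v' ((hS _ _).2 ⟨Sel_subset C j (hNS _ hvN'), h⟩)
        rw [hvv] at h3
        exact absurd hz.2 (not_lt.2 h3)
      · exact Sel_ext_aux C j (hNS _ hvN) (hNS _ hvN') h
      · have h3 := hz' v ((hS _ _).2 ⟨Sel_subset C j (hNS _ hvN), h⟩)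
        rw [← hvv] at h3
        exact absurd hy.2 (not_lt.2 h3)
  have h2 := card_filter_add_card_filter_not (s := N) (fun v => (S v).Nonempty)
  omega

theorem card_V_le {ι κ : Type*} [Fintype ι] [Fintype κ] (C : Conf ι κ) :
    C.A.V.card ≤ (C.A.V.filter fun v => Perf C v).card + C.sig + Fintype.card κ := by
  have h1 : (C.A.V.filter fun v => Perf C v).card =
      ∑ j, ((C.Sel j).filter fun v => Perf C v).card := by
    rw [card_eq_sum_card_fiberwise (f := C.ρ) (t := univ) (fun _ _ => mem_coe.2 (mem_univ _))]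
    refine sum_congr rfl fun j _ => ?_
    congr 1
    unfold Conf.Sel
    rw [filter_filter, filter_filter]
    exact filter_congr fun v _ => and_comm
  have h2 : ∀ j, (C.Sel j).card ≤ ((C.Sel j).filter fun v => Perf C v).card +
      ((C.Non j).card + 1) := by
    intro j
    have h3 := card_filter_add_card_filter_not (s := C.Sel j) (fun v => Perf C v)
    have h4 := card_notPerf_aux C j
    omega
  rw [card_V_eq, h1]
  unfold Conf.sig
  refine (sum_le_sum fun j _ => h2 j).trans ?_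
  rw [sum_add_distrib, sum_add_distrib, sum_const, card_univ, smul_eq_mul, mul_one, add_assoc]

end Helper171
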