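import Pool.Agent.helper171_blk.JA
import Pool.Agent.helper171_blk.JB
import Pool.Agent.helper171_blk.JC
import Pool.Agent.helper171_blk.JD
import Pool.Agent.helper171_blk.JE
import Pool.Agent.helper171_blk.JF

/-! The chord inequality. -/

namespace Helper171
open Finset Classical

section
variable {ι κ : Type*} [Fintype ι] [Fintype κ]

theorem RW_subset_Faces (A : Arr ι) : RW A ⊆ Faces A := by
  intro F hF
  unfold RW at hF
  unfold Faces
  simp only [mem_filter, mem_univ, true_and] at hF ⊢
  obtain ⟨u, hu, h⟩ := hF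
  exact ⟨u, hu, Or.inl h⟩

/-- the face of a chord is a face -/
theorem face_mem_Faces (C : Conf ι κ) (v : ℝ × ℝ) (hv : v ∈ C.A.V) : face C v ∈ Faces C.A := by
  unfold Faces
  simp only [mem_filter, mem_univ, true_and]
  refine ⟨v, hv, ?_⟩
  by_cases h1 : ∃ i ∈ C.A.L v, C.A.a i < C.R.a (C.ρ v)
  · by_cases h2 : ∃ i ∈ C.A.L v, C.R.a (C.ρ v) ≤ C.A.a i
    · exact Or.inl ⟨C.R.a (C.ρ v), rfl, h1, h2⟩
    · push Not at h2
      refine Or.inr (Or.inr (Or.inl ?_))
      unfold Topat face
      rw [Finset.filter_true_of_mem h2]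
  · push Not at h1
    refine Or.inr (Or.inr (Or.inr ?_))
    unfold Botat face
    rw [Finset.filter_false_of_mem (fun i hi => not_lt.2 (h1 i hi)), Finset.union_empty]

theorem card_Perf_eq (C : Conf ι κ) :
    (C.A.V.filter fun v => Perf C v).card = ∑ F ∈ Faces C.A, PF C F := by
  rw [Finset.card_eq_sum_card_fiberwise (f := face C) (t := Faces C.A)]
  · apply Finset.sum_congr rfl
    intro F _
    unfold PF
    rw [Finset.filter_filter]
  · intro v hv
    have := Finset.mem_coe.1 hv
    exact Finset.mem_coe.2 (face_mem_Faces C v (mem_filter.1 this).1)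

theorem PF_bound (C : Conf ι κ) (F : Finset ι) :
    PF C F + 2 ≤ 2 * side C.A F + 2 * (if F ∈ RW C.A then 0 else 1) +
      2 * (if F ∈ LW C.A then 0 else 1) := by
  have h := two_PF_le C F
  by_cases hr : F ∈ RW C.A <;> by_cases hl : F ∈ LW C.A <;> simp only [hr, hl, if_true, if_false] at h ⊢
  · by_cases hP : 1 ≤ PF C F
    · have := two_le_side C hr hl hP
      omega
    · have := one_le_side C.A C.ha hr hl
      omega
  · omega
  · omega
  · omega

theorem chord (C : Conf ι κ) :
    2 * C.E ≤ 5 * C.A.V.card + C.sig + Fintype.card κ + 4 * Fintype.card ι + 4 := by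
  have h1 := card_V_le C
  have h2 := card_Perf_eq C
  have h3 : ∑ F ∈ Faces C.A, (PF C F + 2) ≤ ∑ F ∈ Faces C.A, (2 * side C.A F +
      2 * (if F ∈ RW C.A then 0 else 1) + 2 * (if F ∈ LW C.A then 0 else 1)) :=
    Finset.sum_le_sum fun F _ => PF_bound C F
  have e1 : ∑ F ∈ Faces C.A, (if F ∈ RW C.A then 0 else 1) = (Faces C.A \ RW C.A).card := by
    rw [Finset.card_eq_sum_ones, Finset.sdiff_eq_filter, Finset.sum_filter]
    apply Finset.sum_congr rfl
    intro F _
    by_cases h : F ∈ RW C.A <;> simp [h]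
  have e2 : ∑ F ∈ Faces C.A, (if F ∈ LW C.A then 0 else 1) = (Faces C.A \ LW C.A).card := by
    rw [Finset.card_eq_sum_ones, Finset.sdiff_eq_filter, Finset.sum_filter]
    apply Finset.sum_congr rfl
    intro F _
    by_cases h : F ∈ LW C.A <;> simp [h]
  rw [Finset.sum_add_distrib, Finset.sum_add_distrib, Finset.sum_add_distrib, ← Finset.mul_sum,
    ← Finset.mul_sum, ← Finset.mul_sum, e1, e2, sum_side] at h3
  simp only [Finset.sum_const, smul_eq_mul] at h3
  have h4 := card_Faces_sdiff_RW C.A C.ha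
  have h5 := card_Faces_sdiff_LW C.A C.ha
  have h6 := card_RW C.A C.ha
  have h7 : (RW C.A).card ≤ (Faces C.A).card := Finset.card_le_card (RW_subset_Faces C.A)
  have h8 : C.E = ∑ v ∈ C.A.V, C.A.b v := rfl
  rw [← h8] at h6
  omega

/-- Melchior type inequality with a linear error term -/
theorem melchior (C : Conf ι κ) : C.E ≤ 3 * C.A.V.card + Fintype.card ι + 1 := by
  have h6 := card_RW C.A C.ha
  have h8 : C.E = ∑ v ∈ C.A.V, C.A.b v := rfl
  rw [← h8] at h6
  have h5 := card_Faces_sdiff_LW C.A C.ha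
  have h9 : ((RW C.A).filter fun F => F ∈ LW C.A).card ≤ 2 * C.A.V.card := by
    rw [← sum_side, Finset.card_eq_sum_ones]
    calc ∑ F ∈ (RW C.A).filter (fun F => F ∈ LW C.A), 1
        ≤ ∑ F ∈ (RW C.A).filter (fun F => F ∈ LW C.A), side C.A F := by
          apply Finset.sum_le_sum
          intro F hF
          rw [mem_filter] at hF
          exact one_le_side C.A C.ha hF.1 hF.2
      _ ≤ ∑ F ∈ Faces C.A, side C.A F := by
          apply Finset.sum_le_sum_of_subset
          exact (Finset.filter_subset _ _).trans (RW_subset_Faces C.A)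
  have h10 : ((RW C.A).filter fun F => ¬ F ∈ LW C.A).card ≤ (Faces C.A \ LW C.A).card := by
    apply Finset.card_le_card
    intro F hF
    rw [mem_filter] at hF
    rw [mem_sdiff]
    exact ⟨RW_subset_Faces C.A hF.1, hF.2⟩
  have h11 := Finset.card_filter_add_card_filter_not (s := RW C.A) (fun F => F ∈ LW C.A)
  omega

end
end Helper171
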