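import Mathlib

/-!
Definitions for the dual picture of blocking sets: `n` blue lines, `m` red lines in the affine
plane, none vertical, and for every crossing point of blue lines one chosen red line through it.
-/

namespace Helper171

open Finset Classical

/-- A family of nonvertical lines in the plane: line `i` is the graph of `s ↦ a i * s + c i`. -/
structure Arr (ι : Type*) where
  /-- slopes -/
  a : ι → ℝ
  /-- intercepts -/
  c : ι → ℝ

namespace Arr

variable {ι κ : Type*}

/-- Height of line `i` at abscissa `s`. -/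
def val (A : Arr ι) (i : ι) (s : ℝ) : ℝ := A.a i * s + A.c i

/-- Abscissa of the crossing point of line `i` of `A` and line `j` of `R`. -/
noncomputable def xr (A : Arr ι) (R : Arr κ) (i : ι) (j : κ) : ℝ :=
  (R.c j - A.c i) / (A.a i - R.a j)

variable [Fintype ι]

/-- The lines through a point. -/
noncomputable def L (A : Arr ι) (v : ℝ × ℝ) : Finset ι := univ.filter fun i => A.val i v.1 = v.2

/-- The number of lines through a point. -/
noncomputable def b (A : Arr ι) (v : ℝ × ℝ) : ℕ := (A.L v).card

/-- The vertices: crossing points of two distinct lines of the family. -/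
noncomputable def V (A : Arr ι) : Finset (ℝ × ℝ) :=
  ((univ : Finset (ι × ι)).filter fun p => p.1 ≠ p.2).image
    fun p => (A.xr A p.1 p.2, A.val p.1 (A.xr A p.1 p.2))

/-- The lines strictly below a point. -/
noncomputable def below (A : Arr ι) (v : ℝ × ℝ) : Finset ι :=
  univ.filter fun i => A.val i v.1 < v.2

/-- The crossing points of line `j` of `R` with the lines of `A`. -/
noncomputable def Cross (A : Arr ι) (R : Arr κ) (j : κ) : Finset (ℝ × ℝ) :=
  univ.image fun i => (A.xr R i j, R.val j (A.xr R i j))

end Arr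

/-- Blue lines `A`, red lines `R`, all blue slopes distinct and different from all red slopes, and
for every vertex `v` of `A` a red line `ρ v` through it. -/
structure Conf (ι κ : Type*) [Fintype ι] [Fintype κ] where
  /-- blue lines -/
  A : Arr ι
  /-- red lines -/
  R : Arr κ
  /-- chosen red line through a vertex -/
  ρ : ℝ × ℝ → κ
  ha : Function.Injective A.a
  har : ∀ i j, A.a i ≠ R.a j
  hρ : ∀ v ∈ A.V, R.val (ρ v) v.1 = v.2

namespace Conf

variable {ι κ : Type*} [Fintype ι] [Fintype κ] (C : Conf ι κ)

/-- Vertices whose chosen red line is `j`. -/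
noncomputable def Sel (j : κ) : Finset (ℝ × ℝ) := C.A.V.filter fun v => C.ρ v = j

/-- The other crossing points of the red line `j` with blue lines. -/
noncomputable def Non (j : κ) : Finset (ℝ × ℝ) := C.A.Cross C.R j \ C.Sel j

/-- Number of crossing points of red and blue lines that are not selected. -/
noncomputable def sig : ℕ := ∑ j, (C.Non j).card

/-- The same, counted with the number of blue lines through them. -/
noncomputable def W : ℕ := ∑ j, ∑ y ∈ C.Non j, C.A.b y

/-- Total number of incidences of blue lines and vertices. -/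
noncomputable def E : ℕ := ∑ v ∈ C.A.V, C.A.b v

end Conf


/-! ### faces of the blue arrangement, given by the set of lines below them -/

section faces
variable {ι : Type*} [Fintype ι]

/-- `F` is the set of lines below a wedge at `u` opening to the right. -/
def RWat (A : Arr ι) (F : Finset ι) (u : ℝ × ℝ) : Prop :=
  ∃ θ : ℝ, F = A.below u ∪ (A.L u).filter (fun i => A.a i < θ) ∧
    (∃ i ∈ A.L u, A.a i < θ) ∧ ∃ i ∈ A.L u, θ ≤ A.a i

/-- `F` is the set of lines below a wedge at `u` opening to the left. -/
def LWat (A : Arr ι) (F : Finset ι) (u : ℝ × ℝ) : Prop :=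
  ∃ θ : ℝ, F = A.below u ∪ (A.L u).filter (fun i => θ < A.a i) ∧
    (∃ i ∈ A.L u, θ < A.a i) ∧ ∃ i ∈ A.L u, A.a i ≤ θ

/-- `F` is the set of lines below the wedge above `u`. -/
def Topat (A : Arr ι) (F : Finset ι) (u : ℝ × ℝ) : Prop := F = A.below u ∪ A.L u

/-- `F` is the set of lines below the wedge below `u`. -/
def Botat (A : Arr ι) (F : Finset ι) (u : ℝ × ℝ) : Prop := F = A.below u

/-- `u` is a corner of the face `F`. -/
def Cor (A : Arr ι) (F : Finset ι) (u : ℝ × ℝ) : Prop :=
  RWat A F u ∨ LWat A F u ∨ Topat A F u ∨ Botat A F u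

/-- faces with a leftmost vertex -/
noncomputable def RW (A : Arr ι) : Finset (Finset ι) := univ.filter fun F => ∃ u ∈ A.V, RWat A F u

/-- faces with a rightmost vertex -/
noncomputable def LW (A : Arr ι) : Finset (Finset ι) := univ.filter fun F => ∃ u ∈ A.V, LWat A F u

/-- faces with at least one vertex -/
noncomputable def Faces (A : Arr ι) : Finset (Finset ι) :=
  univ.filter fun F => ∃ u ∈ A.V, Cor A F u

/-- the number of side corners of a face -/
noncomputable def side (A : Arr ι) (F : Finset ι) : ℕ :=
  (A.V.filter fun u => Topat A F u).card + (A.V.filter fun u => Botat A F u).card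

end faces

/-! ### perfect chords -/

section perf
variable {ι κ : Type*} [Fintype ι] [Fintype κ]

/-- `v` is followed on its red line by a selected vertex, with no blue crossing in between. -/
def Perf (C : Conf ι κ) (v : ℝ × ℝ) : Prop :=
  ∃ w ∈ C.A.V, C.ρ w = C.ρ v ∧ v.1 < w.1 ∧ ∀ y ∈ C.A.Cross C.R (C.ρ v), ¬ (v.1 < y.1 ∧ y.1 < w.1)

/-- the lines below the chord that starts at `v` -/
noncomputable def face (C : Conf ι κ) (v : ℝ × ℝ) : Finset ι :=
  C.A.below v ∪ (C.A.L v).filter fun i => C.A.a i < C.R.a (C.ρ v)

/-- the number of perfect chords in a face -/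
noncomputable def PF (C : Conf ι κ) (F : Finset ι) : ℕ :=
  (C.A.V.filter fun v => Perf C v ∧ face C v = F).card

end perf

/-! ### the chart of one red line -/

section chart
variable {ι : Type*} [Fintype ι]

/-- the line `p` passes through `z` and meets no line of the family to the right of `z` -/
def FreeR (D : Arr ι) (p : ι) (z : ℝ × ℝ) : Prop :=
  D.val p z.1 = z.2 ∧ (∀ q, D.a q < D.a p → D.val q z.1 ≤ z.2) ∧
    (∀ q, D.a p < D.a q → z.2 ≤ D.val q z.1)

/-- the line `p` passes through `z` and meets no line of the family to the left of `z` -/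
def FreeL (D : Arr ι) (p : ι) (z : ℝ × ℝ) : Prop :=
  D.val p z.1 = z.2 ∧ (∀ q, D.a q < D.a p → z.2 ≤ D.val q z.1) ∧
    (∀ q, D.a p < D.a q → D.val q z.1 ≤ z.2)

/-- Lines (parallel ones allowed) with a set `Hr` of points having a free ray to the right and a
disjoint set `Hl` of points having a free ray to the left. -/
structure Chart (ι : Type*) [Fintype ι] where
  /-- lines -/
  D : Arr ι
  /-- points with a free ray to the right -/
  Hr : Finset (ℝ × ℝ)
  /-- points with a free ray to the left -/
  Hl : Finset (ℝ × ℝ)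
  /-- the line of the free ray -/
  p : ℝ × ℝ → ι
  hD : ∀ i i', D.a i = D.a i' → D.c i = D.c i' → i = i'
  hdisj : Disjoint Hr Hl
  hr : ∀ z ∈ Hr, FreeR D (p z) z
  hl : ∀ z ∈ Hl, FreeL D (p z) z

/-- right events above the line `q` -/
noncomputable def T1 (K : Chart ι) (q : ι) : Finset (ℝ × ℝ) :=
  K.Hr.filter fun z => K.D.val q z.1 = z.2 ∧ K.D.a q < K.D.a (K.p z)

/-- right events below the line `q` -/
noncomputable def T3 (K : Chart ι) (q : ι) : Finset (ℝ × ℝ) :=
  K.Hr.filter fun z => K.D.val q z.1 = z.2 ∧ K.D.a (K.p z) < K.D.a q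

/-- left events above the line `q` -/
noncomputable def T2 (K : Chart ι) (q : ι) : Finset (ℝ × ℝ) :=
  K.Hl.filter fun z => K.D.val q z.1 = z.2 ∧ K.D.a (K.p z) < K.D.a q

/-- left events below the line `q` -/
noncomputable def T4 (K : Chart ι) (q : ι) : Finset (ℝ × ℝ) :=
  K.Hl.filter fun z => K.D.val q z.1 = z.2 ∧ K.D.a q < K.D.a (K.p z)

/-- lines with an event of type 1 -/
noncomputable def Q1 (K : Chart ι) : Finset ι := univ.filter fun q => (T1 K q).Nonempty
/-- lines with an event of type 2 -/
noncomputable def Q2 (K : Chart ι) : Finset ι := univ.filter fun q => (T2 K q).Nonempty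
/-- lines with an event of type 3 -/
noncomputable def Q3 (K : Chart ι) : Finset ι := univ.filter fun q => (T3 K q).Nonempty
/-- lines with an event of type 4 -/
noncomputable def Q4 (K : Chart ι) : Finset ι := univ.filter fun q => (T4 K q).Nonempty

/-- slopes of the lines -/
noncomputable def slopes (D : Arr ι) : Finset ℝ := univ.image D.a

/-- number of lines of a given slope -/
noncomputable def mult (D : Arr ι) (y : ℝ) : ℕ := (univ.filter fun i => D.a i = y).card

end chart

/-! ### from a configuration to the charts -/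

section trans
variable {ι κ : Type*} [Fintype ι] [Fintype κ] (C : Conf ι κ)

/-- the blue lines in the chart of the red line `j` -/
noncomputable def DC (j : κ) : Arr ι where
  a := fun i => C.A.xr C.R i j
  c := fun i => 1 / (C.A.a i - C.R.a j)

/-- height above the red line `j` -/
noncomputable def ht (j : κ) (z : ℝ × ℝ) : ℝ := z.2 - C.R.val j z.1

/-- the point `z` in the chart of the red line `j` -/
noncomputable def Ph (j : κ) (z : ℝ × ℝ) : ℝ × ℝ := (1 / ht C j z, z.1 / ht C j z)

/-- `w` and `z` are cyclically adjacent vertices on the blue line `p` -/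
def Adj (p : ι) (w z : ℝ × ℝ) : Prop :=
  w ∈ C.A.V ∧ z ∈ C.A.V ∧ w ≠ z ∧ p ∈ C.A.L w ∧ p ∈ C.A.L z ∧
    ((∀ y ∈ C.A.V, p ∈ C.A.L y → ¬ (min w.1 z.1 < y.1 ∧ y.1 < max w.1 z.1)) ∨
     (∀ y ∈ C.A.V, p ∈ C.A.L y → (min w.1 z.1 ≤ y.1 ∧ y.1 ≤ max w.1 z.1)))

/-- the red lines to which `z` is exposed -/
noncomputable def reds (z : ℝ × ℝ) : Finset κ :=
  univ.filter fun j => ∃ p w, Adj C p w z ∧ C.ρ w = j

end trans

end Helper171
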