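import Pool.Agent.helper171_blk.Defs

/-! Three free rays are impossible. -/

namespace Helper171
open Finset Classical

theorem three_rays_ne {ι : Type*} [Fintype ι] (D : Arr ι)
    (hD : ∀ i i', D.a i = D.a i' → D.c i = D.c i' → i = i') (z : ℝ × ℝ) {p q : ι}
    (hp : D.val p z.1 = z.2) (hq : q ≠ p) (e : D.a q = D.a p) : D.val q z.1 ≠ z.2 := by
  intro h
  apply hq
  apply hD _ _ e
  have h1 := h.trans hp.symm
  unfold Arr.val at h1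
  rw [e] at h1
  linarith

theorem three_rays_sorted {ι : Type*} [Fintype ι] (D : Arr ι)
    (hD : ∀ i i', D.a i = D.a i' → D.c i = D.c i' → i = i')
    (z : ℝ × ℝ) (p₁ p₂ p₃ q₁ q₂ q₃ : ι)
    (h1 : FreeR D p₁ z ∨ FreeL D p₁ z) (h2 : FreeR D p₂ z ∨ FreeL D p₂ z)
    (h3 : FreeR D p₃ z ∨ FreeL D p₃ z)
    (hq1 : q₁ ≠ p₁) (hq2 : q₂ ≠ p₂) (hq3 : q₃ ≠ p₃)
    (e1 : D.a q₁ = D.a p₁) (e2 : D.a q₂ = D.a p₂) (e3 : D.a q₃ = D.a p₃)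
    (o1 : D.a p₁ < D.a p₂) (o2 : D.a p₂ < D.a p₃) : False := by
  have v1 : D.val p₁ z.1 = z.2 := by rcases h1 with h | h <;> exact h.1
  have v2 : D.val p₂ z.1 = z.2 := by rcases h2 with h | h <;> exact h.1
  have v3 : D.val p₃ z.1 = z.2 := by rcases h3 with h | h <;> exact h.1
  have n1 := three_rays_ne D hD z v1 hq1 e1
  have n2 := three_rays_ne D hD z v2 hq2 e2
  have n3 := three_rays_ne D hD z v3 hq3 e3
  have a12 : D.a q₁ < D.a p₂ := by rw [e1]; exact o1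
  have a13 : D.a q₁ < D.a p₃ := by rw [e1]; exact o1.trans o2
  have a21 : D.a p₁ < D.a q₂ := by rw [e2]; exact o1
  have a23 : D.a q₂ < D.a p₃ := by rw [e2]; exact o2
  have a31 : D.a p₁ < D.a q₃ := by rw [e3]; exact o1.trans o2
  have a32 : D.a p₂ < D.a q₃ := by rw [e3]; exact o2
  rcases h1 with ⟨_, b1, c1⟩ | ⟨_, b1, c1⟩ <;> rcases h2 with ⟨_, b2, c2⟩ | ⟨_, b2, c2⟩
  · rcases h3 with ⟨_, b3, c3⟩ | ⟨_, b3, c3⟩
    · exact n2 (le_antisymm (b3 _ a23) (c1 _ a21))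
    · exact n1 (le_antisymm (b2 _ a12) (b3 _ a13))
  · exact n3 (le_antisymm (c2 _ a32) (c1 _ a31))
  · exact n3 (le_antisymm (c1 _ a31) (c2 _ a32))
  · rcases h3 with ⟨_, b3, c3⟩ | ⟨_, b3, c3⟩
    · exact n1 (le_antisymm (b3 _ a13) (b2 _ a12))
    · exact n2 (le_antisymm (c1 _ a21) (b3 _ a23))

theorem three_rays {ι : Type*} [Fintype ι] (D : Arr ι)
    (hD : ∀ i i', D.a i = D.a i' → D.c i = D.c i' → i = i')
    (z : ℝ × ℝ) (p₁ p₂ p₃ q₁ q₂ q₃ : ι)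
    (h1 : FreeR D p₁ z ∨ FreeL D p₁ z) (h2 : FreeR D p₂ z ∨ FreeL D p₂ z)
    (h3 : FreeR D p₃ z ∨ FreeL D p₃ z)
    (h12 : p₁ ≠ p₂) (h13 : p₁ ≠ p₃) (h23 : p₂ ≠ p₃)
    (hq1 : q₁ ≠ p₁) (hq2 : q₂ ≠ p₂) (hq3 : q₃ ≠ p₃)
    (e1 : D.a q₁ = D.a p₁) (e2 : D.a q₂ = D.a p₂) (e3 : D.a q₃ = D.a p₃) : False := by
  have v1 : D.val p₁ z.1 = z.2 := by rcases h1 with h | h <;> exact h.1
  have v2 : D.val p₂ z.1 = z.2 := by rcases h2 with h | h <;> exact h.1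
  have v3 : D.val p₃ z.1 = z.2 := by rcases h3 with h | h <;> exact h.1
  have d12 : D.a p₁ ≠ D.a p₂ := fun e => three_rays_ne D hD z v2 h12 e v1
  have d13 : D.a p₁ ≠ D.a p₃ := fun e => three_rays_ne D hD z v3 h13 e v1
  have d23 : D.a p₂ ≠ D.a p₃ := fun e => three_rays_ne D hD z v3 h23 e v2
  rcases lt_or_gt_of_ne d12 with o12 | o12 <;> rcases lt_or_gt_of_ne d23 with o23 | o23
  · exact three_rays_sorted D hD z p₁ p₂ p₃ q₁ q₂ q₃ h1 h2 h3 hq1 hq2 hq3 e1 e2 e3 o12 o23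
  · rcases lt_or_gt_of_ne d13 with o13 | o13
    · exact three_rays_sorted D hD z p₁ p₃ p₂ q₁ q₃ q₂ h1 h3 h2 hq1 hq3 hq2 e1 e3 e2 o13 o23
    · exact three_rays_sorted D hD z p₃ p₁ p₂ q₃ q₁ q₂ h3 h1 h2 hq3 hq1 hq2 e3 e1 e2 o13 o12
  · rcases lt_or_gt_of_ne d13 with o13 | o13
    · exact three_rays_sorted D hD z p₂ p₁ p₃ q₂ q₁ q₃ h2 h1 h3 hq2 hq1 hq3 e2 e1 e3 o12 o13
    · exact three_rays_sorted D hD z p₂ p₃ p₁ q₂ q₃ q₁ h2 h3 h1 hq2 hq3 hq1 e2 e3 e1 o23 o13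
  · exact three_rays_sorted D hD z p₃ p₂ p₁ q₃ q₂ q₁ h3 h2 h1 hq3 hq2 hq1 e3 e2 e1 o23 o12

end Helper171
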