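import Pool.Agent.helper171_blk.Basic

/-! Chart of a red line, basics. -/

namespace Helper171
open Finset Classical

theorem DC_inj {ι κ : Type*} [Fintype ι] [Fintype κ] (C : Conf ι κ) (j : κ) (i i' : ι) (h : (DC C j).a i = (DC C j).a i')
    (h' : (DC C j).c i = (DC C j).c i') : i = i' := by
  have h1 : (1 : ℝ) / (C.A.a i - C.R.a j) = 1 / (C.A.a i' - C.R.a j) := h'
  apply C.ha
  rw [one_div, one_div] at h1
  have h2 := inv_injective h1
  linarith

theorem Ph_injOn {ι κ : Type*} [Fintype ι] [Fintype κ] (C : Conf ι κ) (j : κ) : Set.InjOn (Ph C j) {z | ht C j z ≠ 0} := by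
  intro z hz w hw h
  have hz' : ht C j z ≠ 0 := hz
  have hw' : ht C j w ≠ 0 := hw
  have h1 : (1 : ℝ) / ht C j z = 1 / ht C j w := congrArg Prod.fst h
  have h2 : z.1 / ht C j z = w.1 / ht C j w := congrArg Prod.snd h
  have h3 : ht C j z = ht C j w := by
    rw [one_div, one_div] at h1
    exact inv_injective h1
  rw [h3] at h2
  have h4 : z.1 = w.1 := by
    field_simp at h2
    exact h2
  have h5 : z.2 = w.2 := by
    unfold ht at h3
    rw [h4] at h3
    linarith
  exact Prod.ext h4 h5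

theorem val_eq_iff {ι κ : Type*} [Fintype ι] [Fintype κ] (C : Conf ι κ) (j : κ) (i : ι) (y : ℝ) :
    C.A.val i y = C.R.val j y ↔ (DC C j).a i = y := by
  have hd : C.A.a i - C.R.a j ≠ 0 := sub_ne_zero.mpr (C.har i j)
  unfold DC Arr.xr Arr.val
  simp only
  rw [div_eq_iff hd]
  constructor
  · intro h; linarith
  · intro h; linarith

theorem L_Ph {ι κ : Type*} [Fintype ι] [Fintype κ] (C : Conf ι κ) (j : κ) (z : ℝ × ℝ)
    (hz : ht C j z ≠ 0) : (DC C j).L (Ph C j z) = C.A.L z := by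
  ext i
  rw [mem_L, mem_L]
  have hd : C.A.a i - C.R.a j ≠ 0 := sub_ne_zero.mpr (C.har i j)
  have e : (DC C j).val i (Ph C j z).1 - (Ph C j z).2
      = (z.2 - C.A.val i z.1) / ((C.A.a i - C.R.a j) * ht C j z) := by
    unfold DC Ph Arr.val Arr.xr
    simp only
    field_simp
    unfold ht Arr.val
    ring
  have hm : (C.A.a i - C.R.a j) * ht C j z ≠ 0 := mul_ne_zero hd hz
  constructor
  · intro h
    have : (z.2 - C.A.val i z.1) / ((C.A.a i - C.R.a j) * ht C j z) = 0 := by
      rw [← e]; linarith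
    rw [div_eq_zero_iff] at this
    rcases this with h1 | h1
    · linarith
    · exact absurd h1 hm
  · intro h
    have : (z.2 - C.A.val i z.1) / ((C.A.a i - C.R.a j) * ht C j z) = 0 := by
      rw [h]; simp
    rw [← e] at this
    linarith

theorem cross_fst_inj {ι κ : Type*} [Fintype ι] [Fintype κ] (C : Conf ι κ) (j : κ) :
    Set.InjOn Prod.fst (C.A.Cross C.R j : Set (ℝ × ℝ)) := by
  intro x hx y hy h
  rw [Finset.mem_coe, mem_Cross _ _ C.har] at hx hy
  apply Prod.ext h
  rw [← hx.1, ← hy.1]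
  have h' : x.1 = y.1 := h
  rw [h']

theorem slopes_eq {ι κ : Type*} [Fintype ι] [Fintype κ] (C : Conf ι κ) (j : κ) :
    slopes (DC C j) = (C.A.Cross C.R j).image Prod.fst := by
  unfold slopes Arr.Cross
  rw [Finset.image_image]
  rfl

theorem mult_eq {ι κ : Type*} [Fintype ι] [Fintype κ] (C : Conf ι κ) (j : κ) (P : ℝ × ℝ)
    (hP : P ∈ C.A.Cross C.R j) : mult (DC C j) P.1 = C.A.b P := by
  rw [mem_Cross _ _ C.har] at hP
  unfold mult Arr.b Arr.L
  congr 1
  apply Finset.filter_congr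
  intro i _
  rw [← hP.1]
  exact (val_eq_iff C j i P.1).symm

theorem slopes_card {ι κ : Type*} [Fintype ι] [Fintype κ] (C : Conf ι κ) (j : κ) :
    (slopes (DC C j)).card = (C.Sel j).card + (C.Non j).card := by
  rw [slopes_eq, Finset.card_image_of_injOn (cross_fst_inj C j)]
  unfold Conf.Non
  have := Finset.card_sdiff_add_card_eq_card (Sel_subset C j)
  omega

theorem sum_min_mult {ι κ : Type*} [Fintype ι] [Fintype κ] (C : Conf ι κ) (j : κ) :
    ∑ y ∈ slopes (DC C j), min 2 (mult (DC C j) y) ≤ 2 * (C.Sel j).card + ∑ y ∈ C.Non j, C.A.b y := by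
  rw [slopes_eq, Finset.sum_image (cross_fst_inj C j)]
  rw [← Finset.sum_sdiff (Sel_subset C j)]
  rw [add_comm]
  apply Nat.add_le_add
  · calc ∑ x ∈ C.Sel j, min 2 (mult (DC C j) x.1) ≤ ∑ x ∈ C.Sel j, 2 :=
          Finset.sum_le_sum fun x _ => min_le_left _ _
      _ = 2 * (C.Sel j).card := by rw [Finset.sum_const, smul_eq_mul, mul_comm]
  · unfold Conf.Non
    apply Finset.sum_le_sum
    intro x hx
    rw [← mult_eq C j x (Finset.mem_sdiff.mp hx).1]
    exact min_le_right _ _

end Helper171
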