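import Pool.Agent.helper171_blk.Basic
import Pool.Agent.helper171_blk.JM

/-! Adjacent vertices give free rays. -/

namespace Helper171
open Finset Classical

theorem free_of_adj_val {ι κ : Type*} [Fintype ι] [Fintype κ] (C : Conf ι κ) (j : κ) (p q : ι)
    (w : ℝ × ℝ) (hw : C.R.val j w.1 = w.2) (hpw : C.A.val p w.1 = w.2) (u : ℝ) (d : ℝ)
    (hd : d ≠ 0) (hq : C.A.val q (w.1 + d) = C.A.val p (w.1 + d)) :
    (DC C j).val q u - (DC C j).val p u =
      ((DC C j).a q - (DC C j).a p) * (u - 1 / ((C.A.a p - C.R.a j) * d)) := by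
  have hap : C.A.a p - C.R.a j ≠ 0 := sub_ne_zero.2 (C.har p j)
  have haq : C.A.a q - C.R.a j ≠ 0 := sub_ne_zero.2 (C.har q j)
  simp only [Arr.val] at hw hpw hq
  have hsp : (DC C j).a p = w.1 := by
    simp only [DC, Arr.xr]
    rw [div_eq_iff hap]
    linear_combination hw - hpw
  have hsq : (DC C j).a q - w.1 = (C.A.a q - C.A.a p) * d / (C.A.a q - C.R.a j) := by
    simp only [DC, Arr.xr]
    rw [eq_div_iff haq, sub_mul, div_mul_cancel₀ _ haq]
    linear_combination hw - hpw - hq
  simp only [Arr.val]
  rw [hsp]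
  have h1 : (DC C j).c q = 1 / (C.A.a q - C.R.a j) := rfl
  have h2 : (DC C j).c p = 1 / (C.A.a p - C.R.a j) := rfl
  have h3 : ((DC C j).a q - w.1) * (1 / ((C.A.a p - C.R.a j) * d)) =
      1 / (C.A.a p - C.R.a j) - 1 / (C.A.a q - C.R.a j) := by
    rw [hsq]
    field_simp
    ring
  rw [h1, h2]
  linear_combination h3

theorem free_of_adj_sign (w z : ℝ) (S : Set ℝ) (hwz : z ≠ w)
    (h : (∀ y ∈ S, ¬ (min w z < y ∧ y < max w z)) ∨ (∀ y ∈ S, min w z ≤ y ∧ y ≤ max w z)) :
    (∀ y ∈ S, y ≠ w → 1 / (y - w) ≤ 1 / (z - w)) ∨ (∀ y ∈ S, y ≠ w → 1 / (z - w) ≤ 1 / (y - w)) := by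
  rcases lt_or_gt_of_ne hwz with hlt | hgt
  · -- z < w
    have hmin : min w z = z := min_eq_right hlt.le
    have hmax : max w z = w := max_eq_left hlt.le
    rw [hmin, hmax] at h
    rcases h with h | h
    · right
      intro y hy hyw
      have := h y hy
      rcases lt_or_gt_of_ne hyw with h1 | h1
      · -- y < w , so y ≤ z
        have hyz : y ≤ z := by
          by_contra hc
          exact this ⟨not_le.1 hc, h1⟩
        have ha : y - w < 0 := by linarith
        have hb : z - w < 0 := by linarith
        rw [one_div_le_one_div_of_neg hb ha]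
        linarith
      · have ha : 0 < 1 / (y - w) := by
          apply one_div_pos.2; linarith
        have hb : 1 / (z - w) < 0 := by
          apply one_div_neg.2; linarith
        linarith
    · left
      intro y hy hyw
      have := h y hy
      have ha : y - w < 0 := by
        have := lt_of_le_of_ne this.2 hyw
        linarith
      have hb : z - w < 0 := by linarith
      rw [one_div_le_one_div_of_neg ha hb]
      linarith [this.1]
  · have hmin : min w z = w := min_eq_left hgt.le
    have hmax : max w z = z := max_eq_right hgt.le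
    rw [hmin, hmax] at h
    rcases h with h | h
    · left
      intro y hy hyw
      have := h y hy
      rcases lt_or_gt_of_ne hyw with h1 | h1
      · have ha : 1 / (y - w) < 0 := by
          apply one_div_neg.2; linarith
        have hb : 0 < 1 / (z - w) := by
          apply one_div_pos.2; linarith
        linarith
      · have hyz : z ≤ y := by
          by_contra hc
          exact this ⟨h1, not_le.1 hc⟩
        apply one_div_le_one_div_of_le
        · linarith
        · linarith
    · right
      intro y hy hyw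
      have := h y hy
      have ha : 0 < y - w := by
        have := lt_of_le_of_ne this.1 (Ne.symm hyw)
        linarith
      apply one_div_le_one_div_of_le ha
      linarith [this.2]

theorem free_of_adj {ι κ : Type*} [Fintype ι] [Fintype κ] (C : Conf ι κ) (j : κ) (p : ι) (w z : ℝ × ℝ)
    (h : Adj C p w z) (hw : C.ρ w = j) :
    ht C j z ≠ 0 ∧ (FreeR (DC C j) p (Ph C j z) ∨ FreeL (DC C j) p (Ph C j z)) := by
  obtain ⟨hwV, hzV, hne, hpw, hpz, hadj⟩ := h
  rw [mem_L] at hpw hpz
  have hρw : C.R.val j w.1 = w.2 := by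
    have := C.hρ w hwV
    rwa [hw] at this
  have hap : C.A.a p - C.R.a j ≠ 0 := sub_ne_zero.2 (C.har p j)
  have hpw' := hpw
  have hpz' := hpz
  have hρw' := hρw
  simp only [Arr.val] at hpw' hpz' hρw'
  have hz1 : z.1 ≠ w.1 := by
    intro h0
    apply hne
    ext
    · exact h0.symm
    · rw [← hpw', ← hpz', h0]
  have hz1' : z.1 - w.1 ≠ 0 := sub_ne_zero.2 hz1
  have hht : ht C j z = (C.A.a p - C.R.a j) * (z.1 - w.1) := by
    simp only [ht, Arr.val]
    linear_combination hpw' - hpz' - hρw'
  have hht0 : ht C j z ≠ 0 := by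
    rw [hht]
    exact mul_ne_zero hap hz1'
  refine ⟨hht0, ?_⟩
  have hsp : (DC C j).a p = w.1 := by
    simp only [DC, Arr.xr]
    rw [div_eq_iff hap]
    linear_combination hρw' - hpw'
  have hon : (DC C j).val p (Ph C j z).1 = (Ph C j z).2 := by
    have h2 : (DC C j).c p = 1 / (C.A.a p - C.R.a j) := rfl
    simp only [Arr.val, Ph]
    rw [hsp, h2, hht]
    field_simp
    ring
  -- the crossing of q and p
  have key : ∀ q, (DC C j).a q ≠ (DC C j).a p → ∃ y1 : ℝ, y1 ≠ w.1 ∧
      (y1, C.A.val p y1) ∈ C.A.V ∧ C.A.val q y1 = C.A.val p y1 := by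
    intro q hq
    have hqp : q ≠ p := by
      rintro rfl
      exact hq rfl
    have haqp : C.A.a p - C.A.a q ≠ 0 := sub_ne_zero.2 (fun h => hqp (C.ha h).symm)
    have hcross : C.A.val q (C.A.xr C.A p q) = C.A.val p (C.A.xr C.A p q) := by
      simp only [Arr.val, Arr.xr]
      field_simp
      ring
    refine ⟨C.A.xr C.A p q, ?_, ?_, hcross⟩
    · intro h0
      apply hq
      rw [hsp]
      simp only [DC, Arr.xr]
      have haq : C.A.a q - C.R.a j ≠ 0 := sub_ne_zero.2 (C.har q j)
      rw [div_eq_iff haq]
      rw [h0] at hcross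
      simp only [Arr.val] at hcross
      linear_combination hρw' - hpw' - hcross
    · unfold Arr.V
      rw [Finset.mem_image]
      refine ⟨(p, q), ?_, rfl⟩
      rw [Finset.mem_filter]
      exact ⟨Finset.mem_univ _, Ne.symm hqp⟩
  have hsign := free_of_adj_sign w.1 z.1 {y1 | (y1, C.A.val p y1) ∈ C.A.V} hz1 (by
    rcases hadj with h | h
    · left
      intro y hy
      exact h (y, C.A.val p y) hy (by rw [mem_L])
    · right
      intro y hy
      exact h (y, C.A.val p y) hy (by rw [mem_L]))
  have hdiff : ∀ q y1, y1 ≠ w.1 → C.A.val q y1 = C.A.val p y1 →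
      (DC C j).val q (Ph C j z).1 - (Ph C j z).2 = ((DC C j).a q - (DC C j).a p) *
        (1 / (C.A.a p - C.R.a j) * (1 / (z.1 - w.1) - 1 / (y1 - w.1))) := by
    intro q y1 hy1 hqy
    have h1 := free_of_adj_val C j p q w hρw hpw (Ph C j z).1 (y1 - w.1) (sub_ne_zero.2 hy1)
      (by rw [add_sub_cancel]; exact hqy)
    rw [hon] at h1
    rw [h1]
    have h2 : (Ph C j z).1 = 1 / ((C.A.a p - C.R.a j) * (z.1 - w.1)) := by
      simp only [Ph]
      rw [hht]
    rw [h2, one_div_mul_eq_div, sub_div, ← one_div_mul_one_div, ← one_div_mul_one_div]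
    ring
  rcases lt_or_gt_of_ne hap with hneg | hpos
  · have hneg' : 1 / (C.A.a p - C.R.a j) < 0 := one_div_neg.2 hneg
    rcases hsign with hs | hs
    · right
      refine ⟨hon, ?_, ?_⟩
      · intro q hq
        obtain ⟨y1, hy1, hyV, hyq⟩ := key q hq.ne
        have h1 := hdiff q y1 hy1 hyq
        have h2 := hs y1 hyV hy1
        have h3 : 0 ≤ ((DC C j).a q - (DC C j).a p) *
          (1 / (C.A.a p - C.R.a j) * (1 / (z.1 - w.1) - 1 / (y1 - w.1))) := by
          apply mul_nonneg_of_nonpos_of_nonpos
          · linarith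
          · exact mul_nonpos_of_nonpos_of_nonneg hneg'.le (by linarith)
        linarith
      · intro q hq
        obtain ⟨y1, hy1, hyV, hyq⟩ := key q hq.ne'
        have h1 := hdiff q y1 hy1 hyq
        have h2 := hs y1 hyV hy1
        have h3 : ((DC C j).a q - (DC C j).a p) *
          (1 / (C.A.a p - C.R.a j) * (1 / (z.1 - w.1) - 1 / (y1 - w.1))) ≤ 0 := by
          apply mul_nonpos_of_nonneg_of_nonpos
          · linarith
          · exact mul_nonpos_of_nonpos_of_nonneg hneg'.le (by linarith)
        linarith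
    · left
      refine ⟨hon, ?_, ?_⟩
      · intro q hq
        obtain ⟨y1, hy1, hyV, hyq⟩ := key q hq.ne
        have h1 := hdiff q y1 hy1 hyq
        have h2 := hs y1 hyV hy1
        have h3 : ((DC C j).a q - (DC C j).a p) *
          (1 / (C.A.a p - C.R.a j) * (1 / (z.1 - w.1) - 1 / (y1 - w.1))) ≤ 0 := by
          apply mul_nonpos_of_nonpos_of_nonneg
          · linarith
          · exact mul_nonneg_of_nonpos_of_nonpos hneg'.le (by linarith)
        linarith
      · intro q hq
        obtain ⟨y1, hy1, hyV, hyq⟩ := key q hq.ne'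
        have h1 := hdiff q y1 hy1 hyq
        have h2 := hs y1 hyV hy1
        have h3 : 0 ≤ ((DC C j).a q - (DC C j).a p) *
          (1 / (C.A.a p - C.R.a j) * (1 / (z.1 - w.1) - 1 / (y1 - w.1))) := by
          apply mul_nonneg
          · linarith
          · exact mul_nonneg_of_nonpos_of_nonpos hneg'.le (by linarith)
        linarith
  · have hpos' : 0 < 1 / (C.A.a p - C.R.a j) := one_div_pos.2 hpos
    rcases hsign with hs | hs
    · left
      refine ⟨hon, ?_, ?_⟩
      · intro q hq
        obtain ⟨y1, hy1, hyV, hyq⟩ := key q hq.ne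
        have h1 := hdiff q y1 hy1 hyq
        have h2 := hs y1 hyV hy1
        have h3 : ((DC C j).a q - (DC C j).a p) *
          (1 / (C.A.a p - C.R.a j) * (1 / (z.1 - w.1) - 1 / (y1 - w.1))) ≤ 0 := by
          apply mul_nonpos_of_nonpos_of_nonneg
          · linarith
          · exact mul_nonneg hpos'.le (by linarith)
        linarith
      · intro q hq
        obtain ⟨y1, hy1, hyV, hyq⟩ := key q hq.ne'
        have h1 := hdiff q y1 hy1 hyq
        have h2 := hs y1 hyV hy1
        have h3 : 0 ≤ ((DC C j).a q - (DC C j).a p) *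
          (1 / (C.A.a p - C.R.a j) * (1 / (z.1 - w.1) - 1 / (y1 - w.1))) := by
          apply mul_nonneg
          · linarith
          · exact mul_nonneg hpos'.le (by linarith)
        linarith
    · right
      refine ⟨hon, ?_, ?_⟩
      · intro q hq
        obtain ⟨y1, hy1, hyV, hyq⟩ := key q hq.ne
        have h1 := hdiff q y1 hy1 hyq
        have h2 := hs y1 hyV hy1
        have h3 : 0 ≤ ((DC C j).a q - (DC C j).a p) *
          (1 / (C.A.a p - C.R.a j) * (1 / (z.1 - w.1) - 1 / (y1 - w.1))) := by
          apply mul_nonneg_of_nonpos_of_nonpos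
          · linarith
          · exact mul_nonpos_of_nonneg_of_nonpos hpos'.le (by linarith)
        linarith
      · intro q hq
        obtain ⟨y1, hy1, hyV, hyq⟩ := key q hq.ne'
        have h1 := hdiff q y1 hy1 hyq
        have h2 := hs y1 hyV hy1
        have h3 : ((DC C j).a q - (DC C j).a p) *
          (1 / (C.A.a p - C.R.a j) * (1 / (z.1 - w.1) - 1 / (y1 - w.1))) ≤ 0 := by
          apply mul_nonpos_of_nonneg_of_nonpos
          · linarith
          · exact mul_nonpos_of_nonneg_of_nonpos hpos'.le (by linarith)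
        linarith

end Helper171
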