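import Pool.Agent.helper171_blk.Basic

/-! Cyclic neighbours on a line. -/

namespace Helper171
open Finset Classical

theorem adj_aux_sub {ι κ : Type*} [Fintype ι] [Fintype κ] (C : Conf ι κ) (p : ι)
    {x y : ℝ × ℝ} (hx : p ∈ C.A.L x) (hy : p ∈ C.A.L y) (h : x.1 = y.1) : x = y := by
  rw [mem_L] at hx hy
  apply Prod.ext h
  rw [← hx, ← hy, h]

theorem adj_succ {ι κ : Type*} [Fintype ι] [Fintype κ] (C : Conf ι κ) (p : ι) (z : ℝ × ℝ)
    (hz : z ∈ C.A.V) (hp : p ∈ C.A.L z) (h3 : 3 ≤ (C.A.V.filter fun y => p ∈ C.A.L y).card) :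
    ∃ w, Adj C p w z ∧ ((z.1 < w.1 ∧ ∀ y ∈ C.A.V, p ∈ C.A.L y → z.1 < y.1 → w.1 ≤ y.1) ∨
      ∀ y ∈ C.A.V, p ∈ C.A.L y → w.1 ≤ y.1 ∧ y.1 ≤ z.1) := by
  set Y := C.A.V.filter fun y => p ∈ C.A.L y with hY
  have hmem : ∀ y, y ∈ Y ↔ y ∈ C.A.V ∧ p ∈ C.A.L y := fun y => by rw [hY, mem_filter]
  have hzY : z ∈ Y := (hmem z).2 ⟨hz, hp⟩
  by_cases hne : (Y.filter fun y => z.1 < y.1).Nonempty
  · obtain ⟨w, hw, hmin⟩ := exists_min_image _ (fun y : ℝ × ℝ => y.1) hne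
    rw [mem_filter, hmem] at hw
    have hmin' : ∀ y ∈ C.A.V, p ∈ C.A.L y → z.1 < y.1 → w.1 ≤ y.1 := fun y hy hpy hzy =>
      hmin y (mem_filter.2 ⟨(hmem y).2 ⟨hy, hpy⟩, hzy⟩)
    refine ⟨w, ⟨hw.1.1, hz, ?_, hw.1.2, hp, Or.inl ?_⟩, Or.inl ⟨hw.2, hmin'⟩⟩
    · rintro rfl; exact lt_irrefl _ hw.2
    · intro y hy hpy
      rw [min_eq_right hw.2.le, max_eq_left hw.2.le]
      rintro ⟨h1, h2⟩
      exact absurd (hmin' y hy hpy h1) (not_le.2 h2)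
  · have hmax : ∀ y ∈ C.A.V, p ∈ C.A.L y → y.1 ≤ z.1 := by
      intro y hy hpy
      by_contra hcon
      exact hne ⟨y, mem_filter.2 ⟨(hmem y).2 ⟨hy, hpy⟩, not_le.1 hcon⟩⟩
    obtain ⟨w, hw, hmin⟩ := exists_min_image Y (fun y : ℝ × ℝ => y.1) ⟨z, hzY⟩
    rw [hmem] at hw
    have hmin' : ∀ y ∈ C.A.V, p ∈ C.A.L y → w.1 ≤ y.1 := fun y hy hpy =>
      hmin y ((hmem y).2 ⟨hy, hpy⟩)
    have hwz : w ≠ z := by
      rintro rfl
      have hsub : Y ⊆ {w} := by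
        intro y hy
        rw [hmem] at hy
        rw [mem_singleton]
        exact adj_aux_sub C p hy.2 hp (le_antisymm (hmax y hy.1 hy.2) (hmin' y hy.1 hy.2))
      have := card_le_card hsub
      rw [card_singleton] at this
      omega
    have hwz1 : w.1 ≤ z.1 := hmax w hw.1 hw.2
    refine ⟨w, ⟨hw.1, hz, hwz, hw.2, hp, Or.inr ?_⟩, Or.inr fun y hy hpy =>
      ⟨hmin' y hy hpy, hmax y hy hpy⟩⟩
    intro y hy hpy
    rw [min_eq_left hwz1, max_eq_right hwz1]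
    exact ⟨hmin' y hy hpy, hmax y hy hpy⟩

theorem adj_pred {ι κ : Type*} [Fintype ι] [Fintype κ] (C : Conf ι κ) (p : ι) (z : ℝ × ℝ)
    (hz : z ∈ C.A.V) (hp : p ∈ C.A.L z) (h3 : 3 ≤ (C.A.V.filter fun y => p ∈ C.A.L y).card) :
    ∃ w, Adj C p w z ∧ ((w.1 < z.1 ∧ ∀ y ∈ C.A.V, p ∈ C.A.L y → y.1 < z.1 → y.1 ≤ w.1) ∨
      ∀ y ∈ C.A.V, p ∈ C.A.L y → z.1 ≤ y.1 ∧ y.1 ≤ w.1) := by
  set Y := C.A.V.filter fun y => p ∈ C.A.L y with hY
  have hmem : ∀ y, y ∈ Y ↔ y ∈ C.A.V ∧ p ∈ C.A.L y := fun y => by rw [hY, mem_filter]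
  have hzY : z ∈ Y := (hmem z).2 ⟨hz, hp⟩
  by_cases hne : (Y.filter fun y => y.1 < z.1).Nonempty
  · obtain ⟨w, hw, hmin⟩ := exists_max_image _ (fun y : ℝ × ℝ => y.1) hne
    rw [mem_filter, hmem] at hw
    have hmin' : ∀ y ∈ C.A.V, p ∈ C.A.L y → y.1 < z.1 → y.1 ≤ w.1 := fun y hy hpy hzy =>
      hmin y (mem_filter.2 ⟨(hmem y).2 ⟨hy, hpy⟩, hzy⟩)
    refine ⟨w, ⟨hw.1.1, hz, ?_, hw.1.2, hp, Or.inl ?_⟩, Or.inl ⟨hw.2, hmin'⟩⟩
    · rintro rfl; exact lt_irrefl _ hw.2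
    · intro y hy hpy
      rw [min_eq_left hw.2.le, max_eq_right hw.2.le]
      rintro ⟨h1, h2⟩
      exact absurd (hmin' y hy hpy h2) (not_le.2 h1)
  · have hmax : ∀ y ∈ C.A.V, p ∈ C.A.L y → z.1 ≤ y.1 := by
      intro y hy hpy
      by_contra hcon
      exact hne ⟨y, mem_filter.2 ⟨(hmem y).2 ⟨hy, hpy⟩, not_le.1 hcon⟩⟩
    obtain ⟨w, hw, hmin⟩ := exists_max_image Y (fun y : ℝ × ℝ => y.1) ⟨z, hzY⟩
    rw [hmem] at hw
    have hmin' : ∀ y ∈ C.A.V, p ∈ C.A.L y → y.1 ≤ w.1 := fun y hy hpy =>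
      hmin y ((hmem y).2 ⟨hy, hpy⟩)
    have hwz : w ≠ z := by
      rintro rfl
      have hsub : Y ⊆ {w} := by
        intro y hy
        rw [hmem] at hy
        rw [mem_singleton]
        exact adj_aux_sub C p hy.2 hp (le_antisymm (hmin' y hy.1 hy.2) (hmax y hy.1 hy.2))
      have := card_le_card hsub
      rw [card_singleton] at this
      omega
    have hwz1 : z.1 ≤ w.1 := hmax w hw.1 hw.2
    refine ⟨w, ⟨hw.1, hz, hwz, hw.2, hp, Or.inr ?_⟩, Or.inr fun y hy hpy =>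
      ⟨hmax y hy hpy, hmin' y hy hpy⟩⟩
    intro y hy hpy
    rw [min_eq_right hwz1, max_eq_left hwz1]
    exact ⟨hmax y hy hpy, hmin' y hy hpy⟩

theorem two_le_adj {ι κ : Type*} [Fintype ι] [Fintype κ] (C : Conf ι κ) (p : ι) (z : ℝ × ℝ)
    (hz : z ∈ C.A.V) (hp : p ∈ C.A.L z) (h3 : 3 ≤ (C.A.V.filter fun y => p ∈ C.A.L y).card) :
    2 ≤ (C.A.V.filter fun w => Adj C p w z).card := by
  obtain ⟨w, hw, h1⟩ := adj_succ C p z hz hp h3
  obtain ⟨w', hw', h2⟩ := adj_pred C p z hz hp h3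
  have hsub2 : ∀ u v : ℝ × ℝ, ¬ (C.A.V.filter fun y => p ∈ C.A.L y) ⊆ {u, v} := by
    intro u v hsub
    have := (card_le_card hsub).trans card_le_two
    omega
  have hne : w ≠ w' := by
    rintro rfl
    have hpw : p ∈ C.A.L w := hw.2.2.2.1
    rcases h1 with ⟨h1, h1'⟩ | h1
    · rcases h2 with ⟨h2, h2'⟩ | h2
      · exact absurd h1 h2.le.not_gt
      · apply hsub2 z w
        intro y hy
        rw [mem_filter] at hy
        rw [mem_insert, mem_singleton]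
        rcases (h2 y hy.1 hy.2).1.eq_or_lt with h | h
        · left; exact adj_aux_sub C p hy.2 hp h.symm
        · right
          exact adj_aux_sub C p hy.2 hpw (le_antisymm (h2 y hy.1 hy.2).2 (h1' y hy.1 hy.2 h))
    · rcases h2 with ⟨h2, h2'⟩ | h2
      · apply hsub2 z w
        intro y hy
        rw [mem_filter] at hy
        rw [mem_insert, mem_singleton]
        rcases (h1 y hy.1 hy.2).2.eq_or_lt with h | h
        · left; exact adj_aux_sub C p hy.2 hp h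
        · right
          exact adj_aux_sub C p hy.2 hpw (le_antisymm (h2' y hy.1 hy.2 h) (h1 y hy.1 hy.2).1)
      · apply hsub2 z z
        intro y hy
        rw [mem_filter] at hy
        rw [mem_insert, mem_singleton]
        left
        exact adj_aux_sub C p hy.2 hp (le_antisymm (h1 y hy.1 hy.2).2 (h2 y hy.1 hy.2).1)
  have hss : ({w, w'} : Finset (ℝ × ℝ)) ⊆ C.A.V.filter fun w => Adj C p w z := by
    intro u hu
    rw [mem_insert, mem_singleton] at hu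
    rw [mem_filter]
    rcases hu with rfl | rfl
    · exact ⟨hw.1, hw⟩
    · exact ⟨hw'.1, hw'⟩
  have := card_le_card hss
  rwa [card_pair hne] at this

end Helper171
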