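import Pool.Agent.helper171_blk.Basic
import Pool.Agent.helper171_blk.JL
import Pool.Agent.helper171_blk.JM
import Pool.Agent.helper171_blk.JN
import Pool.Agent.helper171_blk.JO

/-! A vertex is seen by at least b red lines. -/

namespace Helper171
open Finset Classical

/- auxiliary -/
theorem bleq_xr {ι κ : Type*} [Fintype ι] [Fintype κ] (C : Conf ι κ) (p : ι) (w : ℝ × ℝ) (hw : w ∈ C.A.V)
    (hp : p ∈ C.A.L w) : C.A.xr C.R p (C.ρ w) = w.1 := by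
  have h1 : C.A.a p * w.1 + C.A.c p = w.2 := (mem_L C.A w p).1 hp
  have h2 : C.R.a (C.ρ w) * w.1 + C.R.c (C.ρ w) = w.2 := C.hρ w hw
  have h3 : C.A.a p - C.R.a (C.ρ w) ≠ 0 := sub_ne_zero.2 (C.har p (C.ρ w))
  unfold Arr.xr
  rw [div_eq_iff h3]
  linarith

/- auxiliary -/
theorem bleq_uniq {ι κ : Type*} [Fintype ι] [Fintype κ] (C : Conf ι κ) (p : ι) (w w' : ℝ × ℝ) (hw : w ∈ C.A.V)
    (hw' : w' ∈ C.A.V) (hp : p ∈ C.A.L w) (hp' : p ∈ C.A.L w') (h : C.ρ w = C.ρ w') : w = w' := by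
  have h1 := bleq_xr C p w hw hp
  have h2 := bleq_xr C p w' hw' hp'
  rw [h, h2] at h1
  have h3 : C.A.a p * w.1 + C.A.c p = w.2 := (mem_L C.A w p).1 hp
  have h4 : C.A.a p * w'.1 + C.A.c p = w'.2 := (mem_L C.A w' p).1 hp'
  refine Prod.ext h1.symm ?_
  rw [← h3, ← h4, h1]

/- auxiliary -/
theorem bleq_other {ι κ : Type*} [Fintype ι] [Fintype κ] (C : Conf ι κ) (p : ι) (w : ℝ × ℝ) (hw : w ∈ C.A.V)
    (hp : p ∈ C.A.L w) : ∃ q, q ≠ p ∧ (DC C (C.ρ w)).a q = (DC C (C.ρ w)).a p := by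
  have h1 : 1 < (C.A.L w).card := (mem_V C.A C.ha w).1 hw
  obtain ⟨q, hq, hne⟩ := Finset.exists_mem_ne h1 p
  refine ⟨q, hne, ?_⟩
  show C.A.xr C.R q (C.ρ w) = C.A.xr C.R p (C.ρ w)
  rw [bleq_xr C p w hw hp, bleq_xr C q w hw hq]

theorem b_le_reds {ι κ : Type*} [Fintype ι] [Fintype κ] (C : Conf ι κ) (z : ℝ × ℝ) (hz : z ∈ C.A.V)
    (h3 : ∀ p ∈ C.A.L z, 3 ≤ (C.A.V.filter fun y => p ∈ C.A.L y).card) :
    C.A.b z ≤ (reds C z).card := by
  set P : Finset (ι × (ℝ × ℝ)) := (C.A.L z ×ˢ C.A.V).filter (fun pw => Adj C pw.1 pw.2 z) with hP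
  have hcard : P.card = ∑ p ∈ C.A.L z, (C.A.V.filter fun w => Adj C p w z).card := by
    rw [hP, Finset.card_filter, Finset.sum_product]
    refine Finset.sum_congr rfl (fun p _ => ?_)
    rw [Finset.card_filter]
  have hlow : 2 * C.A.b z ≤ P.card := by
    rw [hcard]
    have : (C.A.L z).card • 2 ≤ ∑ p ∈ C.A.L z, (C.A.V.filter fun w => Adj C p w z).card :=
      Finset.card_nsmul_le_sum _ _ _ (fun p hp => two_le_adj C p z hz hp (h3 p hp))
    rw [smul_eq_mul, mul_comm] at this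
    exact this
  have hup : P.card ≤ 2 * (reds C z).card := by
    refine Finset.card_le_mul_card_image_of_maps_to (f := fun pw : ι × (ℝ × ℝ) => C.ρ pw.2) ?_ 2 ?_
    · intro pw hpw
      rw [hP, Finset.mem_filter] at hpw
      exact Finset.mem_filter.2 ⟨Finset.mem_univ _, pw.1, pw.2, hpw.2, rfl⟩
    · intro j _
      by_contra hcon
      rw [not_le, Finset.two_lt_card_iff] at hcon
      obtain ⟨a, b, c, ha, hb, hc, hab, hac, hbc⟩ := hcon
      simp only [hP, Finset.mem_filter, Finset.mem_product] at ha hb hc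
      obtain ⟨⟨-, hda⟩, hja⟩ := ha
      obtain ⟨⟨-, hdb⟩, hjb⟩ := hb
      obtain ⟨⟨-, hdc⟩, hjc⟩ := hc
      have ne_of : ∀ x y : ι × (ℝ × ℝ), Adj C x.1 x.2 z → Adj C y.1 y.2 z → C.ρ x.2 = j → C.ρ y.2 = j →
          x ≠ y → x.1 ≠ y.1 := by
        intro x y hx hy hxj hyj hne h
        refine hne (Prod.ext h ?_)
        have hy' := hy.2.2.2.1
        rw [← h] at hy'
        exact bleq_uniq C x.1 x.2 y.2 hx.1 hy.1 hx.2.2.2.1 hy' (hxj.trans hyj.symm)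
      obtain ⟨q1, hq1, e1⟩ := bleq_other C a.1 a.2 hda.1 hda.2.2.2.1
      obtain ⟨q2, hq2, e2⟩ := bleq_other C b.1 b.2 hdb.1 hdb.2.2.2.1
      obtain ⟨q3, hq3, e3⟩ := bleq_other C c.1 c.2 hdc.1 hdc.2.2.2.1
      rw [hja] at e1
      rw [hjb] at e2
      rw [hjc] at e3
      exact three_rays (DC C j) (DC_inj C j) (Ph C j z) a.1 b.1 c.1 q1 q2 q3
        (free_of_adj C j a.1 a.2 z hda hja).2 (free_of_adj C j b.1 b.2 z hdb hjb).2
        (free_of_adj C j c.1 c.2 z hdc hjc).2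
        (ne_of a b hda hdb hja hjb hab) (ne_of a c hda hdc hja hjc hac) (ne_of b c hdb hdc hjb hjc hbc)
        hq1 hq2 hq3 e1 e2 e3
  omega

end Helper171
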