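import Pool.Agent.helper171_blk.Basic

/-! Events on a line, types 1 and 3. -/

namespace Helper171
open Finset Classical

theorem evt_count {ι P : Type*} [Fintype ι] (T : ι → Finset P) (H : Finset P)
    (hT : ∀ q, T q ⊆ H) (ki kii : ι → P → Prop) (h : ∀ q, ∀ z ∈ T q, ki q z ∨ kii q z)
    (h1 : ∀ q q' z, z ∈ T q → z ∈ T q' → ki q z → ki q' z → q = q')
    (h2 : ∀ q z z', z ∈ T q → z' ∈ T q → kii q z → kii q z' → z = z') :
    ∑ q, (T q).card ≤ H.card + (univ.filter fun q => (T q).Nonempty).card := by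
  rw [← Finset.card_sigma]
  have hsub : (univ.sigma T : Finset (Σ _ : ι, P)) ⊆
      ((univ.sigma T).filter fun x => ki x.1 x.2) ∪ ((univ.sigma T).filter fun x => kii x.1 x.2) := by
    intro x hx
    rw [Finset.mem_union, Finset.mem_filter, Finset.mem_filter]
    rcases h x.1 x.2 (Finset.mem_sigma.1 hx).2 with h | h
    · exact Or.inl ⟨hx, h⟩
    · exact Or.inr ⟨hx, h⟩
  refine (Finset.card_le_card hsub).trans ((Finset.card_union_le _ _).trans (add_le_add ?_ ?_))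
  · refine Finset.card_le_card_of_injOn (fun x => x.2) ?_ ?_
    · intro x hx
      rw [Finset.mem_coe, Finset.mem_filter, Finset.mem_sigma] at hx
      exact Finset.mem_coe.2 (hT x.1 hx.1.2)
    · rintro ⟨q, z⟩ hx ⟨q', z'⟩ hy hxy
      rw [Finset.mem_coe, Finset.mem_filter, Finset.mem_sigma] at hx hy
      simp only at hxy hx hy
      subst hxy
      rw [h1 q q' z hx.1.2 hy.1.2 hx.2 hy.2]
  · refine Finset.card_le_card_of_injOn (fun x => x.1) ?_ ?_
    · intro x hx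
      rw [Finset.mem_coe, Finset.mem_filter, Finset.mem_sigma] at hx
      rw [Finset.mem_coe, Finset.mem_filter]
      exact ⟨Finset.mem_univ _, x.2, hx.1.2⟩
    · rintro ⟨q, z⟩ hx ⟨q', z'⟩ hy hxy
      rw [Finset.mem_coe, Finset.mem_filter, Finset.mem_sigma] at hx hy
      simp only at hxy hx hy
      subst hxy
      rw [h2 q z z' hx.1.2 hy.1.2 hx.2 hy.2]

/-- two lines through a common point with the same slope are equal -/
theorem evt_line {ι : Type*} [Fintype ι] (K : Chart ι) {q q' : ι} {z : ℝ × ℝ}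
    (h : K.D.val q z.1 = z.2) (h' : K.D.val q' z.1 = z.2) (ha : K.D.a q = K.D.a q') : q = q' := by
  refine K.hD q q' ha ?_
  simp only [Arr.val] at h h'
  rw [ha] at h
  linarith

theorem mem_T1' {ι : Type*} [Fintype ι] (K : Chart ι) (q : ι) (z : ℝ × ℝ) :
    z ∈ T1 K q ↔ z ∈ K.Hr ∧ K.D.val q z.1 = z.2 ∧ K.D.a q < K.D.a (K.p z) := by
  simp [T1]

theorem mem_T3' {ι : Type*} [Fintype ι] (K : Chart ι) (q : ι) (z : ℝ × ℝ) :
    z ∈ T3 K q ↔ z ∈ K.Hr ∧ K.D.val q z.1 = z.2 ∧ K.D.a (K.p z) < K.D.a q := by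
  simp [T3]

theorem sum_T1 {ι : Type*} [Fintype ι] (K : Chart ι) :
    ∑ q, (T1 K q).card ≤ K.Hr.card + (Q1 K).card := by
  refine evt_count (T1 K) K.Hr (fun q => Finset.filter_subset _ _)
    (fun q z => ∀ q', K.D.val q' z.1 = z.2 → K.D.a q ≤ K.D.a q')
    (fun q z => ∀ z' ∈ T1 K q, z.1 ≤ z'.1) ?_ ?_ ?_
  · intro q z hz
    by_cases h : ∀ q', K.D.val q' z.1 = z.2 → K.D.a q ≤ K.D.a q'
    · exact Or.inl h
    · right
      push Not at h
      obtain ⟨q', hq', hlt⟩ := h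
      intro z' hz'
      by_contra hcon
      push Not at hcon
      rw [mem_T1'] at hz hz'
      have hF := (K.hr z' hz'.1).2.1 q' (hlt.trans hz'.2.2)
      have h1 := hz.2.1
      have h2 := hz'.2.1
      simp only [Arr.val] at hF h1 h2 hq'
      nlinarith [mul_pos (sub_pos.2 hlt) (sub_pos.2 hcon)]
  · intro q q' z hz hz' h1 h2
    rw [mem_T1'] at hz hz'
    exact evt_line K hz.2.1 hz'.2.1 (le_antisymm (h1 q' hz'.2.1) (h2 q hz.2.1))
  · intro q z z' hz hz' h1 h2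
    have h3 : z.1 = z'.1 := le_antisymm (h1 z' hz') (h2 z hz)
    rw [mem_T1'] at hz hz'
    refine Prod.ext h3 ?_
    rw [← hz.2.1, ← hz'.2.1, h3]

theorem sum_T3 {ι : Type*} [Fintype ι] (K : Chart ι) :
    ∑ q, (T3 K q).card ≤ K.Hr.card + (Q3 K).card := by
  refine evt_count (T3 K) K.Hr (fun q => Finset.filter_subset _ _)
    (fun q z => ∀ q', K.D.val q' z.1 = z.2 → K.D.a q' ≤ K.D.a q)
    (fun q z => ∀ z' ∈ T3 K q, z.1 ≤ z'.1) ?_ ?_ ?_
  · intro q z hz
    by_cases h : ∀ q', K.D.val q' z.1 = z.2 → K.D.a q' ≤ K.D.a q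
    · exact Or.inl h
    · right
      push Not at h
      obtain ⟨q', hq', hlt⟩ := h
      intro z' hz'
      by_contra hcon
      push Not at hcon
      rw [mem_T3'] at hz hz'
      have hF := (K.hr z' hz'.1).2.2 q' (hz'.2.2.trans hlt)
      have h1 := hz.2.1
      have h2 := hz'.2.1
      simp only [Arr.val] at hF h1 h2 hq'
      nlinarith [mul_pos (sub_pos.2 hlt) (sub_pos.2 hcon)]
  · intro q q' z hz hz' h1 h2
    rw [mem_T3'] at hz hz'
    exact evt_line K hz.2.1 hz'.2.1 (le_antisymm (h2 q hz.2.1) (h1 q' hz'.2.1))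
  · intro q z z' hz hz' h1 h2
    have h3 : z.1 = z'.1 := le_antisymm (h1 z' hz') (h2 z hz)
    rw [mem_T3'] at hz hz'
    refine Prod.ext h3 ?_
    rw [← hz.2.1, ← hz'.2.1, h3]

theorem Q13 {ι : Type*} [Fintype ι] (K : Chart ι) : Disjoint (Q1 K) (Q3 K) := by
  rw [Finset.disjoint_left]
  intro q h1 h3
  rw [Q1, Finset.mem_filter] at h1
  rw [Q3, Finset.mem_filter] at h3
  obtain ⟨z, hz⟩ := h1.2
  obtain ⟨z', hz'⟩ := h3.2
  rw [mem_T1'] at hz
  rw [mem_T3'] at hz'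
  have e1 := K.hr z hz.1
  have e2 := K.hr z' hz'.1
  have hlt := hz'.2.2.trans hz.2.2
  have f1 := e1.2.1 (K.p z') hlt
  have f2 := e2.2.2 (K.p z) hlt
  have g1 := e1.1
  have g2 := e2.1
  have k1 := hz.2.1
  have k2 := hz'.2.1
  have l1 := hz.2.2
  have l2 := hz'.2.2
  have heq : z.1 = z'.1 := by
    simp only [Arr.val] at f1 f2 g1 g2 k1 k2
    rcases lt_trichotomy z.1 z'.1 with h | h | h
    · exfalso
      nlinarith [mul_pos (sub_pos.2 l2) (sub_pos.2 h)]
    · exact h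
    · exfalso
      nlinarith [mul_pos (sub_pos.2 l1) (sub_pos.2 h)]
  have hzz : z = z' := by
    refine Prod.ext heq ?_
    rw [← k1, ← k2, heq]
  subst hzz
  exact lt_irrefl _ hlt

end Helper171
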