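import Pool.Agent.helper171_blk.Basic

/-! Events on a line, types 2 and 4. -/

namespace Helper171
open Finset Classical

theorem JH2_count {ι : Type*} [Fintype ι] (H : Finset (ℝ × ℝ)) (T : ι → Finset (ℝ × ℝ))
    (ex : ι → ℝ × ℝ → Prop) (hsub : ∀ q, T q ⊆ H)
    (h1 : ∀ q z z', z ∈ T q → z' ∈ T q → ex q z → ex q z' → z = z')
    (h2 : ∀ z q q', z ∈ T q → z ∈ T q' → ¬ ex q z → ¬ ex q' z → q = q') :
    ∑ q, (T q).card ≤ H.card + (univ.filter fun q => (T q).Nonempty).card := by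
  have h3 : ∀ q, (T q).card = ((T q).filter fun z => ¬ ex q z).card +
      ((T q).filter fun z => ex q z).card := by
    intro q
    rw [add_comm]
    exact (Finset.card_filter_add_card_filter_not (s := T q) (fun z => ex q z)).symm
  rw [Finset.sum_congr rfl fun q _ => h3 q, Finset.sum_add_distrib]
  refine Nat.add_le_add ?_ ?_
  · rw [← Finset.card_biUnion]
    · refine Finset.card_le_card ?_
      intro z hz
      rw [Finset.mem_biUnion] at hz
      obtain ⟨q, _, hq⟩ := hz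
      exact hsub q (Finset.mem_filter.1 hq).1
    · intro q _ q' _ hqq'
      change Disjoint _ _
      rw [Finset.disjoint_left]
      intro z hz hz'
      rw [Finset.mem_filter] at hz hz'
      exact hqq' (h2 z q q' hz.1 hz'.1 hz.2 hz'.2)
  · rw [Finset.card_filter]
    refine Finset.sum_le_sum fun q _ => ?_
    by_cases hq : (T q).Nonempty
    · rw [if_pos hq, Finset.card_le_one]
      intro z hz z' hz'
      rw [Finset.mem_filter] at hz hz'
      exact h1 q z z' hz.1 hz'.1 hz.2 hz'.2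
    · rw [Finset.not_nonempty_iff_eq_empty] at hq
      rw [hq, Finset.filter_empty, Finset.card_empty]
      exact Nat.zero_le _

theorem JH2_val_sub {ι : Type*} (D : Arr ι) (q q' : ι) (s s' : ℝ) (h : D.val q' s = D.val q s) :
    D.val q' s' - D.val q s' = (D.a q' - D.a q) * (s' - s) := by
  unfold Arr.val at *
  linear_combination h

theorem JH2_mem_T2 {ι : Type*} [Fintype ι] (K : Chart ι) (q : ι) (z : ℝ × ℝ) :
    z ∈ T2 K q ↔ z ∈ K.Hl ∧ K.D.val q z.1 = z.2 ∧ K.D.a (K.p z) < K.D.a q := by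
  unfold T2; rw [Finset.mem_filter]

theorem JH2_mem_T4 {ι : Type*} [Fintype ι] (K : Chart ι) (q : ι) (z : ℝ × ℝ) :
    z ∈ T4 K q ↔ z ∈ K.Hl ∧ K.D.val q z.1 = z.2 ∧ K.D.a q < K.D.a (K.p z) := by
  unfold T4; rw [Finset.mem_filter]

theorem JH2_eq_of_slope {ι : Type*} [Fintype ι] (K : Chart ι) {q q' : ι} {z : ℝ × ℝ}
    (h : K.D.val q z.1 = z.2) (h' : K.D.val q' z.1 = z.2) (ha : K.D.a q = K.D.a q') : q = q' := by
  refine K.hD q q' ha ?_
  unfold Arr.val at h h'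
  rw [ha] at h
  linarith

theorem sum_T2 {ι : Type*} [Fintype ι] (K : Chart ι) :
    ∑ q, (T2 K q).card ≤ K.Hl.card + (Q2 K).card := by
  have key : ∀ q z z', z ∈ T2 K q → z' ∈ T2 K q →
      (∃ q', K.D.val q' z.1 = z.2 ∧ K.D.a q < K.D.a q') → z'.1 ≤ z.1 := by
    rintro q z z' hz hz' ⟨q', hq', hlt⟩
    rw [JH2_mem_T2] at hz hz'
    by_contra hcon
    push Not at hcon
    have h1 := (K.hl z' hz'.1).2.2 q' (hz'.2.2.trans hlt)
    have h2 := JH2_val_sub K.D q q' z.1 z'.1 (by rw [hq', hz.2.1])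
    have h3 : 0 < (K.D.a q' - K.D.a q) * (z'.1 - z.1) :=
      mul_pos (sub_pos.2 hlt) (sub_pos.2 hcon)
    have h4 := hz'.2.1
    linarith
  refine JH2_count K.Hl (T2 K) (fun q z => ∃ q', K.D.val q' z.1 = z.2 ∧ K.D.a q < K.D.a q')
    (fun q => Finset.filter_subset _ _) ?_ ?_
  · intro q z z' hz hz' he he'
    have h1 : z.1 = z'.1 := le_antisymm (key q z' z hz' hz he') (key q z z' hz hz' he)
    rw [JH2_mem_T2] at hz hz'
    refine Prod.ext h1 ?_
    rw [← hz.2.1, ← hz'.2.1, h1]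
  · intro z q q' hz hz' he he'
    rw [JH2_mem_T2] at hz hz'
    refine JH2_eq_of_slope K hz.2.1 hz'.2.1 (le_antisymm ?_ ?_)
    · by_contra h
      push Not at h
      exact he' ⟨q, hz.2.1, h⟩
    · by_contra h
      push Not at h
      exact he ⟨q', hz'.2.1, h⟩

theorem sum_T4 {ι : Type*} [Fintype ι] (K : Chart ι) :
    ∑ q, (T4 K q).card ≤ K.Hl.card + (Q4 K).card := by
  have key : ∀ q z z', z ∈ T4 K q → z' ∈ T4 K q →
      (∃ q', K.D.val q' z.1 = z.2 ∧ K.D.a q' < K.D.a q) → z'.1 ≤ z.1 := by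
    rintro q z z' hz hz' ⟨q', hq', hlt⟩
    rw [JH2_mem_T4] at hz hz'
    by_contra hcon
    push Not at hcon
    have h1 := (K.hl z' hz'.1).2.1 q' (hlt.trans hz'.2.2)
    have h2 := JH2_val_sub K.D q q' z.1 z'.1 (by rw [hq', hz.2.1])
    have h3 : 0 < (K.D.a q - K.D.a q') * (z'.1 - z.1) :=
      mul_pos (sub_pos.2 hlt) (sub_pos.2 hcon)
    have h4 := hz'.2.1
    linarith
  refine JH2_count K.Hl (T4 K) (fun q z => ∃ q', K.D.val q' z.1 = z.2 ∧ K.D.a q' < K.D.a q)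
    (fun q => Finset.filter_subset _ _) ?_ ?_
  · intro q z z' hz hz' he he'
    have h1 : z.1 = z'.1 := le_antisymm (key q z' z hz' hz he') (key q z z' hz hz' he)
    rw [JH2_mem_T4] at hz hz'
    refine Prod.ext h1 ?_
    rw [← hz.2.1, ← hz'.2.1, h1]
  · intro z q q' hz hz' he he'
    rw [JH2_mem_T4] at hz hz'
    refine JH2_eq_of_slope K hz.2.1 hz'.2.1 (le_antisymm ?_ ?_)
    · by_contra h
      push Not at h
      exact he ⟨q', hz'.2.1, h⟩
    · by_contra h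
      push Not at h
      exact he' ⟨q, hz.2.1, h⟩

theorem Q24 {ι : Type*} [Fintype ι] (K : Chart ι) : Disjoint (Q2 K) (Q4 K) := by
  rw [Finset.disjoint_left]
  intro q h2 h4
  unfold Q2 at h2
  unfold Q4 at h4
  rw [Finset.mem_filter] at h2 h4
  obtain ⟨z, hz⟩ := h2.2
  obtain ⟨z', hz'⟩ := h4.2
  rw [JH2_mem_T2] at hz
  rw [JH2_mem_T4] at hz'
  have hf := K.hl z hz.1
  have hf' := K.hl z' hz'.1
  have hpp : K.D.a (K.p z) < K.D.a (K.p z') := hz.2.2.trans hz'.2.2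
  rcases lt_trichotomy z'.1 z.1 with h | h | h
  · have h1 := hf.2.2 (K.p z') hpp
    have h5 := JH2_val_sub K.D q (K.p z') z'.1 z.1 (by rw [hf'.1, hz'.2.1])
    have h6 : 0 < (K.D.a (K.p z') - K.D.a q) * (z.1 - z'.1) :=
      mul_pos (sub_pos.2 hz'.2.2) (sub_pos.2 h)
    have h7 := hz.2.1
    linarith
  · have h1 : z = z' := by
      refine Prod.ext h.symm ?_
      rw [← hz.2.1, ← hz'.2.1, h]
    rw [h1] at hpp
    exact lt_irrefl _ hpp
  · have h1 := hf'.2.1 (K.p z) hpp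
    have h5 := JH2_val_sub K.D q (K.p z) z.1 z'.1 (by rw [hf.1, hz.2.1])
    have h6 : 0 < (K.D.a q - K.D.a (K.p z)) * (z'.1 - z.1) :=
      mul_pos (sub_pos.2 hz.2.2) (sub_pos.2 h)
    have h7 := hz'.2.1
    linarith

theorem top_of_mem {ι : Type*} [Fintype ι] (K : Chart ι) (q q' : ι) (h : q ∈ Q1 K ∪ Q2 K)
    (ha : K.D.a q' = K.D.a q) : K.D.c q' ≤ K.D.c q := by
  rw [Finset.mem_union] at h
  rcases h with h | h
  · unfold Q1 at h
    rw [Finset.mem_filter] at h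
    obtain ⟨z, hz⟩ := h.2
    unfold T1 at hz
    rw [Finset.mem_filter] at hz
    have h1 := (K.hr z hz.1).2.1 q' (by rw [ha]; exact hz.2.2)
    have h2 := hz.2.1
    unfold Arr.val at h1 h2
    rw [ha] at h1
    linarith
  · unfold Q2 at h
    rw [Finset.mem_filter] at h
    obtain ⟨z, hz⟩ := h.2
    rw [JH2_mem_T2] at hz
    have h1 := (K.hl z hz.1).2.2 q' (by rw [ha]; exact hz.2.2)
    have h2 := hz.2.1
    unfold Arr.val at h1 h2
    rw [ha] at h1
    linarith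

theorem bot_of_mem {ι : Type*} [Fintype ι] (K : Chart ι) (q q' : ι) (h : q ∈ Q3 K ∪ Q4 K)
    (ha : K.D.a q' = K.D.a q) : K.D.c q ≤ K.D.c q' := by
  rw [Finset.mem_union] at h
  rcases h with h | h
  · unfold Q3 at h
    rw [Finset.mem_filter] at h
    obtain ⟨z, hz⟩ := h.2
    unfold T3 at hz
    rw [Finset.mem_filter] at hz
    have h1 := (K.hr z hz.1).2.2 q' (by rw [ha]; exact hz.2.2)
    have h2 := hz.2.1
    unfold Arr.val at h1 h2
    rw [ha] at h1
    linarith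
  · unfold Q4 at h
    rw [Finset.mem_filter] at h
    obtain ⟨z, hz⟩ := h.2
    rw [JH2_mem_T4] at hz
    have h1 := (K.hl z hz.1).2.1 q' (by rw [ha]; exact hz.2.2)
    have h2 := hz.2.1
    unfold Arr.val at h1 h2
    rw [ha] at h1
    linarith

theorem JH2_b_sub {ι : Type*} [Fintype ι] (K : Chart ι) {z : ℝ × ℝ}
    (h : K.D.val (K.p z) z.1 = z.2) : K.D.b z - 1 =
      (univ.filter fun q => K.D.val q z.1 = z.2 ∧ K.D.a q < K.D.a (K.p z)).card +
      (univ.filter fun q => K.D.val q z.1 = z.2 ∧ K.D.a (K.p z) < K.D.a q).card := by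
  have hp : K.p z ∈ K.D.L z := (mem_L K.D z (K.p z)).2 h
  unfold Arr.b
  rw [← Finset.card_erase_of_mem hp, ← Finset.card_union_of_disjoint]
  · congr 1
    ext q
    rw [Finset.mem_erase, mem_L, Finset.mem_union, Finset.mem_filter, Finset.mem_filter]
    constructor
    · rintro ⟨h1, h2⟩
      have h3 : K.D.a q ≠ K.D.a (K.p z) := fun h3 => h1 (JH2_eq_of_slope K h2 h h3)
      rcases lt_or_gt_of_ne h3 with h4 | h4
      · exact Or.inl ⟨Finset.mem_univ _, h2, h4⟩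
      · exact Or.inr ⟨Finset.mem_univ _, h2, h4⟩
    · rintro (⟨_, h1, h2⟩ | ⟨_, h1, h2⟩)
      · exact ⟨fun h3 => by rw [h3] at h2; exact lt_irrefl _ h2, h1⟩
      · exact ⟨fun h3 => by rw [h3] at h2; exact lt_irrefl _ h2, h1⟩
  · rw [Finset.disjoint_left]
    intro q h1 h2
    rw [Finset.mem_filter] at h1 h2
    exact lt_asymm h1.2.2 h2.2.2

theorem JH2_swap {ι : Type*} [Fintype ι] (H : Finset (ℝ × ℝ)) (R : ι → ℝ × ℝ → Prop)
    [∀ q z, Decidable (R q z)] :
    ∑ q, (H.filter fun z => R q z).card = ∑ z ∈ H, (univ.filter fun q => R q z).card := by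
  simp_rw [Finset.card_filter]
  exact Finset.sum_comm

theorem sum_b_eq {ι : Type*} [Fintype ι] (K : Chart ι) : ∑ z ∈ K.Hr ∪ K.Hl, (K.D.b z - 1) =
    ∑ q, ((T1 K q).card + (T2 K q).card + (T3 K q).card + (T4 K q).card) := by
  rw [Finset.sum_union K.hdisj, Finset.sum_congr rfl fun z hz => JH2_b_sub K (K.hr z hz).1,
    Finset.sum_congr rfl fun z hz => JH2_b_sub K (K.hl z hz).1]
  simp only [Finset.sum_add_distrib]
  unfold T1 T2 T3 T4
  rw [JH2_swap K.Hr (fun q z => K.D.val q z.1 = z.2 ∧ K.D.a q < K.D.a (K.p z)),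
    JH2_swap K.Hr (fun q z => K.D.val q z.1 = z.2 ∧ K.D.a (K.p z) < K.D.a q),
    JH2_swap K.Hl (fun q z => K.D.val q z.1 = z.2 ∧ K.D.a q < K.D.a (K.p z)),
    JH2_swap K.Hl (fun q z => K.D.val q z.1 = z.2 ∧ K.D.a (K.p z) < K.D.a q)]
  ring

end Helper171
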