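import Pool.Agent.helper171_blk.Defs

/-! Forest lemma (pure order theory). -/

namespace Helper171
open Finset Classical

theorem forest_aux {T ε X : Type*} [LinearOrder T] [DecidableEq ε] [DecidableEq X] (y : ε → T) :
    ∀ (n : ℕ) (E : Finset ε) (S : Finset X) (l r : ε → X) (pos : X → T), E.card = n →
    S.Nonempty →
    (∀ e ∈ E, l e ∈ S) → (∀ e ∈ E, r e ∈ S) →
    (∀ e ∈ E, pos (l e) < y e) → (∀ e ∈ E, y e < pos (r e)) →
    (∀ e ∈ E, ∀ f ∈ E, y e = y f → e = f) →
    (∀ x ∈ S, ∀ e ∈ E, pos x ≠ y e) →
    (∀ e ∈ E, ∀ f ∈ E, y e < y f → pos (r e) < y f ∨ pos (r f) ≤ pos (r e)) →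
    (∀ e ∈ E, ∀ f ∈ E, y e < y f → y e < pos (l f) ∨ pos (l f) ≤ pos (l e)) →
    (∀ e ∈ E, ∀ f ∈ E, y e < y f → pos (r e) < y f ∨ y e < pos (l f)) →
    n + 1 ≤ S.card := by
  intro n
  induction n with
  | zero =>
    intro E S l r pos _ hS _ _ _ _ _ _ _ _ _
    have := hS.card_pos
    omega
  | succ n ih =>
    intro E S l r pos hE hS hl hr hly hyr hinj hne h1 h2 h3
    have hEne : E.Nonempty := by
      rw [← Finset.card_pos]; omega
    obtain ⟨e, he, hmin⟩ := Finset.exists_min_image E
      (fun e => (E.filter fun g => pos (l e) < y g ∧ y g < pos (r e)).card) hEne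
    have key : ∀ f ∈ E, f ≠ e → ¬ (pos (l e) < y f ∧ y f < pos (r e)) := by
      rintro f hf hfe ⟨ha, hb⟩
      have hmin' := hmin f hf
      refine absurd hmin' (not_le.2 (Finset.card_lt_card ?_))
      rcases lt_trichotomy (y e) (y f) with hlt | heq | hlt
      · have c1 := (h1 e he f hf hlt).resolve_left (not_lt.2 hb.le)
        have c3 := (h3 e he f hf hlt).resolve_left (not_lt.2 hb.le)
        refine Finset.ssubset_iff_of_subset ?_ |>.2 ⟨e, ?_, ?_⟩
        · intro g hg
          simp only [Finset.mem_filter] at hg ⊢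
          exact ⟨hg.1, ((hly e he).trans c3).trans hg.2.1, lt_of_lt_of_le hg.2.2 c1⟩
        · simp only [Finset.mem_filter]
          exact ⟨he, hly e he, hyr e he⟩
        · simp only [Finset.mem_filter, not_and]
          intro _ h
          exact absurd h (not_lt.2 c3.le)
      · exact absurd (hinj e he f hf heq).symm hfe
      · have c2 := (h2 f hf e he hlt).resolve_left (not_lt.2 ha.le)
        have c3 := (h3 f hf e he hlt).resolve_right (not_lt.2 ha.le)
        refine Finset.ssubset_iff_of_subset ?_ |>.2 ⟨e, ?_, ?_⟩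
        · intro g hg
          simp only [Finset.mem_filter] at hg ⊢
          exact ⟨hg.1, lt_of_le_of_lt c2 hg.2.1, (hg.2.2.trans c3).trans (hyr e he)⟩
        · simp only [Finset.mem_filter]
          exact ⟨he, hly e he, hyr e he⟩
        · simp only [Finset.mem_filter, not_and, not_lt]
          intro _ _
          exact c3.le
    have key2 : ∀ f ∈ E, f ≠ e → y f < pos (l e) ∨ pos (r e) < y f := by
      intro f hf hfe
      have k := key f hf hfe
      have n1 := hne _ (hl e he) f hf
      have n2 := hne _ (hr e he) f hf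
      by_contra hcon
      push Not at hcon
      exact k ⟨lt_of_le_of_ne hcon.1 n1, lt_of_le_of_ne hcon.2 (Ne.symm n2)⟩
    have hLR : pos (l e) < pos (r e) := (hly e he).trans (hyr e he)
    have hlre : l e ≠ r e := fun h => by rw [h] at hLR; exact lt_irrefl _ hLR
    set φ : T → T := fun t => if pos (l e) ≤ t ∧ t ≤ pos (r e) then y e else t with hφ
    have φin : ∀ t, pos (l e) ≤ t → t ≤ pos (r e) → φ t = y e := by
      intro t a b; simp only [hφ]; rw [if_pos ⟨a, b⟩]
    have φout : ∀ t, ¬ (pos (l e) ≤ t ∧ t ≤ pos (r e)) → φ t = t := by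
      intro t a; simp only [hφ]; rw [if_neg a]
    have φmono : ∀ s t, s ≤ t → φ s ≤ φ t := by
      intro s t hst
      by_cases hs : pos (l e) ≤ s ∧ s ≤ pos (r e)
      · rw [φin s hs.1 hs.2]
        by_cases ht : pos (l e) ≤ t ∧ t ≤ pos (r e)
        · rw [φin t ht.1 ht.2]
        · rw [φout t ht]
          have : pos (r e) < t := by
            by_contra hc
            exact ht ⟨hs.1.trans hst, not_lt.1 hc⟩
          exact ((hyr e he).trans this).le
      · rw [φout s hs]
        by_cases ht : pos (l e) ≤ t ∧ t ≤ pos (r e)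
        · rw [φin t ht.1 ht.2]
          have : s < pos (l e) := by
            by_contra hc
            exact hs ⟨not_lt.1 hc, hst.trans ht.2⟩
          exact (this.trans (hly e he)).le
        · rw [φout t ht]; exact hst
    have φlt : ∀ f ∈ E, f ≠ e → ∀ t, t < y f → φ t < y f := by
      intro f hf hfe t ht
      by_cases h : pos (l e) ≤ t ∧ t ≤ pos (r e)
      · rw [φin t h.1 h.2]
        rcases key2 f hf hfe with h' | h'
        · exact absurd (lt_of_le_of_lt h.1 ht) (not_lt.2 h'.le)
        · exact (hyr e he).trans h'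
      · rw [φout t h]; exact ht
    have φgt : ∀ f ∈ E, f ≠ e → ∀ t, y f < t → y f < φ t := by
      intro f hf hfe t ht
      by_cases h : pos (l e) ≤ t ∧ t ≤ pos (r e)
      · rw [φin t h.1 h.2]
        rcases key2 f hf hfe with h' | h'
        · exact h'.trans (hly e he)
        · exact absurd (lt_of_lt_of_le ht h.2) (not_lt.2 h'.le)
      · rw [φout t h]; exact ht
    have φL : φ (pos (l e)) = y e := φin _ le_rfl hLR.le
    have φR : φ (pos (r e)) = y e := φin _ hLR.le le_rfl
    set l' : ε → X := fun f => if l f = r e then l e else l f with hl'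
    set r' : ε → X := fun f => if r f = r e then l e else r f with hr'
    have pl : ∀ f, φ (pos (l' f)) = φ (pos (l f)) := by
      intro f
      simp only [hl']
      split_ifs with h
      · rw [h, φL, φR]
      · rfl
    have pr : ∀ f, φ (pos (r' f)) = φ (pos (r f)) := by
      intro f
      simp only [hr']
      split_ifs with h
      · rw [h, φL, φR]
      · rfl
    have hmem : ∀ f, f ∈ E.erase e → f ∈ E ∧ f ≠ e := fun f hf =>
      ⟨Finset.mem_of_mem_erase hf, Finset.ne_of_mem_erase hf⟩
    have hcardE : (E.erase e).card = n := by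
      rw [Finset.card_erase_of_mem he]; omega
    have hleS : l e ∈ S.erase (r e) := Finset.mem_erase.2 ⟨hlre, hl e he⟩
    have := ih (E.erase e) (S.erase (r e)) l' r' (fun x => φ (pos x)) hcardE ⟨l e, hleS⟩
      (by
        intro f hf
        simp only [hl']
        split_ifs with h
        · exact hleS
        · exact Finset.mem_erase.2 ⟨h, hl f (hmem f hf).1⟩)
      (by
        intro f hf
        simp only [hr']
        split_ifs with h
        · exact hleS
        · exact Finset.mem_erase.2 ⟨h, hr f (hmem f hf).1⟩)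
      (by
        intro f hf
        show φ (pos (l' f)) < y f
        rw [pl]
        exact φlt f (hmem f hf).1 (hmem f hf).2 _ (hly f (hmem f hf).1))
      (by
        intro f hf
        show y f < φ (pos (r' f))
        rw [pr]
        exact φgt f (hmem f hf).1 (hmem f hf).2 _ (hyr f (hmem f hf).1))
      (by
        intro f hf g hg
        exact hinj f (hmem f hf).1 g (hmem g hg).1)
      (by
        intro x hx f hf
        show φ (pos x) ≠ y f
        rcases lt_or_gt_of_ne (hne x (Finset.mem_of_mem_erase hx) f (hmem f hf).1) with h | h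
        · exact (φlt f (hmem f hf).1 (hmem f hf).2 _ h).ne
        · exact (φgt f (hmem f hf).1 (hmem f hf).2 _ h).ne')
      (by
        intro f hf g hg hfg
        show φ (pos (r' f)) < y g ∨ φ (pos (r' g)) ≤ φ (pos (r' f))
        rw [pr, pr]
        rcases h1 f (hmem f hf).1 g (hmem g hg).1 hfg with h | h
        · exact Or.inl (φlt g (hmem g hg).1 (hmem g hg).2 _ h)
        · exact Or.inr (φmono _ _ h))
      (by
        intro f hf g hg hfg
        show y f < φ (pos (l' g)) ∨ φ (pos (l' g)) ≤ φ (pos (l' f))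
        rw [pl, pl]
        rcases h2 f (hmem f hf).1 g (hmem g hg).1 hfg with h | h
        · exact Or.inl (φgt f (hmem f hf).1 (hmem f hf).2 _ h)
        · exact Or.inr (φmono _ _ h))
      (by
        intro f hf g hg hfg
        show φ (pos (r' f)) < y g ∨ y f < φ (pos (l' g))
        rw [pr, pl]
        rcases h3 f (hmem f hf).1 g (hmem g hg).1 hfg with h | h
        · exact Or.inl (φlt g (hmem g hg).1 (hmem g hg).2 _ h)
        · exact Or.inr (φgt f (hmem f hf).1 (hmem f hf).2 _ h))
    rw [Finset.card_erase_of_mem (hr e he)] at this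
    have hpos := hS.card_pos
    omega

theorem forest {T ε X : Type*} [LinearOrder T] [DecidableEq ε] [DecidableEq X]
    (E : Finset ε) (S : Finset X) (l r : ε → X) (pos : X → T) (y : ε → T)
    (hS : S.Nonempty)
    (hl : ∀ e ∈ E, l e ∈ S) (hr : ∀ e ∈ E, r e ∈ S)
    (hly : ∀ e ∈ E, pos (l e) < y e) (hyr : ∀ e ∈ E, y e < pos (r e))
    (hinj : ∀ e ∈ E, ∀ f ∈ E, y e = y f → e = f)
    (hne : ∀ x ∈ S, ∀ e ∈ E, pos x ≠ y e)
    (h1 : ∀ e ∈ E, ∀ f ∈ E, y e < y f → pos (r e) < y f ∨ pos (r f) ≤ pos (r e))
    (h2 : ∀ e ∈ E, ∀ f ∈ E, y e < y f → y e < pos (l f) ∨ pos (l f) ≤ pos (l e))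
    (h3 : ∀ e ∈ E, ∀ f ∈ E, y e < y f → pos (r e) < y f ∨ y e < pos (l f)) :
    E.card + 1 ≤ S.card :=
  forest_aux y E.card E S l r pos rfl hS hl hr hly hyr hinj hne h1 h2 h3

end Helper171
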