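import Pool.Agent.helper171_blk.Basic
import Pool.Agent.helper171_blk.JG
import Pool.Agent.helper171_blk.JH2

/-! Lines seen from both sides form a forest. -/

namespace Helper171
open Finset Classical

section aux12

variable {ι : Type*} [Fintype ι]

theorem cross_mono12 {a1 c1 a2 c2 u v : ℝ} (h : a1 < a2) (hu : a2 * u + c2 ≤ a1 * u + c1)
    (hv : a1 * v + c1 ≤ a2 * v + c2) : u ≤ v := by
  by_contra hlt
  have h1 : v < u := not_le.1 hlt
  nlinarith [mul_pos (sub_pos.2 h) (sub_pos.2 h1)]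

theorem aux12_1 (D : Arr ι) {e f pe pf : ι} {z w : ℝ × ℝ} (hef : D.a e < D.a f)
    (h1 : D.a f < D.a pe) (h2 : D.a pe < D.a pf) (hz : FreeR D pe z) (hw : FreeR D pf w)
    (hez : D.val e z.1 = z.2) (hfw : D.val f w.1 = w.2) : z = w := by
  have a1 := hz.2.1 f h1
  have a2 := hw.2.1 e (by linarith)
  have a3 := hw.2.1 pe h2
  have a4 := hz.1
  unfold Arr.val at *
  have b1 : z.1 ≤ w.1 := cross_mono12 (c1 := D.c e) (c2 := D.c f) hef (by linarith) (by linarith)
  have b2 : w.1 ≤ z.1 := cross_mono12 (c1 := D.c f) (c2 := D.c pe) h1 (by linarith) (by linarith)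
  have b3 : z.1 = w.1 := le_antisymm b1 b2
  rw [b3] at a1 a4
  exact Prod.ext b3 (by linarith)

theorem aux12_2 (D : Arr ι) {e f pe pf : ι} {z w : ℝ × ℝ} (hef : D.a e < D.a f)
    (h1 : D.a pf < D.a e) (h2 : D.a pe < D.a pf) (hz : FreeL D pe z) (hw : FreeL D pf w)
    (hez : D.val e z.1 = z.2) (hfw : D.val f w.1 = w.2) : z = w := by
  have a1 := hz.2.2 f (by linarith)
  have a2 := hw.2.2 e h1
  have a3 := hz.2.2 pf h2
  have a4 := hw.1
  unfold Arr.val at *
  have b1 : z.1 ≤ w.1 := cross_mono12 (c1 := D.c e) (c2 := D.c f) hef (by linarith) (by linarith)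
  have b2 : w.1 ≤ z.1 := cross_mono12 (c1 := D.c pf) (c2 := D.c e) h1 (by linarith) (by linarith)
  have b3 : z.1 = w.1 := le_antisymm b1 b2
  rw [b3] at hez a3
  exact Prod.ext b3 (by linarith)

theorem aux12_3 (D : Arr ι) {e f pe pf : ι} {z w : ℝ × ℝ} (hef : D.a e < D.a f)
    (h1 : D.a f < D.a pe) (h2 : D.a pf < D.a e) (hz : FreeR D pe z) (hw : FreeL D pf w)
    (hez : D.val e z.1 = z.2) (hfw : D.val f w.1 = w.2) : z = w := by
  have a1 := hz.2.1 f h1
  have a2 := hw.2.2 e h2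
  have h3 : D.a pf < D.a pe := by linarith
  have a3 := hw.2.2 pe h3
  have a4 := hw.1
  have a5 := hz.1
  have a6 := hz.2.1 pf h3
  unfold Arr.val at *
  have b1 : z.1 ≤ w.1 := cross_mono12 (c1 := D.c e) (c2 := D.c f) hef (by linarith) (by linarith)
  have b2 : w.1 ≤ z.1 := cross_mono12 (c1 := D.c pf) (c2 := D.c pe) h3 (by linarith) (by linarith)
  have b3 : z.1 = w.1 := le_antisymm b1 b2
  rw [b3] at a5 a6
  exact Prod.ext b3 (by linarith)

end aux12

theorem card_Q12 {ι : Type*} [Fintype ι] (K : Chart ι) :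
    (Q1 K ∩ Q2 K).card ≤ K.Hr.card + K.Hl.card := by
  by_cases hne : (K.Hr ∪ K.Hl).Nonempty
  swap
  · have h0 : Q1 K ∩ Q2 K = ∅ := by
      rw [Finset.eq_empty_iff_forall_notMem]
      intro q hq
      obtain ⟨z, hz⟩ := (mem_filter.1 (mem_inter.1 hq).1).2
      exact hne ⟨z, mem_union_left _ (mem_filter.1 hz).1⟩
    rw [h0]
    simp
  have hT1 : ∀ q ∈ Q1 K ∩ Q2 K, ∃ z, z ∈ T1 K q := fun q hq => (mem_filter.1 (mem_inter.1 hq).1).2
  have hT2 : ∀ q ∈ Q1 K ∩ Q2 K, ∃ z, z ∈ T2 K q := fun q hq => (mem_filter.1 (mem_inter.1 hq).2).2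
  choose! r hr using hT1
  choose! l hl using hT2
  have hr1 : ∀ q ∈ Q1 K ∩ Q2 K, r q ∈ K.Hr := fun q hq => (mem_filter.1 (hr q hq)).1
  have hr2 : ∀ q ∈ Q1 K ∩ Q2 K, K.D.val q (r q).1 = (r q).2 :=
    fun q hq => (mem_filter.1 (hr q hq)).2.1
  have hr3 : ∀ q ∈ Q1 K ∩ Q2 K, K.D.a q < K.D.a (K.p (r q)) :=
    fun q hq => (mem_filter.1 (hr q hq)).2.2
  have hl1 : ∀ q ∈ Q1 K ∩ Q2 K, l q ∈ K.Hl := fun q hq => (mem_filter.1 (hl q hq)).1
  have hl2 : ∀ q ∈ Q1 K ∩ Q2 K, K.D.val q (l q).1 = (l q).2 :=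
    fun q hq => (mem_filter.1 (hl q hq)).2.1
  have hl3 : ∀ q ∈ Q1 K ∩ Q2 K, K.D.a (K.p (l q)) < K.D.a q :=
    fun q hq => (mem_filter.1 (hl q hq)).2.2
  let pos : ℝ × ℝ → ℝ ×ₗ ℕ := fun z => toLex (K.D.a (K.p z), if z ∈ K.Hr then 0 else 2)
  let y : ι → ℝ ×ₗ ℕ := fun q => toLex (K.D.a q, 1)
  have pr : ∀ q ∈ Q1 K ∩ Q2 K, pos (r q) = toLex (K.D.a (K.p (r q)), 0) := by
    intro q hq
    simp only [pos]
    rw [if_pos (hr1 q hq)]
  have pl : ∀ q ∈ Q1 K ∩ Q2 K, pos (l q) = toLex (K.D.a (K.p (l q)), 2) := by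
    intro q hq
    simp only [pos]
    rw [if_neg fun h => Finset.disjoint_left.1 K.hdisj h (hl1 q hq)]
  have key := forest (Q1 K ∩ Q2 K) (K.Hr ∪ K.Hl) l r pos y hne
    (fun e he => mem_union_right _ (hl1 e he)) (fun e he => mem_union_left _ (hr1 e he))
    (fun e he => by
      rw [pl e he]
      exact Prod.Lex.toLex_lt_toLex.2 (Or.inl (hl3 e he)))
    (fun e he => by
      rw [pr e he]
      exact Prod.Lex.toLex_lt_toLex.2 (Or.inl (hr3 e he)))
    (fun e he f hf hef => by
      have h1 : K.D.a e = K.D.a f := congrArg (fun x => (ofLex x).1) hef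
      have he' : e ∈ Q1 K ∪ Q2 K := mem_union_left _ (mem_inter.1 he).1
      have hf' : f ∈ Q1 K ∪ Q2 K := mem_union_left _ (mem_inter.1 hf).1
      exact K.hD e f h1 (le_antisymm (top_of_mem K f e hf' h1) (top_of_mem K e f he' h1.symm)))
    (fun x _ e _ h => by
      have h1 : (if x ∈ K.Hr then 0 else 2) = 1 := congrArg (fun x => (ofLex x).2) h
      split_ifs at h1
      omega)
    (fun e he f hf hef => by
      have h0 : K.D.a e < K.D.a f := by
        rcases Prod.Lex.toLex_lt_toLex.1 hef with h | h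
        · exact h
        · exact absurd h.2 (lt_irrefl _)
      rw [pr e he, pr f hf]
      by_contra hcon
      rw [not_or] at hcon
      obtain ⟨c1, c2⟩ := hcon
      have d1 : K.D.a f < K.D.a (K.p (r e)) := by
        by_contra hh
        rcases (not_lt.1 hh).lt_or_eq with h | h
        · exact c1 (Prod.Lex.toLex_lt_toLex.2 (Or.inl h))
        · exact c1 (Prod.Lex.toLex_lt_toLex.2 (Or.inr ⟨h, Nat.zero_lt_one⟩))
      have d2 : K.D.a (K.p (r e)) < K.D.a (K.p (r f)) := by
        by_contra hh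
        rcases (not_lt.1 hh).lt_or_eq with h | h
        · exact c2 (Prod.Lex.toLex_le_toLex.2 (Or.inl h))
        · exact c2 (Prod.Lex.toLex_le_toLex.2 (Or.inr ⟨h, le_refl _⟩))
      have := aux12_1 K.D h0 d1 d2 (K.hr _ (hr1 e he)) (K.hr _ (hr1 f hf)) (hr2 e he) (hr2 f hf)
      rw [this] at d2
      exact lt_irrefl _ d2)
    (fun e he f hf hef => by
      have h0 : K.D.a e < K.D.a f := by
        rcases Prod.Lex.toLex_lt_toLex.1 hef with h | h
        · exact h
        · exact absurd h.2 (lt_irrefl _)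
      rw [pl e he, pl f hf]
      by_contra hcon
      rw [not_or] at hcon
      obtain ⟨c1, c2⟩ := hcon
      have d1 : K.D.a (K.p (l f)) < K.D.a e := by
        by_contra hh
        rcases (not_lt.1 hh).lt_or_eq with h | h
        · exact c1 (Prod.Lex.toLex_lt_toLex.2 (Or.inl h))
        · exact c1 (Prod.Lex.toLex_lt_toLex.2 (Or.inr ⟨h, Nat.one_lt_two⟩))
      have d2 : K.D.a (K.p (l e)) < K.D.a (K.p (l f)) := by
        by_contra hh
        rcases (not_lt.1 hh).lt_or_eq with h | h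
        · exact c2 (Prod.Lex.toLex_le_toLex.2 (Or.inl h))
        · exact c2 (Prod.Lex.toLex_le_toLex.2 (Or.inr ⟨h, le_refl _⟩))
      have := aux12_2 K.D h0 d1 d2 (K.hl _ (hl1 e he)) (K.hl _ (hl1 f hf)) (hl2 e he) (hl2 f hf)
      rw [this] at d2
      exact lt_irrefl _ d2)
    (fun e he f hf hef => by
      have h0 : K.D.a e < K.D.a f := by
        rcases Prod.Lex.toLex_lt_toLex.1 hef with h | h
        · exact h
        · exact absurd h.2 (lt_irrefl _)
      rw [pr e he, pl f hf]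
      by_contra hcon
      rw [not_or] at hcon
      obtain ⟨c1, c2⟩ := hcon
      have d1 : K.D.a f < K.D.a (K.p (r e)) := by
        by_contra hh
        rcases (not_lt.1 hh).lt_or_eq with h | h
        · exact c1 (Prod.Lex.toLex_lt_toLex.2 (Or.inl h))
        · exact c1 (Prod.Lex.toLex_lt_toLex.2 (Or.inr ⟨h, Nat.zero_lt_one⟩))
      have d2 : K.D.a (K.p (l f)) < K.D.a e := by
        by_contra hh
        rcases (not_lt.1 hh).lt_or_eq with h | h
        · exact c2 (Prod.Lex.toLex_lt_toLex.2 (Or.inl h))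
        · exact c2 (Prod.Lex.toLex_lt_toLex.2 (Or.inr ⟨h, Nat.one_lt_two⟩))
      have h3 := aux12_3 K.D h0 d1 d2 (K.hr _ (hr1 e he)) (K.hl _ (hl1 f hf)) (hr2 e he) (hl2 f hf)
      exact Finset.disjoint_left.1 K.hdisj (hr1 e he) (h3 ▸ hl1 f hf))
  have := card_union_le K.Hr K.Hl
  omega

/-- the chart reflected in the horizontal axis -/
noncomputable def reflK {ι : Type*} [Fintype ι] (K : Chart ι) : Chart ι where
  D := { a := fun i => -K.D.a i, c := fun i => -K.D.c i }
  Hr := K.Hr.image fun z => (z.1, -z.2)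
  Hl := K.Hl.image fun z => (z.1, -z.2)
  p := fun z => K.p (z.1, -z.2)
  hD := fun i i' h h' => K.hD i i' (neg_injective h) (neg_injective h')
  hdisj := by
    rw [Finset.disjoint_left]
    intro z hz hz'
    obtain ⟨x, hx, rfl⟩ := mem_image.1 hz
    obtain ⟨x', hx', h⟩ := mem_image.1 hz'
    have h1 : x' = x := by
      have h2 := congrArg Prod.fst h
      have h3 := congrArg Prod.snd h
      simp only at h2 h3
      exact Prod.ext h2 (neg_injective h3)
    rw [h1] at hx'
    exact Finset.disjoint_left.1 K.hdisj hx hx'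
  hr := by
    intro z hz
    obtain ⟨x, hx, rfl⟩ := mem_image.1 hz
    obtain ⟨h1, h2, h3⟩ := K.hr x hx
    simp only [neg_neg]
    refine ⟨?_, ?_, ?_⟩
    · unfold Arr.val at *
      simp only
      linarith
    · intro q hq
      have := h3 q (by simp only at hq; linarith)
      unfold Arr.val at *
      simp only
      linarith
    · intro q hq
      have := h2 q (by simp only at hq; linarith)
      unfold Arr.val at *
      simp only
      linarith
  hl := by
    intro z hz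
    obtain ⟨x, hx, rfl⟩ := mem_image.1 hz
    obtain ⟨h1, h2, h3⟩ := K.hl x hx
    simp only [neg_neg]
    refine ⟨?_, ?_, ?_⟩
    · unfold Arr.val at *
      simp only
      linarith
    · intro q hq
      have := h3 q (by simp only at hq; linarith)
      unfold Arr.val at *
      simp only
      linarith
    · intro q hq
      have := h2 q (by simp only at hq; linarith)
      unfold Arr.val at *
      simp only
      linarith

theorem card_Q34 {ι : Type*} [Fintype ι] (K : Chart ι) :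
    (Q3 K ∩ Q4 K).card ≤ K.Hr.card + K.Hl.card := by
  have h3 : Q3 K ⊆ Q1 (reflK K) := by
    intro q hq
    obtain ⟨z, hz⟩ := (mem_filter.1 hq).2
    obtain ⟨z1, z2, z3⟩ := mem_filter.1 hz
    refine mem_filter.2 ⟨mem_univ _, (z.1, -z.2), mem_filter.2
      ⟨mem_image.2 ⟨z, z1, rfl⟩, ?_, ?_⟩⟩
    · show -K.D.a q * z.1 + -K.D.c q = -z.2
      unfold Arr.val at z2
      linarith
    · show -K.D.a q < -K.D.a (K.p (z.1, - -z.2))
      rw [neg_neg]
      linarith
  have h4 : Q4 K ⊆ Q2 (reflK K) := by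
    intro q hq
    obtain ⟨z, hz⟩ := (mem_filter.1 hq).2
    obtain ⟨z1, z2, z3⟩ := mem_filter.1 hz
    refine mem_filter.2 ⟨mem_univ _, (z.1, -z.2), mem_filter.2
      ⟨mem_image.2 ⟨z, z1, rfl⟩, ?_, ?_⟩⟩
    · show -K.D.a q * z.1 + -K.D.c q = -z.2
      unfold Arr.val at z2
      linarith
    · show -K.D.a (K.p (z.1, - -z.2)) < -K.D.a q
      rw [neg_neg]
      linarith
  have h5 := card_Q12 (reflK K)
  have h6 : (reflK K).Hr.card ≤ K.Hr.card := card_image_le
  have h7 : (reflK K).Hl.card ≤ K.Hl.card := card_image_le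
  have h8 := card_le_card (inter_subset_inter h3 h4)
  omega

end Helper171
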