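import Pool.Agent.helper171_blk.Basic
import Pool.Agent.helper171_blk.JH2

/-! Double use of simple lines. -/

namespace Helper171
open Finset Classical

/-! ### auxiliary lemmas for `card_Q14_Q23` -/

section q14

variable {ι : Type*}

/-- a line `q` with a right event `z` and a left event `w`, both with a steeper ray -/
structure Ev (D : Arr ι) (q pz pw : ι) (z w : ℝ × ℝ) : Prop where
  z0 : D.val pz z.1 = z.2
  z1 : ∀ g, D.a g < D.a pz → D.val g z.1 ≤ z.2
  z2 : ∀ g, D.a pz < D.a g → z.2 ≤ D.val g z.1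
  w0 : D.val pw w.1 = w.2
  w1 : ∀ g, D.a g < D.a pw → w.2 ≤ D.val g w.1
  w2 : ∀ g, D.a pw < D.a g → D.val g w.1 ≤ w.2
  qz : D.val q z.1 = z.2
  qw : D.val q w.1 = w.2
  hz : D.a q < D.a pz
  hw : D.a q < D.a pw
  ne : z ≠ w

variable {D : Arr ι}

theorem Ev.x_ne {q pz pw : ι} {z w : ℝ × ℝ} (h : Ev D q pz pw z w) : z.1 ≠ w.1 := by
  intro h1
  apply h.ne
  refine Prod.ext h1 ?_
  rw [← h.qz, ← h.qw, h1]

theorem Ev.cls {q pz pw : ι} {z w : ℝ × ℝ} (h : Ev D q pz pw z w) : D.a pz = D.a pw := by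
  have hx := h.x_ne
  have hz := h.hz
  have hw := h.hw
  have e1 := h.z0
  have e2 := h.w0
  have e3 := h.qz
  have e4 := h.qw
  by_contra hne
  apply hx
  rcases lt_or_gt_of_ne hne with h1 | h1
  · have h2 := h.z2 pw h1
    have h3 := h.w1 pz h1
    unfold Arr.val at *
    apply le_antisymm
    · by_contra hlt
      rw [not_le] at hlt
      nlinarith [mul_pos (sub_pos.2 hz) (sub_pos.2 hlt)]
    · by_contra hlt
      rw [not_le] at hlt
      nlinarith [mul_pos (sub_pos.2 hw) (sub_pos.2 hlt)]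
  · have h2 := h.z1 pw h1
    have h3 := h.w2 pz h1
    unfold Arr.val at *
    apply le_antisymm
    · by_contra hlt
      rw [not_le] at hlt
      nlinarith [mul_pos (sub_pos.2 hw) (sub_pos.2 hlt)]
    · by_contra hlt
      rw [not_le] at hlt
      nlinarith [mul_pos (sub_pos.2 hz) (sub_pos.2 hlt)]

theorem Ev.pair {q pz pw q' pz' pw' : ι} {z w z' w' : ℝ × ℝ} (h : Ev D q pz pw z w)
    (h' : Ev D q' pz' pw' z' w') (hc : D.a pz = D.a pz') (hlt : D.a q < D.a q') :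
    z.1 < w.1 ∧ w'.1 < z'.1 := by
  have c1 := h.cls
  have c2 := h'.cls
  have i1 := h.z1 q' (by rw [hc]; exact h'.hz)
  have i2 := h.w1 q' (by rw [← c1, hc]; exact h'.hz)
  have i3 := h'.z1 q (by rw [← hc]; exact h.hz)
  have i4 := h'.w1 q (by rw [← c2, ← hc]; exact h.hz)
  have e1 := h.qz
  have e2 := h.qw
  have e3 := h'.qz
  have e4 := h'.qw
  unfold Arr.val at *
  constructor
  · refine lt_of_le_of_ne ?_ h.x_ne
    by_contra hlt'
    rw [not_le] at hlt'
    nlinarith [mul_pos (sub_pos.2 hlt) (sub_pos.2 hlt')]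
  · refine lt_of_le_of_ne ?_ h'.x_ne.symm
    by_contra hlt'
    rw [not_le] at hlt'
    nlinarith [mul_pos (sub_pos.2 hlt) (sub_pos.2 hlt')]

theorem Ev.top {q pz pw : ι} {z w : ℝ × ℝ} (h : Ev D q pz pw z w) (hlt : z.1 < w.1) (g : ι) :
    D.a g ≤ D.a pz := by
  by_contra hg
  rw [not_le] at hg
  have c1 := h.cls
  have i1 := h.z2 g hg
  have i2 := h.w2 g (by rw [← c1]; exact hg)
  have e1 := h.qz
  have e2 := h.qw
  have hq : D.a q < D.a g := h.hz.trans hg
  unfold Arr.val at *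
  nlinarith [mul_pos (sub_pos.2 hq) (sub_pos.2 hlt)]

theorem ev_split (N : Finset ι) (pz pw : ι → ι) (z w : ι → ℝ × ℝ)
    (h : ∀ q ∈ N, Ev D q (pz q) (pw q) (z q) (w q))
    (hinj : ∀ q ∈ N, ∀ q' ∈ N, D.a q = D.a q' → q = q') :
    ∃ N2 ⊆ N, N.card ≤ N2.card + 1 ∧
      ∀ q ∈ N2, ∀ q' ∈ N2, D.a (pz q) = D.a (pz q') → q = q' := by
  refine ⟨N.filter fun q => (w q).1 < (z q).1, filter_subset _ _, ?_, ?_⟩
  · have h1 : (N.filter fun q => ¬ (w q).1 < (z q).1).card ≤ 1 := by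
      rw [Finset.card_le_one]
      intro q hq q' hq'
      rw [mem_filter, not_lt] at hq hq'
      have e := h q hq.1
      have e' := h q' hq'.1
      have l : (z q).1 < (w q).1 := lt_of_le_of_ne hq.2 e.x_ne
      have l' : (z q').1 < (w q').1 := lt_of_le_of_ne hq'.2 e'.x_ne
      have hc : D.a (pz q) = D.a (pz q') := le_antisymm (e'.top l' _) (e.top l _)
      apply hinj q hq.1 q' hq'.1
      rcases lt_trichotomy (D.a q) (D.a q') with h2 | h2 | h2
      · have := (e.pair e' hc h2).2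
        linarith
      · exact h2
      · have := (e'.pair e hc.symm h2).2
        linarith
    have h2 := Finset.card_filter_add_card_filter_not (s := N) (fun q => (w q).1 < (z q).1)
    omega
  · intro q hq q' hq' hc
    rw [mem_filter] at hq hq'
    have e := h q hq.1
    have e' := h q' hq'.1
    apply hinj q hq.1 q' hq'.1
    rcases lt_trichotomy (D.a q) (D.a q') with h2 | h2 | h2
    · have := (e.pair e' hc h2).1
      linarith [hq.2]
    · exact h2
    · have := (e'.pair e hc.symm h2).1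
      linarith [hq'.2]

/-- the mirror image -/
def negArr (D : Arr ι) : Arr ι := ⟨fun i => -D.a i, fun i => -D.c i⟩

theorem negArr_val (D : Arr ι) (i : ι) (s : ℝ) : (negArr D).val i s = -D.val i s := by
  unfold Arr.val negArr
  ring

theorem q14_fiber {α : Type*} (s : Finset α) (f : α → ℝ) (A : Finset ℝ) :
    ∑ c ∈ A, (s.filter fun x => f x = c).card ≤ s.card := by
  have h1 : (s.filter fun x => f x ∈ A).card =
      ∑ c ∈ A, ((s.filter fun x => f x ∈ A).filter fun x => f x = c).card :=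
    Finset.card_eq_sum_card_fiberwise fun x hx => (mem_filter.1 hx).2
  have h2 : ∑ c ∈ A, (s.filter fun x => f x = c).card =
      ∑ c ∈ A, ((s.filter fun x => f x ∈ A).filter fun x => f x = c).card := by
    refine Finset.sum_congr rfl fun c hc => ?_
    congr 1
    ext x
    simp only [mem_filter]
    constructor
    · rintro ⟨h3, rfl⟩
      exact ⟨⟨h3, hc⟩, rfl⟩
    · rintro ⟨⟨h3, _⟩, h4⟩
      exact ⟨h3, h4⟩
  rw [h2, ← h1]
  exact card_filter_le _ _

end q14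

theorem card_Q14_Q23 {ι : Type*} [Fintype ι] (K : Chart ι) :
    3 * ((Q1 K ∩ Q4 K).card + (Q2 K ∩ Q3 K).card) ≤ 2 * (K.Hr.card + K.Hl.card) + 18 := by
  have hne : ∀ z ∈ K.Hr, ∀ w ∈ K.Hl, z ≠ w := fun z hz w hw h =>
    Finset.disjoint_left.1 K.hdisj hz (h ▸ hw)
  -- lines of type 1 and 4
  have ex : ∀ q, ∃ zw : (ℝ × ℝ) × (ℝ × ℝ), q ∈ Q1 K ∩ Q4 K → zw.1 ∈ T1 K q ∧ zw.2 ∈ T4 K q := by
    intro q
    by_cases hq : q ∈ Q1 K ∩ Q4 K
    · have h1 := (mem_inter.1 hq).1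
      have h4 := (mem_inter.1 hq).2
      rw [Q1, mem_filter] at h1
      rw [Q4, mem_filter] at h4
      obtain ⟨z, hz⟩ := h1.2
      obtain ⟨w, hw⟩ := h4.2
      exact ⟨(z, w), fun _ => ⟨hz, hw⟩⟩
    · exact ⟨((0, 0), (0, 0)), fun h => absurd h hq⟩
  choose f hf using ex
  have ex' : ∀ q, ∃ zw : (ℝ × ℝ) × (ℝ × ℝ), q ∈ Q2 K ∩ Q3 K → zw.1 ∈ T3 K q ∧ zw.2 ∈ T2 K q := by
    intro q
    by_cases hq : q ∈ Q2 K ∩ Q3 K
    · have h1 := (mem_inter.1 hq).1
      have h4 := (mem_inter.1 hq).2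
      rw [Q2, mem_filter] at h1
      rw [Q3, mem_filter] at h4
      obtain ⟨w, hw⟩ := h1.2
      obtain ⟨z, hz⟩ := h4.2
      exact ⟨(z, w), fun _ => ⟨hz, hw⟩⟩
    · exact ⟨((0, 0), (0, 0)), fun h => absurd h hq⟩
  choose f' hf' using ex'
  -- the data of the events
  have d1 : ∀ q ∈ Q1 K ∩ Q4 K, (f q).1 ∈ K.Hr ∧ (f q).2 ∈ K.Hl ∧
      Ev K.D q (K.p (f q).1) (K.p (f q).2) (f q).1 (f q).2 := by
    intro q hq
    obtain ⟨h1, h2⟩ := hf q hq
    rw [T1, mem_filter] at h1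
    rw [T4, mem_filter] at h2
    obtain ⟨a1, a2, a3⟩ := h1
    obtain ⟨b1, b2, b3⟩ := h2
    obtain ⟨x1, x2, x3⟩ := K.hr _ a1
    obtain ⟨y1, y2, y3⟩ := K.hl _ b1
    exact ⟨a1, b1, ⟨x1, x2, x3, y1, y2, y3, a2, b2, a3, b3, hne _ a1 _ b1⟩⟩
  have d2 : ∀ q ∈ Q2 K ∩ Q3 K, (f' q).1 ∈ K.Hr ∧ (f' q).2 ∈ K.Hl ∧
      K.D.val q (f' q).1.1 = (f' q).1.2 ∧ K.D.val q (f' q).2.1 = (f' q).2.2 ∧
      K.D.a (K.p (f' q).1) < K.D.a q ∧
      Ev (negArr K.D) q (K.p (f' q).1) (K.p (f' q).2) ((f' q).1.1, -(f' q).1.2)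
        ((f' q).2.1, -(f' q).2.2) := by
    intro q hq
    obtain ⟨h1, h2⟩ := hf' q hq
    rw [T3, mem_filter] at h1
    rw [T2, mem_filter] at h2
    obtain ⟨a1, a2, a3⟩ := h1
    obtain ⟨b1, b2, b3⟩ := h2
    obtain ⟨x1, x2, x3⟩ := K.hr _ a1
    obtain ⟨y1, y2, y3⟩ := K.hl _ b1
    have hn := hne _ a1 _ b1
    refine ⟨a1, b1, a2, b2, a3, ⟨?_, ?_, ?_, ?_, ?_, ?_, ?_, ?_, ?_, ?_, ?_⟩⟩
    · rw [negArr_val, x1]
    · intro g hg
      rw [negArr_val]
      exact neg_le_neg (x3 g (neg_lt_neg_iff.1 hg))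
    · intro g hg
      rw [negArr_val]
      exact neg_le_neg (x2 g (neg_lt_neg_iff.1 hg))
    · rw [negArr_val, y1]
    · intro g hg
      rw [negArr_val]
      exact neg_le_neg (y3 g (neg_lt_neg_iff.1 hg))
    · intro g hg
      rw [negArr_val]
      exact neg_le_neg (y2 g (neg_lt_neg_iff.1 hg))
    · rw [negArr_val, a2]
    · rw [negArr_val, b2]
    · exact neg_lt_neg a3
    · exact neg_lt_neg b3
    · intro h
      apply hn
      rw [Prod.mk.injEq] at h
      exact Prod.ext h.1 (neg_injective h.2)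
  -- lines are determined by their slope
  have i1 : ∀ q ∈ Q1 K ∩ Q4 K, ∀ q' ∈ Q1 K ∩ Q4 K, K.D.a q = K.D.a q' → q = q' := by
    intro q hq q' hq' h
    refine K.hD q q' h (le_antisymm ?_ ?_)
    · exact top_of_mem K q' q (mem_union_left _ (mem_inter.1 hq').1) h
    · exact top_of_mem K q q' (mem_union_left _ (mem_inter.1 hq).1) h.symm
  have i2 : ∀ q ∈ Q2 K ∩ Q3 K, ∀ q' ∈ Q2 K ∩ Q3 K, (negArr K.D).a q = (negArr K.D).a q' →
      q = q' := by
    intro q hq q' hq' h0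
    have h : K.D.a q = K.D.a q' := neg_injective h0
    refine K.hD q q' h (le_antisymm ?_ ?_)
    · exact top_of_mem K q' q (mem_union_right _ (mem_inter.1 hq').1) h
    · exact top_of_mem K q q' (mem_union_right _ (mem_inter.1 hq).1) h.symm
  obtain ⟨N, hN, hcN, hiN⟩ := ev_split (D := K.D) (Q1 K ∩ Q4 K) (fun q => K.p (f q).1)
    (fun q => K.p (f q).2) (fun q => (f q).1) (fun q => (f q).2) (fun q hq => (d1 q hq).2.2) i1
  obtain ⟨N', hN', hcN', hiN'⟩ := ev_split (D := negArr K.D) (Q2 K ∩ Q3 K)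
    (fun q => K.p (f' q).1) (fun q => K.p (f' q).2) (fun q => ((f' q).1.1, -(f' q).1.2))
    (fun q => ((f' q).2.1, -(f' q).2.2)) (fun q hq => (d2 q hq).2.2.2.2.2) i2
  -- the classes
  set cl : ℝ × ℝ → ℝ := fun z => K.D.a (K.p z) with hcl
  set C : Finset ℝ := N.image fun q => cl (f q).1 with hC
  set C' : Finset ℝ := N'.image fun q => cl (f' q).1 with hC'
  have hCc : C.card = N.card := Finset.card_image_of_injOn fun q hq q' hq' h => hiN q hq q' hq' h
  have hCc' : C'.card = N'.card := Finset.card_image_of_injOn fun q hq q' hq' h =>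
    hiN' q hq q' hq' (congrArg Neg.neg h)
  have m1 : ∀ c ∈ C, ∃ q ∈ Q1 K ∩ Q4 K, cl (f q).1 = c := by
    intro c hc
    obtain ⟨q, hq, rfl⟩ := mem_image.1 hc
    exact ⟨q, hN hq, rfl⟩
  have m2 : ∀ c ∈ C', ∃ q ∈ Q2 K ∩ Q3 K, cl (f' q).1 = c := by
    intro c hc
    obtain ⟨q, hq, rfl⟩ := mem_image.1 hc
    exact ⟨q, hN' hq, rfl⟩
  have v1 : ∀ q ∈ Q1 K ∩ Q4 K, (f q).1 ∈ K.Hr.filter (fun z => cl z = cl (f q).1) ∧
      (f q).2 ∈ K.Hl.filter (fun z => cl z = cl (f q).1) := by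
    intro q hq
    obtain ⟨a1, a2, a3⟩ := d1 q hq
    exact ⟨mem_filter.2 ⟨a1, rfl⟩, mem_filter.2 ⟨a2, a3.cls.symm⟩⟩
  have v2 : ∀ q ∈ Q2 K ∩ Q3 K, (f' q).1 ∈ K.Hr.filter (fun z => cl z = cl (f' q).1) ∧
      (f' q).2 ∈ K.Hl.filter (fun z => cl z = cl (f' q).1) := by
    intro q hq
    obtain ⟨a1, a2, _, _, _, a3⟩ := d2 q hq
    exact ⟨mem_filter.2 ⟨a1, rfl⟩, mem_filter.2 ⟨a2, neg_injective a3.cls.symm⟩⟩
  have key : ∀ c ∈ C ∪ C', 2 + (if c ∈ C ∩ C' then 1 else 0) ≤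
      (K.Hr.filter fun z => cl z = c).card + (K.Hl.filter fun z => cl z = c).card := by
    intro c hc
    by_cases hcc : c ∈ C ∩ C'
    · rw [if_pos hcc]
      obtain ⟨q, hq, hqc⟩ := m1 c (mem_inter.1 hcc).1
      obtain ⟨q', hq', hqc'⟩ := m2 c (mem_inter.1 hcc).2
      have g1 := v1 q hq
      have g2 := v2 q' hq'
      rw [hqc] at g1
      rw [hqc'] at g2
      have p1 : 0 < (K.Hr.filter fun z => cl z = c).card := card_pos.2 ⟨_, g1.1⟩
      have p2 : 0 < (K.Hl.filter fun z => cl z = c).card := card_pos.2 ⟨_, g1.2⟩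
      by_cases hzz : (f q).1 = (f' q').1
      · have hww : (f q).2 ≠ (f' q').2 := by
          intro hww
          obtain ⟨_, _, a3⟩ := d1 q hq
          obtain ⟨_, _, b1, b2, b3, _⟩ := d2 q' hq'
          have hlt : K.D.a q < K.D.a q' := by
            have := a3.hz
            have e1 : K.D.a (K.p (f q).1) = K.D.a (K.p (f' q').1) := by rw [hzz]
            rw [e1] at this
            exact this.trans b3
          have e1 := a3.qz
          have e2 := a3.qw
          rw [← hzz] at b1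
          rw [← hww] at b2
          unfold Arr.val at e1 e2 b1 b2
          have e5 : (K.D.a q' - K.D.a q) * ((f q).1.1 - (f q).2.1) = 0 := by
            linear_combination b1 - b2 - e1 + e2
          rcases mul_eq_zero.1 e5 with h6 | h6
          · exact absurd h6 (sub_pos.2 hlt).ne'
          · exact a3.x_ne (sub_eq_zero.1 h6)
        have : 1 < (K.Hl.filter fun z => cl z = c).card :=
          Finset.one_lt_card.2 ⟨_, g1.2, _, g2.2, hww⟩
        omega
      · have : 1 < (K.Hr.filter fun z => cl z = c).card :=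
          Finset.one_lt_card.2 ⟨_, g1.1, _, g2.1, hzz⟩
        omega
    · rw [if_neg hcc]
      have : ∃ z w, z ∈ (K.Hr.filter fun z => cl z = c) ∧ w ∈ (K.Hl.filter fun z => cl z = c) := by
        rcases mem_union.1 hc with h | h
        · obtain ⟨q, hq, rfl⟩ := m1 c h
          exact ⟨_, _, (v1 q hq).1, (v1 q hq).2⟩
        · obtain ⟨q, hq, rfl⟩ := m2 c h
          exact ⟨_, _, (v2 q hq).1, (v2 q hq).2⟩
      obtain ⟨z, w, hz, hw⟩ := this
      have p1 : 0 < (K.Hr.filter fun z => cl z = c).card := card_pos.2 ⟨_, hz⟩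
      have p2 : 0 < (K.Hl.filter fun z => cl z = c).card := card_pos.2 ⟨_, hw⟩
      omega
  have s1 := Finset.sum_le_sum key
  rw [Finset.sum_add_distrib, Finset.sum_add_distrib] at s1
  have s2 := q14_fiber K.Hr cl (C ∪ C')
  have s3 := q14_fiber K.Hl cl (C ∪ C')
  have s4 : ∑ c ∈ C ∪ C', (if c ∈ C ∩ C' then 1 else 0) = (C ∩ C').card := by
    rw [Finset.sum_boole]
    have : (C ∪ C').filter (fun c => c ∈ C ∩ C') = C ∩ C' := by
      ext c
      simp only [mem_filter, mem_union, mem_inter]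
      tauto
    rw [this]
    simp
  have s5 : ∑ c ∈ C ∪ C', 2 = (C ∪ C').card * 2 := by rw [Finset.sum_const, smul_eq_mul]
  have s6 := Finset.card_union_add_card_inter C C'
  have s7 : (C ∩ C').card ≤ (C ∪ C').card :=
    Finset.card_le_card fun c hc => mem_union_left _ (mem_inter.1 hc).1
  rw [s4, s5] at s1
  omega

end Helper171
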