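import Pool.Agent.helper171_blk.Basic
import Pool.Agent.helper171_blk.JH1
import Pool.Agent.helper171_blk.JH2
import Pool.Agent.helper171_blk.JI
import Pool.Agent.helper171_blk.JJ

/-! The inequality for one chart. -/

namespace Helper171
open Finset Classical

lemma chartJK_S {ι : Type*} [Fintype ι] (K : Chart ι) : ∑ z ∈ K.Hr ∪ K.Hl, (K.D.b z - 1) ≤
    2 * (K.Hr.card + K.Hl.card) + ((Q1 K).card + (Q2 K).card + (Q3 K).card + (Q4 K).card) := by
  rw [sum_b_eq, Finset.sum_add_distrib, Finset.sum_add_distrib, Finset.sum_add_distrib]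
  have h1 := sum_T1 K
  have h2 := sum_T2 K
  have h3 := sum_T3 K
  have h4 := sum_T4 K
  omega

lemma chartJK_inj12 {ι : Type*} [Fintype ι] (K : Chart ι) :
    Set.InjOn K.D.a (Q1 K ∪ Q2 K : Finset ι) := by
  intro q hq q' hq' h
  refine K.hD q q' h (le_antisymm ?_ ?_)
  · exact top_of_mem K q' q hq' h
  · exact top_of_mem K q q' hq h.symm

lemma chartJK_inj34 {ι : Type*} [Fintype ι] (K : Chart ι) :
    Set.InjOn K.D.a (Q3 K ∪ Q4 K : Finset ι) := by
  intro q hq q' hq' h
  refine K.hD q q' h (le_antisymm ?_ ?_)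
  · exact bot_of_mem K q q' hq h.symm
  · exact bot_of_mem K q' q hq' h

lemma chartJK_slope {ι : Type*} [Fintype ι] (K : Chart ι) (q : ι) : K.D.a q ∈ slopes K.D := by
  unfold slopes
  exact Finset.mem_image_of_mem _ (Finset.mem_univ _)

lemma chartJK_U {ι : Type*} [Fintype ι] (K : Chart ι) :
    ((Q1 K ∪ Q2 K) ∪ (Q3 K ∪ Q4 K)).card ≤ ∑ y ∈ slopes K.D, min 2 (mult K.D y) := by
  rw [Finset.card_eq_sum_card_fiberwise (f := K.D.a) (t := slopes K.D)
    (fun q _ => chartJK_slope K q)]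
  refine Finset.sum_le_sum fun y _ => ?_
  refine le_min ?_ ?_
  · rw [Finset.filter_union]
    refine (Finset.card_union_le _ _).trans ?_
    have h1 : ((Q1 K ∪ Q2 K).filter fun q => K.D.a q = y).card ≤ 1 := by
      rw [Finset.card_le_one]
      intro a ha b hb
      rw [Finset.mem_filter] at ha hb
      exact chartJK_inj12 K ha.1 hb.1 (ha.2.trans hb.2.symm)
    have h2 : ((Q3 K ∪ Q4 K).filter fun q => K.D.a q = y).card ≤ 1 := by
      rw [Finset.card_le_one]
      intro a ha b hb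
      rw [Finset.mem_filter] at ha hb
      exact chartJK_inj34 K ha.1 hb.1 (ha.2.trans hb.2.symm)
    omega
  · unfold mult
    refine Finset.card_le_card fun q hq => ?_
    rw [Finset.mem_filter] at hq ⊢
    exact ⟨Finset.mem_univ _, hq.2⟩

theorem chart_A {ι : Type*} [Fintype ι] (K : Chart ι) : ∑ z ∈ K.Hr ∪ K.Hl, (K.D.b z - 1) ≤
    4 * (K.Hr.card + K.Hl.card) + 2 * (slopes K.D).card := by
  have h0 := chartJK_S K
  have h1 := Finset.card_union_add_card_inter (Q1 K) (Q2 K)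
  have h2 := Finset.card_union_add_card_inter (Q3 K) (Q4 K)
  have h3 := card_Q12 K
  have h4 := card_Q34 K
  have h5 : (Q1 K ∪ Q2 K).card ≤ (slopes K.D).card :=
    Finset.card_le_card_of_injOn K.D.a (fun q _ => chartJK_slope K q) (chartJK_inj12 K)
  have h6 : (Q3 K ∪ Q4 K).card ≤ (slopes K.D).card :=
    Finset.card_le_card_of_injOn K.D.a (fun q _ => chartJK_slope K q) (chartJK_inj34 K)
  omega

theorem chart_B {ι : Type*} [Fintype ι] (K : Chart ι) : 3 * ∑ z ∈ K.Hr ∪ K.Hl, (K.D.b z - 1) ≤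
    14 * (K.Hr.card + K.Hl.card) + 3 * ∑ y ∈ slopes K.D, min 2 (mult K.D y) + 18 := by
  have h0 := chartJK_S K
  have h1 := Finset.card_union_add_card_inter (Q1 K) (Q2 K)
  have h2 := Finset.card_union_add_card_inter (Q3 K) (Q4 K)
  have h3 := card_Q12 K
  have h4 := card_Q34 K
  have h5 := Finset.card_union_add_card_inter (Q1 K ∪ Q2 K) (Q3 K ∪ Q4 K)
  have h6 := chartJK_U K
  have h7 : ((Q1 K ∪ Q2 K) ∩ (Q3 K ∪ Q4 K)).card ≤
      (Q1 K ∩ Q4 K).card + (Q2 K ∩ Q3 K).card := by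
    refine le_trans (Finset.card_le_card ?_) (Finset.card_union_le _ _)
    intro q hq
    have a1 : q ∈ Q1 K → q ∉ Q3 K := fun h => Finset.disjoint_left.1 (Q13 K) h
    have a2 : q ∈ Q2 K → q ∉ Q4 K := fun h => Finset.disjoint_left.1 (Q24 K) h
    simp only [Finset.mem_inter, Finset.mem_union] at hq ⊢
    tauto
  have h8 := card_Q14_Q23 K
  omega

end Helper171
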