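import Pool.Agent.helper171_blk.Basic
import Pool.Agent.helper171_blk.JK
import Pool.Agent.helper171_blk.JM
import Pool.Agent.helper171_blk.JN

/-! Exposed vertices of one red line. -/

namespace Helper171
open Finset Classical

theorem sum_exposed_chart {ι κ : Type*} [Fintype ι] [Fintype κ] (C : Conf ι κ) (j : κ)
    (X : Finset (ℝ × ℝ)) (hX : X.Nonempty) (hr : ∀ z ∈ X, j ∈ reds C z) :
    ∃ K : Chart ι, K.D = DC C j ∧
      ∑ z ∈ K.Hr ∪ K.Hl, (K.D.b z - 1) = ∑ z ∈ X, (C.A.b z - 1) ∧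
      K.Hr.card + K.Hl.card = X.card := by
  have h1 : ∀ z ∈ X, ∃ p : ι, ht C j z ≠ 0 ∧
      (FreeR (DC C j) p (Ph C j z) ∨ FreeL (DC C j) p (Ph C j z)) := by
    intro z hz
    have h2 := hr z hz
    simp only [reds, mem_filter, mem_univ, true_and] at h2
    obtain ⟨p, w, h3, h4⟩ := h2
    exact ⟨p, free_of_adj C j p w z h3 h4⟩
  obtain ⟨z0, hz0⟩ := hX
  obtain ⟨p0, -⟩ := h1 z0 hz0
  have h2 : ∀ z, ∃ p : ι, z ∈ X → ht C j z ≠ 0 ∧
      (FreeR (DC C j) p (Ph C j z) ∨ FreeL (DC C j) p (Ph C j z)) := by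
    intro z
    by_cases hz : z ∈ X
    · obtain ⟨p, hp⟩ := h1 z hz
      exact ⟨p, fun _ => hp⟩
    · exact ⟨p0, fun h => absurd h hz⟩
  choose pz hpz using h2
  have hinj : Set.InjOn (Ph C j) (X : Set (ℝ × ℝ)) := (Ph_injOn C j).mono fun z hz =>
    (hpz z hz).1
  have hinv : ∀ z ∈ X, Function.invFunOn (Ph C j) (X : Set (ℝ × ℝ)) (Ph C j z) = z := by
    intro z hz
    exact hinj.leftInvOn_invFunOn hz
  set X1 := X.filter fun z => FreeR (DC C j) (pz z) (Ph C j z) with hX1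
  have hX1s : X1 ⊆ X := filter_subset _ _
  have hinj1 : Set.InjOn (Ph C j) (X1 : Set (ℝ × ℝ)) := hinj.mono (by exact_mod_cast hX1s)
  have hinj2 : Set.InjOn (Ph C j) ((X \ X1 : Finset (ℝ × ℝ)) : Set (ℝ × ℝ)) :=
    hinj.mono (by exact_mod_cast sdiff_subset)
  refine ⟨{ D := DC C j, Hr := X1.image (Ph C j), Hl := (X \ X1).image (Ph C j),
            p := fun y => pz (Function.invFunOn (Ph C j) (X : Set (ℝ × ℝ)) y),
            hD := DC_inj C j, hdisj := ?_, hr := ?_, hl := ?_ }, rfl, ?_, ?_⟩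
  · rw [disjoint_left]
    intro y hy hy'
    obtain ⟨z, hz, rfl⟩ := mem_image.1 hy
    obtain ⟨z', hz', h3⟩ := mem_image.1 hy'
    rw [mem_sdiff] at hz'
    have h4 := hinj hz'.1 (hX1s hz) h3
    subst h4
    exact hz'.2 hz
  · intro y hy
    obtain ⟨z, hz, rfl⟩ := mem_image.1 hy
    rw [hinv z (hX1s hz)]
    exact (mem_filter.1 hz).2
  · intro y hy
    obtain ⟨z, hz, rfl⟩ := mem_image.1 hy
    rw [mem_sdiff] at hz
    rw [hinv z hz.1]
    rcases (hpz z hz.1).2 with h3 | h3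
    · exact absurd (mem_filter.2 ⟨hz.1, h3⟩) hz.2
    · exact h3
  · show ∑ z ∈ X1.image (Ph C j) ∪ (X \ X1).image (Ph C j), ((DC C j).b z - 1) = _
    rw [← image_union, union_sdiff_of_subset hX1s, sum_image hinj]
    refine sum_congr rfl fun z hz => ?_
    unfold Arr.b
    rw [L_Ph C j z (hpz z hz).1]
  · show (X1.image (Ph C j)).card + ((X \ X1).image (Ph C j)).card = X.card
    rw [card_image_of_injOn hinj1, card_image_of_injOn hinj2, add_comm,
      card_sdiff_add_card_eq_card hX1s]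

theorem sum_exposed_A {ι κ : Type*} [Fintype ι] [Fintype κ] (C : Conf ι κ) (j : κ) :
    ∑ z ∈ C.A.V.filter (fun z => 6 ≤ C.A.b z ∧ j ∈ reds C z), (C.A.b z - 5) ≤
      2 * ((C.Sel j).card + (C.Non j).card) := by
  set X := C.A.V.filter (fun z => 6 ≤ C.A.b z ∧ j ∈ reds C z) with hXd
  rcases X.eq_empty_or_nonempty with h0 | h0
  · rw [h0, sum_empty]
    exact Nat.zero_le _
  obtain ⟨K, hK, h1, h2⟩ := sum_exposed_chart C j X h0 fun z hz => (mem_filter.1 hz).2.2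
  have h3 := chart_A K
  rw [h1, h2, hK, slopes_card] at h3
  have h4 : ∑ z ∈ X, (C.A.b z - 1) = ∑ z ∈ X, (C.A.b z - 5) + X.card * 4 := by
    rw [← smul_eq_mul, ← sum_const, ← sum_add_distrib]
    refine sum_congr rfl fun z hz => ?_
    have := (mem_filter.1 hz).2.1
    omega
  omega

theorem sum_exposed_B {ι κ : Type*} [Fintype ι] [Fintype κ] (C : Conf ι κ) (j : κ) :
    ∑ z ∈ C.A.V.filter (fun z => 6 ≤ C.A.b z ∧ j ∈ reds C z), (3 * C.A.b z - 17) ≤
      3 * (2 * (C.Sel j).card + ∑ y ∈ C.Non j, C.A.b y) + 18 := by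
  set X := C.A.V.filter (fun z => 6 ≤ C.A.b z ∧ j ∈ reds C z) with hXd
  rcases X.eq_empty_or_nonempty with h0 | h0
  · rw [h0, sum_empty]
    exact Nat.zero_le _
  obtain ⟨K, hK, h1, h2⟩ := sum_exposed_chart C j X h0 fun z hz => (mem_filter.1 hz).2.2
  have h3 := chart_B K
  rw [h1, h2, hK] at h3
  have h5 := sum_min_mult C j
  have h4 : 3 * ∑ z ∈ X, (C.A.b z - 1) = ∑ z ∈ X, (3 * C.A.b z - 17) + X.card * 14 := by
    rw [← smul_eq_mul X.card, ← sum_const, ← sum_add_distrib, mul_sum]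
    refine sum_congr rfl fun z hz => ?_
    have := (mem_filter.1 hz).2.1
    omega
  omega

end Helper171
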