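import Pool.Agent.helper171_blk.Basic
import Pool.Agent.helper171_blk.JP
import Pool.Agent.helper171_blk.JQ

/-! Summation over the red lines; lines with few vertices. -/

namespace Helper171
open Finset Classical

theorem inc_aux {ι κ : Type*} [Fintype ι] [Fintype κ] (C : Conf ι κ)
    (h3 : ∀ p : ι, 3 ≤ (C.A.V.filter fun y => p ∈ C.A.L y).card) (f : ℕ → ℕ) :
    ∑ z ∈ C.A.V.filter (fun z => 6 ≤ C.A.b z), C.A.b z * f (C.A.b z) ≤
      ∑ j, ∑ z ∈ C.A.V.filter (fun z => 6 ≤ C.A.b z ∧ j ∈ reds C z), f (C.A.b z) := by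
  have e : ∑ j, ∑ z ∈ C.A.V.filter (fun z => 6 ≤ C.A.b z ∧ j ∈ reds C z), f (C.A.b z) =
      ∑ z ∈ C.A.V.filter (fun z => 6 ≤ C.A.b z), (reds C z).card * f (C.A.b z) := by
    have e1 : ∀ j : κ, ∑ z ∈ C.A.V.filter (fun z => 6 ≤ C.A.b z ∧ j ∈ reds C z), f (C.A.b z) =
        ∑ z ∈ C.A.V.filter (fun z => 6 ≤ C.A.b z), if j ∈ reds C z then f (C.A.b z) else 0 := by
      intro j
      rw [← filter_filter, sum_filter]
    simp_rw [e1]
    rw [sum_comm]
    refine sum_congr rfl fun z _ => ?_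
    rw [← sum_filter, sum_const, smul_eq_mul]
    congr 2
    ext j
    simp
  rw [e]
  refine sum_le_sum fun z hz => ?_
  exact Nat.mul_le_mul_right _ (b_le_reds C z (mem_filter.1 hz).1 fun p _ => h3 p)

theorem inc_A {ι κ : Type*} [Fintype ι] [Fintype κ] (C : Conf ι κ)
    (h3 : ∀ p : ι, 3 ≤ (C.A.V.filter fun y => p ∈ C.A.L y).card) :
    ∑ z ∈ C.A.V.filter (fun z => 6 ≤ C.A.b z), C.A.b z * (C.A.b z - 5) ≤
      2 * C.A.V.card + 2 * C.W := by
  refine (inc_aux C h3 fun b => b - 5).trans ?_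
  have h := Finset.sum_le_sum fun (j : κ) (_ : j ∈ (univ : Finset κ)) => sum_exposed_A C j
  refine h.trans ?_
  rw [← mul_sum, sum_add_distrib, ← card_V_eq]
  have h2 : ∑ j, (C.Non j).card ≤ C.W := sig_le_W C
  omega

theorem inc_B {ι κ : Type*} [Fintype ι] [Fintype κ] (C : Conf ι κ)
    (h3 : ∀ p : ι, 3 ≤ (C.A.V.filter fun y => p ∈ C.A.L y).card) :
    ∑ z ∈ C.A.V.filter (fun z => 6 ≤ C.A.b z), C.A.b z * (3 * C.A.b z - 17) ≤
      6 * C.A.V.card + 3 * C.W + 18 * Fintype.card κ := by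
  refine (inc_aux C h3 fun b => 3 * b - 17).trans ?_
  have h := Finset.sum_le_sum fun (j : κ) (_ : j ∈ (univ : Finset κ)) => sum_exposed_B C j
  refine h.trans ?_
  rw [sum_add_distrib, ← mul_sum, sum_add_distrib, ← mul_sum, ← card_V_eq, sum_const,
    card_univ, smul_eq_mul]
  have h2 : ∑ j, ∑ y ∈ C.Non j, C.A.b y = C.W := rfl
  rw [h2]
  apply le_of_eq
  ring

theorem fv_cross {ι κ : Type*} [Fintype ι] [Fintype κ] (C : Conf ι κ) (i k : ι) (hik : i ≠ k) :
    ∃ y ∈ C.A.V, i ∈ C.A.L y ∧ k ∈ C.A.L y := by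
  have hne : C.A.a i - C.A.a k ≠ 0 := sub_ne_zero.2 fun h => hik (C.ha h)
  refine ⟨((C.A.c k - C.A.c i) / (C.A.a i - C.A.a k),
    C.A.val i ((C.A.c k - C.A.c i) / (C.A.a i - C.A.a k))), ?_, ?_, ?_⟩
  · rw [mem_V C.A C.ha]
    have h2 : ({i, k} : Finset ι) ⊆ C.A.L ((C.A.c k - C.A.c i) / (C.A.a i - C.A.a k),
        C.A.val i ((C.A.c k - C.A.c i) / (C.A.a i - C.A.a k))) := by
      intro q hq
      rw [mem_insert, mem_singleton] at hq
      rw [mem_L]
      rcases hq with rfl | rfl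
      · rfl
      · simp only [Arr.val]
        field_simp
        ring
    have := card_le_card h2
    rwa [card_pair hik] at this
  · rw [mem_L]
  · rw [mem_L]
    simp only [Arr.val]
    field_simp
    ring

theorem fv_uniq {ι κ : Type*} [Fintype ι] [Fintype κ] (C : Conf ι κ) (i k : ι) (hik : i ≠ k)
    (y y' : ℝ × ℝ) (h1 : i ∈ C.A.L y) (h2 : k ∈ C.A.L y) (h3 : i ∈ C.A.L y')
    (h4 : k ∈ C.A.L y') : y = y' := by
  rw [mem_L] at h1 h2 h3 h4
  have hne : C.A.a i - C.A.a k ≠ 0 := sub_ne_zero.2 fun h => hik (C.ha h)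
  simp only [Arr.val] at h1 h2 h3 h4
  have h5 : y.1 = y'.1 := by
    have : (C.A.a i - C.A.a k) * (y.1 - y'.1) = 0 := by linarith
    rcases mul_eq_zero.1 this with h | h
    · exact absurd h hne
    · linarith
  exact Prod.ext h5 (by rw [← h1, ← h3, h5])

/-- the number of lines through one of the two vertices -/
theorem fv_card {ι κ : Type*} [Fintype ι] [Fintype κ] (C : Conf ι κ) (p : ι) (z w : ℝ × ℝ)
    (hz : p ∈ C.A.L z) (hw : w ∈ C.A.V) (hpw : p ∈ C.A.L w) (hzw : z ≠ w) :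
    C.A.b z ≤ Fintype.card κ := by
  have h2 : 1 < (C.A.L w).card := (mem_V C.A C.ha w).1 hw
  obtain ⟨q, hq, hqp⟩ := exists_mem_ne h2 p
  have hqz : q ∉ C.A.L z := fun h => hzw (fv_uniq C q p hqp z w h hz hq hpw)
  have hne : ∀ i ∈ C.A.L z, i ≠ q := fun i hi h => hqz (h ▸ hi)
  have hex : ∀ i : ι, ∃ y : ℝ × ℝ, i ∈ C.A.L z → y ∈ C.A.V ∧ i ∈ C.A.L y ∧ q ∈ C.A.L y := by
    intro i
    by_cases hi : i ∈ C.A.L z
    · obtain ⟨y, h1, h2⟩ := fv_cross C i q (hne i hi)
      exact ⟨y, fun _ => ⟨h1, h2⟩⟩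
    · exact ⟨z, fun h => absurd h hi⟩
  choose y hy using hex
  unfold Arr.b
  rw [← card_univ]
  apply card_le_card_of_injOn (fun i => C.ρ (y i)) (fun i _ => mem_coe.2 (mem_univ _))
  intro i hi k hk hik
  simp only at hik
  rw [mem_coe] at hi hk
  obtain ⟨a1, a2, a3⟩ := hy i hi
  obtain ⟨b1, b2, b3⟩ := hy k hk
  have hyy : y i = y k := by
    have r1 := C.hρ _ a1
    have r2 := C.hρ _ b1
    rw [← hik] at r2
    rw [mem_L] at a3 b3
    have hne := sub_ne_zero.2 (C.har q (C.ρ (y i)))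
    simp only [Arr.val] at r1 r2 a3 b3
    have h5 : (y i).1 = (y k).1 := by
      have : (C.A.a q - C.R.a (C.ρ (y i))) * ((y i).1 - (y k).1) = 0 := by linarith
      rcases mul_eq_zero.1 this with h | h
      · exact absurd h hne
      · linarith
    exact Prod.ext h5 (by rw [← a3, ← b3, h5])
  by_contra hne2
  have := fv_uniq C i k hne2 (y i) z a2 (hyy ▸ b2) hi hk
  rw [this] at a3
  exact hqz a3

theorem few_vertices {ι κ : Type*} [Fintype ι] [Fintype κ] (C : Conf ι κ) (p : ι)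
    (h2 : (C.A.V.filter fun y => p ∈ C.A.L y).card ≤ 2)
    (hn : ∃ v w, v ∈ C.A.V ∧ w ∈ C.A.V ∧ v ≠ w) : Fintype.card ι + 1 ≤ 2 * Fintype.card κ := by
  obtain ⟨v, w, hv, hw, hvw⟩ := hn
  -- a line different from `p`
  obtain ⟨q, hq, hqp⟩ := exists_mem_ne (show 1 < (C.A.L v).card from (mem_V C.A C.ha v).1 hv) p
  obtain ⟨z, hz, hqz, hpz⟩ := fv_cross C q p hqp
  have hzS : z ∈ C.A.V.filter fun y => p ∈ C.A.L y := mem_filter.2 ⟨hz, hpz⟩
  -- a second vertex on `p`
  have hex : ∃ z' ∈ C.A.V.filter (fun y => p ∈ C.A.L y), z' ≠ z := by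
    by_contra hc
    push Not at hc
    have hall : ∀ i : ι, i ∈ C.A.L z := by
      intro i
      by_cases hip : i = p
      · rw [hip]; exact hpz
      · obtain ⟨y, hy, h1, h2⟩ := fv_cross C i p hip
        have := hc y (mem_filter.2 ⟨hy, h2⟩)
        rw [← this]; exact h1
    have hV : ∀ u ∈ C.A.V, u = z := by
      intro u hu
      have h1 : 1 < (C.A.L u).card := (mem_V C.A C.ha u).1 hu
      obtain ⟨i, hi, k, hk, hik⟩ := one_lt_card.1 h1
      exact fv_uniq C i k hik u z hi hk (hall i) (hall k)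
    exact hvw ((hV v hv).trans (hV w hw).symm)
  obtain ⟨z', hz'S, hne⟩ := hex
  obtain ⟨hz', hpz'⟩ := mem_filter.1 hz'S
  have hS : (C.A.V.filter fun y => p ∈ C.A.L y) = {z, z'} := by
    symm
    apply eq_of_subset_of_card_le
    · intro y hy
      rw [mem_insert, mem_singleton] at hy
      rcases hy with rfl | rfl
      · exact hzS
      · exact hz'S
    · rw [card_pair (Ne.symm hne)]; exact h2
  have hb1 := fv_card C p z z' hpz hz' hpz' (Ne.symm hne)
  have hb2 := fv_card C p z' z hpz' hz hpz hne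
  have hun : C.A.L z ∪ C.A.L z' = univ := by
    rw [eq_univ_iff_forall]
    intro i
    rw [mem_union]
    by_cases hip : i = p
    · left; rw [hip]; exact hpz
    · obtain ⟨y, hy, h1, h2⟩ := fv_cross C i p hip
      have hyS : y ∈ C.A.V.filter fun y => p ∈ C.A.L y := mem_filter.2 ⟨hy, h2⟩
      rw [hS, mem_insert, mem_singleton] at hyS
      rcases hyS with rfl | rfl
      · left; exact h1
      · right; exact h1
  have hin : C.A.L z ∩ C.A.L z' = {p} := by
    ext i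
    rw [mem_inter, mem_singleton]
    constructor
    · rintro ⟨h1, h3⟩
      by_contra hip
      exact hne (fv_uniq C i p hip z' z h3 hpz' h1 hpz)
    · rintro rfl
      exact ⟨hpz, hpz'⟩
  have hcard := card_union_add_card_inter (C.A.L z) (C.A.L z')
  rw [hun, hin, card_univ, card_singleton] at hcard
  unfold Arr.b at hb1 hb2
  omega

end Helper171
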