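import Pool.Agent.helper171_blk.Chord
import Pool.Agent.helper171_blk.JR

/-! Combination of the inequalities in the dual picture. -/

namespace Helper171
open Finset Classical

section
variable {ι κ : Type*} [Fintype ι] [Fintype κ]

theorem two_le_b (C : Conf ι κ) {v : ℝ × ℝ} (hv : v ∈ C.A.V) : 2 ≤ C.A.b v :=
  (mem_V C.A C.ha v).1 hv

theorem int_total (C : Conf ι κ) :
    (Fintype.card ι : ℤ) * (Fintype.card κ : ℤ) = (C.E : ℤ) + (C.W : ℤ) := by
  exact_mod_cast total C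

theorem int_chord (C : Conf ι κ) :
    2 * (C.E : ℤ) ≤ 5 * (C.A.V.card : ℤ) + (C.sig : ℤ) + (Fintype.card κ : ℤ) +
      4 * (Fintype.card ι : ℤ) + 4 := by
  exact_mod_cast chord C

theorem int_mel (C : Conf ι κ) :
    (C.E : ℤ) ≤ 3 * (C.A.V.card : ℤ) + (Fintype.card ι : ℤ) + 1 := by
  exact_mod_cast melchior C

theorem int_sig (C : Conf ι κ) : (C.sig : ℤ) ≤ (C.W : ℤ) := by exact_mod_cast sig_le_W C

theorem int_E (C : Conf ι κ) : (C.E : ℤ) = ∑ v ∈ C.A.V, (C.A.b v : ℤ) := by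
  unfold Conf.E
  push_cast
  rfl

theorem int_pairs (C : Conf ι κ) :
    ∑ v ∈ C.A.V, (C.A.b v : ℤ) * ((C.A.b v : ℤ) - 1) =
      (Fintype.card ι : ℤ) * ((Fintype.card ι : ℤ) - 1) := by
  have h := sum_pairs C.A C.ha
  have h' : ((∑ v ∈ C.A.V, C.A.b v * (C.A.b v - 1) : ℕ) : ℤ) =
      ((Fintype.card ι * (Fintype.card ι - 1) : ℕ) : ℤ) := by rw [h]
  rw [Nat.cast_sum] at h'
  have e1 : ∀ v ∈ C.A.V, ((C.A.b v * (C.A.b v - 1) : ℕ) : ℤ) =
      (C.A.b v : ℤ) * ((C.A.b v : ℤ) - 1) := by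
    intro v hv
    have := two_le_b C hv
    push_cast [Nat.cast_sub (show 1 ≤ C.A.b v by omega)]
    rfl
  rw [Finset.sum_congr rfl e1] at h'
  rw [h']
  rcases Nat.eq_zero_or_pos (Fintype.card ι) with h0 | h0
  · simp [h0]
  · push_cast [Nat.cast_sub (show 1 ≤ Fintype.card ι by omega)]
    rfl

/-- arithmetic of the last step -/
theorem arith_general (n m : ℤ) (hn : 0 ≤ n) (hm : 0 ≤ m)
    (h : 8 * n * (n - 1) ≤ 23 * n * m + 56 * (n + m + 1)) : 8 * n ≤ 23 * m + 83 := by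
  by_contra hc
  push Not at hc
  nlinarith [mul_nonneg hn (sub_nonneg.2 (show 23 * m + 84 ≤ 8 * n by omega)), hn, hm]

/-- The general bound in the dual picture. -/
theorem dual_bound (C : Conf ι κ) (hn : ∃ v w, v ∈ C.A.V ∧ w ∈ C.A.V ∧ v ≠ w) :
    8 * Fintype.card ι ≤ 23 * Fintype.card κ + 83 := by
  by_cases h3 : ∀ p : ι, 3 ≤ (C.A.V.filter fun y => p ∈ C.A.L y).card
  · have hA := inc_A C h3
    have hB := inc_B C h3
    have hch := int_chord C
    have hsW := int_sig C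
    have hT := int_total C
    have hP := int_pairs C
    have hE := int_E C
    set n : ℤ := (Fintype.card ι : ℤ) with hndef
    set m : ℤ := (Fintype.card κ : ℤ) with hmdef
    -- integer versions
    have hA' : ∑ z ∈ C.A.V, (if 6 ≤ C.A.b z then (C.A.b z : ℤ) * ((C.A.b z : ℤ) - 5) else 0) ≤
        2 * (C.A.V.card : ℤ) + 2 * (C.W : ℤ) := by
      rw [← Finset.sum_filter]
      have : ((∑ z ∈ C.A.V.filter (fun z => 6 ≤ C.A.b z), C.A.b z * (C.A.b z - 5) : ℕ) : ℤ) ≤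
          ((2 * C.A.V.card + 2 * C.W : ℕ) : ℤ) := by exact_mod_cast hA
      rw [Nat.cast_sum] at this
      refine le_trans (le_of_eq ?_) (le_trans this (by push_cast; exact le_refl _))
      apply Finset.sum_congr rfl
      intro z hz
      have := (mem_filter.1 hz).2
      push_cast [Nat.cast_sub (show 5 ≤ C.A.b z by omega)]
      rfl
    have hB' : ∑ z ∈ C.A.V, (if 6 ≤ C.A.b z then (C.A.b z : ℤ) * (3 * (C.A.b z : ℤ) - 17) else 0) ≤
        6 * (C.A.V.card : ℤ) + 3 * (C.W : ℤ) + 18 * m := by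
      rw [← Finset.sum_filter]
      have : ((∑ z ∈ C.A.V.filter (fun z => 6 ≤ C.A.b z), C.A.b z * (3 * C.A.b z - 17) : ℕ) : ℤ) ≤
          ((6 * C.A.V.card + 3 * C.W + 18 * Fintype.card κ : ℕ) : ℤ) := by exact_mod_cast hB
      rw [Nat.cast_sum] at this
      refine le_trans (le_of_eq ?_) (le_trans this (by push_cast; exact le_refl _))
      apply Finset.sum_congr rfl
      intro z hz
      have := (mem_filter.1 hz).2
      push_cast [Nat.cast_sub (show 17 ≤ 3 * C.A.b z by omega)]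
      rfl
    have hch' : 2 * (C.E : ℤ) ≤ 5 * (C.A.V.card : ℤ) + (C.sig : ℤ) + m + 4 * n + 4 := hch
    have hsW' : (C.sig : ℤ) ≤ (C.W : ℤ) := hsW
    have hpt : ∀ z ∈ C.A.V, 24 * ((C.A.b z : ℤ) * ((C.A.b z : ℤ) - 1)) ≤
        153 * (C.A.b z : ℤ) - 258 +
        3 * (if 6 ≤ C.A.b z then (C.A.b z : ℤ) * ((C.A.b z : ℤ) - 5) else 0) +
        7 * (if 6 ≤ C.A.b z then (C.A.b z : ℤ) * (3 * (C.A.b z : ℤ) - 17) else 0) := by
      intro z hz
      have h2 := two_le_b C hz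
      by_cases h6 : 6 ≤ C.A.b z
      · rw [if_pos h6, if_pos h6]
        have : (6 : ℤ) ≤ (C.A.b z : ℤ) := by exact_mod_cast h6
        nlinarith
      · rw [if_neg h6, if_neg h6]
        have h5 : C.A.b z = 2 ∨ C.A.b z = 3 ∨ C.A.b z = 4 ∨ C.A.b z = 5 := by omega
        rcases h5 with h | h | h | h <;> rw [h] <;> norm_num
    have hsum := Finset.sum_le_sum hpt
    rw [← Finset.mul_sum, hP] at hsum
    rw [Finset.sum_add_distrib, Finset.sum_add_distrib, ← Finset.mul_sum, ← Finset.mul_sum,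
      Finset.sum_sub_distrib, ← Finset.mul_sum, ← hE, Finset.sum_const, nsmul_eq_mul] at hsum
    have hn0 : 0 ≤ n := Int.natCast_nonneg _
    have hm0 : 0 ≤ m := Int.natCast_nonneg _
    have key : 24 * (n * (n - 1)) ≤ 69 * (n * m) + 168 * (n + m + 1) := by
      rw [hT]
      linarith
    have := arith_general n m hn0 hm0 (by nlinarith)
    omega
  · push Not at h3
    obtain ⟨p, hp⟩ := h3
    have := few_vertices C p (by omega) hn
    omega

theorem arith_K5 (n m K : ℤ) (hn : 0 ≤ n) (hm : 0 ≤ m) (hK2 : 2 ≤ K) (hK5 : K ≤ 5)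
    (h : 5 * (n * (n - 1)) ≤ (K + 5) * (n * m) + 2 * K * m + 8 * K * n + 8 * K) :
    5 * n ≤ (K + 5) * m + 8 * K + 10 := by
  by_contra hc
  push Not at hc
  have h1 : (K + 5) * m + 8 * K + 11 ≤ 5 * n := by omega
  nlinarith [mul_nonneg hn (sub_nonneg.2 h1), mul_nonneg hm (sub_nonneg.2 hK5),
    mul_nonneg hm (sub_nonneg.2 hK2)]

/-- The bound for configurations with at most `K` lines through a point, `K ≤ 5`. -/
theorem dual_K5 (C : Conf ι κ) (K : ℕ) (hK2 : 2 ≤ K) (hK5 : K ≤ 5)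
    (hb : ∀ v ∈ C.A.V, C.A.b v ≤ K) :
    5 * Fintype.card ι ≤ (K + 5) * Fintype.card κ + 8 * K + 10 := by
  have hch := int_chord C
  have hsW := int_sig C
  have hT := int_total C
  have hP := int_pairs C
  have hE := int_E C
  set n : ℤ := (Fintype.card ι : ℤ) with hndef
  set m : ℤ := (Fintype.card κ : ℤ) with hmdef
  have hch' : 2 * (C.E : ℤ) ≤ 5 * (C.A.V.card : ℤ) + (C.sig : ℤ) + m + 4 * n + 4 := hch
  have hsW' : (C.sig : ℤ) ≤ (C.W : ℤ) := hsW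
  have k2 : (2 : ℤ) ≤ (K : ℤ) := by exact_mod_cast hK2
  have k5 : (K : ℤ) ≤ 5 := by exact_mod_cast hK5
  have hpt : ∀ z ∈ C.A.V, 5 * ((C.A.b z : ℤ) * ((C.A.b z : ℤ) - 1)) ≤
      (5 * (K : ℤ) + 5) * (C.A.b z : ℤ) - 10 * (K : ℤ) := by
    intro z hz
    have h2 : (2 : ℤ) ≤ (C.A.b z : ℤ) := by exact_mod_cast two_le_b C hz
    have h3 : (C.A.b z : ℤ) ≤ (K : ℤ) := by exact_mod_cast hb z hz
    nlinarith [mul_nonneg (sub_nonneg.2 h2) (sub_nonneg.2 h3)]
  have hsum := Finset.sum_le_sum hpt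
  rw [← Finset.mul_sum, hP] at hsum
  rw [Finset.sum_sub_distrib, ← Finset.mul_sum, ← hE, Finset.sum_const, nsmul_eq_mul] at hsum
  have hn0 : 0 ≤ n := Int.natCast_nonneg _
  have hm0 : 0 ≤ m := Int.natCast_nonneg _
  have hW0 : (0 : ℤ) ≤ (C.W : ℤ) := Int.natCast_nonneg _
  have key : 5 * (n * (n - 1)) ≤ ((K : ℤ) + 5) * (n * m) + 2 * K * m + 8 * K * n + 8 * K := by
    rw [hT]
    have a1 : 2 * (K : ℤ) * (2 * (C.E : ℤ)) ≤
        2 * (K : ℤ) * (5 * (C.A.V.card : ℤ) + (C.sig : ℤ) + m + 4 * n + 4) :=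
      mul_le_mul_of_nonneg_left hch' (by linarith)
    have a2 : 2 * (K : ℤ) * (C.sig : ℤ) ≤ 2 * (K : ℤ) * (C.W : ℤ) :=
      mul_le_mul_of_nonneg_left hsW' (by linarith)
    have a3 : 2 * (K : ℤ) * (C.W : ℤ) ≤ ((K : ℤ) + 5) * (C.W : ℤ) :=
      mul_le_mul_of_nonneg_right (by linarith) hW0
    linarith
  have := arith_K5 n m K hn0 hm0 k2 k5 key
  have h' : ((5 * Fintype.card ι : ℕ) : ℤ) ≤ (((K + 5) * Fintype.card κ + 8 * K + 10 : ℕ) : ℤ) := by
    push_cast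
    linarith
  exact_mod_cast h'

theorem arith_K (n m K : ℤ) (hn : 0 ≤ n)
    (h : (n + 1) * (4 * n - (5 * K + 15)) + 8 ≤ (K + 3) * (m * (n + 1))) :
    4 * n ≤ (K + 3) * m + 5 * K + 15 := by
  by_contra hc
  push Not at hc
  have h1 : (K + 3) * m ≤ 4 * n - (5 * K + 15) := by omega
  nlinarith [mul_le_mul_of_nonneg_right h1 (show (0 : ℤ) ≤ n + 1 by omega)]

/-- The bound for configurations with at most `K` lines through a point, `5 ≤ K`. -/
theorem dual_K (C : Conf ι κ) (K : ℕ) (hK5 : 5 ≤ K)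
    (hb : ∀ v ∈ C.A.V, C.A.b v ≤ K) :
    4 * Fintype.card ι ≤ (K + 3) * Fintype.card κ + 5 * K + 15 := by
  have hch := int_chord C
  have hme := int_mel C
  have hsW := int_sig C
  have hT := int_total C
  have hP := int_pairs C
  have hE := int_E C
  set n : ℤ := (Fintype.card ι : ℤ) with hndef
  set m : ℤ := (Fintype.card κ : ℤ) with hmdef
  have hch' : 2 * (C.E : ℤ) ≤ 5 * (C.A.V.card : ℤ) + (C.sig : ℤ) + m + 4 * n + 4 := hch
  have hme' : (C.E : ℤ) ≤ 3 * (C.A.V.card : ℤ) + n + 1 := hme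
  have hsW' : (C.sig : ℤ) ≤ (C.W : ℤ) := hsW
  have k5 : (5 : ℤ) ≤ (K : ℤ) := by exact_mod_cast hK5
  have hpt : ∀ z ∈ C.A.V, 4 * ((C.A.b z : ℤ) * ((C.A.b z : ℤ) - 1)) ≤
      (4 * (K : ℤ) + 4) * (C.A.b z : ℤ) - 8 * (K : ℤ) := by
    intro z hz
    have h2 : (2 : ℤ) ≤ (C.A.b z : ℤ) := by exact_mod_cast two_le_b C hz
    have h3 : (C.A.b z : ℤ) ≤ (K : ℤ) := by exact_mod_cast hb z hz
    nlinarith [mul_nonneg (sub_nonneg.2 h2) (sub_nonneg.2 h3)]
  have hsum := Finset.sum_le_sum hpt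
  rw [← Finset.mul_sum, hP] at hsum
  rw [Finset.sum_sub_distrib, ← Finset.mul_sum, ← hE, Finset.sum_const, nsmul_eq_mul] at hsum
  have hn0 : 0 ≤ n := Int.natCast_nonneg _
  have hm0 : 0 ≤ m := Int.natCast_nonneg _
  have a1 : ((K : ℤ) + 3) * (2 * (C.E : ℤ)) ≤
      ((K : ℤ) + 3) * (5 * (C.A.V.card : ℤ) + (C.sig : ℤ) + m + 4 * n + 4) :=
    mul_le_mul_of_nonneg_left hch' (by linarith)
  have a2 : ((K : ℤ) + 3) * (C.sig : ℤ) ≤ ((K : ℤ) + 3) * (C.W : ℤ) :=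
    mul_le_mul_of_nonneg_left hsW' (by linarith)
  have a3 : ((K : ℤ) - 5) * (C.E : ℤ) ≤ ((K : ℤ) - 5) * (3 * (C.A.V.card : ℤ) + n + 1) :=
    mul_le_mul_of_nonneg_left hme' (by linarith)
  have key : (n + 1) * (4 * n - (5 * (K : ℤ) + 15)) + 8 ≤ ((K : ℤ) + 3) * (m * (n + 1)) := by
    have e : ((K : ℤ) + 3) * (m * (n + 1)) = ((K : ℤ) + 3) * (n * m) + ((K : ℤ) + 3) * m := by ring
    rw [e, hT]
    linarith
  have := arith_K n m K hn0 key
  have h' : ((4 * Fintype.card ι : ℕ) : ℤ) ≤ (((K + 3) * Fintype.card κ + 5 * K + 15 : ℕ) : ℤ) := by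
    push_cast
    linarith
  exact_mod_cast h'

end

end Helper171
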