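import Mathlib

/-! Monotone functions covering a grid. -/

namespace Helper171
open Finset Classical

theorem grid_one (S T : Finset ℝ) (F : Finset (ℝ × ℝ)) (hF : ∀ f ∈ F, f.1 ≠ 0)
    (hc : ∀ s ∈ S, ∀ t ∈ T, ∃ f ∈ F, t = f.1 * s + f.2) (hS : S.Nonempty) : T.card ≤ F.card := by
  obtain ⟨s, hs⟩ := hS
  have hsub : T ⊆ F.image (fun f => f.1 * s + f.2) := by
    intro t ht
    obtain ⟨f, hf, h⟩ := hc s hs t ht
    exact Finset.mem_image.2 ⟨f, hf, h.symm⟩
  exact (Finset.card_le_card hsub).trans Finset.card_image_le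

theorem grid_two (S T : Finset ℝ) (F : Finset (ℝ × ℝ)) (hF : ∀ f ∈ F, f.1 ≠ 0)
    (hc : ∀ s ∈ S, ∀ t ∈ T, ∃ f ∈ F, t = f.1 * s + f.2) (hS : 2 ≤ S.card) (hT : 2 ≤ T.card) :
    S.card + T.card ≤ F.card + 2 := by
  have hSne : S.Nonempty := Finset.card_pos.1 (by omega)
  have hTne : T.Nonempty := Finset.card_pos.1 (by omega)
  obtain ⟨s0, hs0, hs0m⟩ := Finset.exists_min_image S id hSne
  obtain ⟨s1, hs1, hs1m⟩ := Finset.exists_max_image S id hSne
  obtain ⟨t0, ht0, ht0m⟩ := Finset.exists_min_image T id hTne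
  obtain ⟨t1, ht1, ht1m⟩ := Finset.exists_max_image T id hTne
  simp only [id] at hs0m hs1m ht0m ht1m
  have hs01 : s0 ≠ s1 := by
    intro h
    obtain ⟨a, ha, b, hb, hab⟩ := Finset.one_lt_card.1 (by omega : 1 < S.card)
    refine hab ?_
    have h1 := hs0m a ha
    have h2 := hs1m a ha
    have h3 := hs0m b hb
    have h4 := hs1m b hb
    linarith
  have ht01 : t0 ≠ t1 := by
    intro h
    obtain ⟨a, ha, b, hb, hab⟩ := Finset.one_lt_card.1 (by omega : 1 < T.card)
    refine hab ?_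
    have h1 := ht0m a ha
    have h2 := ht1m a ha
    have h3 := ht0m b hb
    have h4 := ht1m b hb
    linarith
  have hsubS : ({s0, s1} : Finset ℝ) ⊆ S := by
    intro x hx
    rcases Finset.mem_insert.1 hx with rfl | hx
    · exact hs0
    · rw [Finset.mem_singleton.1 hx]; exact hs1
  set B : Finset (ℝ × ℝ) := (({s0, s1} : Finset ℝ) ×ˢ T) ∪ ((S \ {s0, s1}) ×ˢ ({t0, t1} : Finset ℝ))
    with hB
  have hBcard : B.card = 2 * T.card + (S.card - 2) * 2 := by
    rw [hB, Finset.card_union_of_disjoint, Finset.card_product, Finset.card_product,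
      Finset.card_sdiff_of_subset hsubS, Finset.card_pair hs01, Finset.card_pair ht01]
    rw [Finset.disjoint_left]
    rintro ⟨x, y⟩ h1 h2
    rw [Finset.mem_product] at h1 h2
    exact (Finset.mem_sdiff.1 h2.1).2 h1.1
  have hBS : ∀ p ∈ B, p.1 ∈ S ∧ p.2 ∈ T ∧ (p.1 = s0 ∨ p.1 = s1 ∨ p.2 = t0 ∨ p.2 = t1) := by
    rintro ⟨x, y⟩ hp
    rcases Finset.mem_union.1 hp with h | h
    · rw [Finset.mem_product] at h
      obtain ⟨h1, h2⟩ := h
      refine ⟨hsubS h1, h2, ?_⟩
      rcases Finset.mem_insert.1 h1 with h | h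
      · exact Or.inl h
      · exact Or.inr (Or.inl (Finset.mem_singleton.1 h))
    · rw [Finset.mem_product] at h
      obtain ⟨h1, h2⟩ := h
      refine ⟨(Finset.mem_sdiff.1 h1).1, ?_, ?_⟩
      · rcases Finset.mem_insert.1 h2 with h | h
        · have h' : y = t0 := h
          show y ∈ T
          rw [h']; exact ht0
        · have h' : y = t1 := Finset.mem_singleton.1 h
          show y ∈ T
          rw [h']; exact ht1
      · rcases Finset.mem_insert.1 h2 with h | h
        · exact Or.inr (Or.inr (Or.inl h))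
        · exact Or.inr (Or.inr (Or.inr (Finset.mem_singleton.1 h)))
  have hcov : B ⊆ F.biUnion (fun f => B.filter (fun p => p.2 = f.1 * p.1 + f.2)) := by
    intro p hp
    obtain ⟨h1, h2, -⟩ := hBS p hp
    obtain ⟨f, hf, h⟩ := hc p.1 h1 p.2 h2
    exact Finset.mem_biUnion.2 ⟨f, hf, Finset.mem_filter.2 ⟨hp, h⟩⟩
  have htwo : ∀ f ∈ F, (B.filter (fun p => p.2 = f.1 * p.1 + f.2)).card ≤ 2 := by
    intro f hf
    have hf0 := hF f hf
    rcases (B.filter (fun p => p.2 = f.1 * p.1 + f.2)).eq_empty_or_nonempty with h | hne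
    · rw [h]; simp
    obtain ⟨p, hp, hpm⟩ := Finset.exists_min_image _ Prod.fst hne
    obtain ⟨q, hq, hqm⟩ := Finset.exists_max_image _ Prod.fst hne
    have hsub : B.filter (fun p => p.2 = f.1 * p.1 + f.2) ⊆ {p, q} := by
      intro r hr
      have hp' := Finset.mem_filter.1 hp
      have hq' := Finset.mem_filter.1 hq
      have hr' := Finset.mem_filter.1 hr
      by_contra hcon
      have hrp : r.1 ≠ p.1 := by
        intro h
        refine hcon (Finset.mem_insert.2 (Or.inl (Prod.ext h ?_)))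
        rw [hr'.2, hp'.2, h]
      have hrq : r.1 ≠ q.1 := by
        intro h
        refine hcon (Finset.mem_insert.2 (Or.inr (Finset.mem_singleton.2 (Prod.ext h ?_))))
        rw [hr'.2, hq'.2, h]
      have h1 : p.1 < r.1 := lt_of_le_of_ne (hpm r hr) (Ne.symm hrp)
      have h2 : r.1 < q.1 := lt_of_le_of_ne (hqm r hr) hrq
      obtain ⟨hpS, hpT, -⟩ := hBS p hp'.1
      obtain ⟨hqS, hqT, -⟩ := hBS q hq'.1
      obtain ⟨hrS, hrT, hbd⟩ := hBS r hr'.1
      have a1 := hs0m p.1 hpS
      have a2 := hs1m q.1 hqS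
      have b1 := ht0m p.2 hpT
      have b2 := ht0m q.2 hqT
      have b3 := ht1m p.2 hpT
      have b4 := ht1m q.2 hqT
      have e1 : r.2 - p.2 = f.1 * (r.1 - p.1) := by rw [hr'.2, hp'.2]; ring
      have e2 : q.2 - r.2 = f.1 * (q.1 - r.1) := by rw [hr'.2, hq'.2]; ring
      rcases lt_or_gt_of_ne hf0 with hneg | hpos
      · have c1 : f.1 * (r.1 - p.1) < 0 := mul_neg_of_neg_of_pos hneg (by linarith)
        have c2 : f.1 * (q.1 - r.1) < 0 := mul_neg_of_neg_of_pos hneg (by linarith)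
        rcases hbd with h | h | h | h <;> linarith
      · have c1 : 0 < f.1 * (r.1 - p.1) := mul_pos hpos (by linarith)
        have c2 : 0 < f.1 * (q.1 - r.1) := mul_pos hpos (by linarith)
        rcases hbd with h | h | h | h <;> linarith
    exact (Finset.card_le_card hsub).trans Finset.card_le_two
  have hfin := (Finset.card_le_card hcov).trans (Finset.card_biUnion_le_card_mul F _ 2 htwo)
  rw [hBcard] at hfin
  omega

end Helper171
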