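import Pool.Agent.helper171_blk.Geo
import Pool.Agent.helper171_blk.JT1

/-! Lower bound for sets on two lines. -/

namespace Helper171
open Finset Classical
open scoped LinearAlgebra.Projectivization

/-- The linear functional with coefficient vector `u`. -/
def LF (u x : Fin 3 → ℝ) : ℝ := u 0 * x 0 + u 1 * x 1 + u 2 * x 2

/-- The determinant of three vectors. -/
def D3 (u v w : Fin 3 → ℝ) : ℝ :=
  u 0 * (v 1 * w 2 - v 2 * w 1) - u 1 * (v 0 * w 2 - v 2 * w 0) + u 2 * (v 0 * w 1 - v 1 * w 0)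

theorem onLine_iff (p q : ℝ × ℝ) (b : ℙ ℝ (Fin 3 → ℝ)) :
    OnLine p q b ↔ D3 (hom p) (hom q) b.rep = 0 := by
  unfold OnLine D3
  rw [Matrix.det_fin_three]
  constructor
  · intro h
    rw [← h]
    simp [Matrix.of_apply]
    ring
  · intro h
    rw [← h]
    simp [Matrix.of_apply]
    ring

theorem D3_mul (u v w x y z : Fin 3 → ℝ) :
    LF u x * (LF v y * LF w z - LF w y * LF v z) - LF v x * (LF u y * LF w z - LF w y * LF u z)
      + LF w x * (LF u y * LF v z - LF v y * LF u z) = D3 u v w * D3 x y z := by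
  unfold LF D3
  ring

theorem LF_zero {u v w : Fin 3 → ℝ} (hD : D3 u v w ≠ 0) {z : Fin 3 → ℝ} (h1 : LF u z = 0)
    (h2 : LF v z = 0) (h3 : LF w z = 0) : z = 0 := by
  have e0 : D3 u v w * z 0 = 0 := by
    unfold D3 LF at *
    linear_combination (v 1 * w 2 - v 2 * w 1) * h1 - (u 1 * w 2 - u 2 * w 1) * h2
      + (u 1 * v 2 - u 2 * v 1) * h3
  have e1 : D3 u v w * z 1 = 0 := by
    unfold D3 LF at *
    linear_combination -(v 0 * w 2 - v 2 * w 0) * h1 + (u 0 * w 2 - u 2 * w 0) * h2
      - (u 0 * v 2 - u 2 * v 0) * h3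
  have e2 : D3 u v w * z 2 = 0 := by
    unfold D3 LF at *
    linear_combination (v 0 * w 1 - v 1 * w 0) * h1 - (u 0 * w 1 - u 1 * w 0) * h2
      + (u 0 * v 1 - u 1 * v 0) * h3
  funext i
  fin_cases i
  · exact (mul_eq_zero.1 e0).resolve_left hD
  · exact (mul_eq_zero.1 e1).resolve_left hD
  · exact (mul_eq_zero.1 e2).resolve_left hD

theorem LF_prop {u v w : Fin 3 → ℝ} (hD : D3 u v w ≠ 0) {x y : Fin 3 → ℝ} (c : ℝ)
    (h1 : LF u x = c * LF u y) (h2 : LF v x = c * LF v y) (h3 : LF w x = c * LF w y) :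
    x = c • y := by
  have : x - c • y = 0 := by
    apply LF_zero hD
    · unfold LF at *; simp only [Pi.sub_apply, Pi.smul_apply, smul_eq_mul]; linear_combination h1
    · unfold LF at *; simp only [Pi.sub_apply, Pi.smul_apply, smul_eq_mul]; linear_combination h2
    · unfold LF at *; simp only [Pi.sub_apply, Pi.smul_apply, smul_eq_mul]; linear_combination h3
  exact sub_eq_zero.1 this

theorem hom_smul_eq {p q : ℝ × ℝ} {c : ℝ} (h : hom p = c • hom q) : p = q := by
  have h2 := congrFun h 2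
  have h0 := congrFun h 0
  have h1 := congrFun h 1
  simp [hom] at h0 h1 h2
  rw [← h2] at h0 h1
  ext
  · simpa using h0
  · simpa using h1

theorem eq_emb {b : ℙ ℝ (Fin 3 → ℝ)} {p : ℝ × ℝ} {c : ℝ} (h : b.rep = c • hom p) : b = emb p := by
  rw [← b.mk_rep]
  unfold emb
  rw [Projectivization.mk_eq_mk_iff']
  exact ⟨c, h.symm⟩

theorem exists_functional {S : Set (ℝ × ℝ)} (h : Collinear ℝ S) :
    ∃ u : Fin 3 → ℝ, u ≠ 0 ∧ ∀ p ∈ S, LF u (hom p) = 0 := by
  obtain ⟨p0, v, hv⟩ := (collinear_iff_exists_forall_eq_smul_vadd (k := ℝ) S).1 h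
  by_cases hv0 : v = 0
  · refine ⟨![1, 0, -p0.1], ?_, ?_⟩
    · intro h
      have := congrFun h 0
      simp at this
    · intro p hp
      obtain ⟨r, rfl⟩ := hv p hp
      simp [LF, hom, hv0]
  · refine ⟨![v.2, -v.1, -(v.2 * p0.1 - v.1 * p0.2)], ?_, ?_⟩
    · intro h
      apply hv0
      have h0 := congrFun h 0
      have h1 := congrFun h 1
      simp at h0 h1
      ext
      · exact h1
      · exact h0
    · intro p hp
      obtain ⟨r, rfl⟩ := hv p hp
      simp [LF, hom]
      ring

theorem collinear_of_functional {S : Set (ℝ × ℝ)} {u : Fin 3 → ℝ} (hu : u ≠ 0)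
    (h : ∀ p ∈ S, LF u (hom p) = 0) : Collinear ℝ S := by
  rcases S.eq_empty_or_nonempty with rfl | ⟨p0, hp0⟩
  · exact collinear_empty ℝ _
  have h0 := h p0 hp0
  have hn : 0 < u 0 ^ 2 + u 1 ^ 2 := by
    by_contra hcon
    have e0 : u 0 = 0 := by nlinarith [sq_nonneg (u 0), sq_nonneg (u 1)]
    have e1 : u 1 = 0 := by nlinarith [sq_nonneg (u 0), sq_nonneg (u 1)]
    have e2 : u 2 = 0 := by simpa [LF, hom, e0, e1] using h0
    apply hu
    funext i
    fin_cases i
    · exact e0
    · exact e1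
    · exact e2
  refine (collinear_iff_exists_forall_eq_smul_vadd (k := ℝ) S).2 ⟨p0, (-u 1, u 0), fun p hp => ?_⟩
  have h1 := h p hp
  refine ⟨(u 0 * (p.2 - p0.2) - u 1 * (p.1 - p0.1)) / (u 0 ^ 2 + u 1 ^ 2), ?_⟩
  simp [LF, hom] at h0 h1
  ext
  · simp
    field_simp
    linear_combination u 0 * (h1 - h0)
  · simp
    field_simp
    linear_combination u 1 * (h1 - h0)

theorem caseA {R : Finset (ℝ × ℝ)} {B : Finset (ℙ ℝ (Fin 3 → ℝ))}
    (hcol : ¬ Collinear ℝ (R : Set (ℝ × ℝ))) (hB : Blocks R B) {U : Finset (ℝ × ℝ)}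
    (hU : U ⊆ R) (hc : Collinear ℝ (U : Set (ℝ × ℝ))) : U.card ≤ B.card := by
  obtain ⟨u, hu, h⟩ := exists_functional hc
  have : ∃ r ∈ R, LF u (hom r) ≠ 0 := by
    by_contra hcon
    push Not at hcon
    exact hcol (collinear_of_functional hu (fun p hp => hcon p (by simpa using hp)))
  obtain ⟨r, hr, hr0⟩ := this
  have hb : ∀ t : ℝ × ℝ, ∃ b : ℙ ℝ (Fin 3 → ℝ), t ∈ U → b ∈ B ∧ D3 (hom r) (hom t) b.rep = 0 := by
    intro t
    by_cases ht : t ∈ U
    · have hne : r ≠ t := by
        rintro rfl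
        exact hr0 (h r (by simpa using ht))
      obtain ⟨b, hbB, hbl⟩ := hB.2 r hr t (hU ht) hne
      exact ⟨b, fun _ => ⟨hbB, (onLine_iff _ _ _).1 hbl⟩⟩
    · exact ⟨emb r, fun h => absurd h ht⟩
  choose b hb using hb
  refine Finset.card_le_card_of_injOn b (fun t ht => (hb t (by simpa using ht)).1) ?_
  intro t ht t' ht' htt
  have ht1 : t ∈ U := by simpa using ht
  have ht1' : t' ∈ U := by simpa using ht'
  by_contra hne
  have e1 := (hb t ht1).2
  have e2 := (hb t' ht1').2
  rw [← htt] at e2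
  have hD : D3 (hom r) (hom t) (hom t') ≠ 0 := by
    intro hD
    -- the functional u
    have k1 := h t (by simpa using ht1)
    have k2 := h t' (by simpa using ht1')
    -- use r not on the line
    have hexp0 : LF u (hom r) * (hom t 1 * hom t' 2 - hom t 2 * hom t' 1) = u 0 * D3 (hom r) (hom t) (hom t') := by
      unfold LF D3 at *
      simp [hom] at *
      linear_combination (r.2 - t'.2) * k1 - (r.2 - t.2) * k2
    have hexp1 : LF u (hom r) * (hom t 2 * hom t' 0 - hom t 0 * hom t' 2) = u 1 * D3 (hom r) (hom t) (hom t') := by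
      unfold LF D3 at *
      simp [hom] at *
      linear_combination (t'.1 - r.1) * k1 - (t.1 - r.1) * k2
    rw [hD] at hexp0 hexp1
    apply hne
    have a0 := (mul_eq_zero.1 (hexp0.trans (mul_zero _))).resolve_left hr0
    have a1 := (mul_eq_zero.1 (hexp1.trans (mul_zero _))).resolve_left hr0
    simp [hom] at a0 a1
    ext <;> linarith
  -- Cramer
  have hcr : (b t).rep = (D3 (b t).rep (hom t) (hom t') / D3 (hom r) (hom t) (hom t')) • hom r := by
    funext i
    simp only [Pi.smul_apply, smul_eq_mul]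
    rw [div_mul_eq_mul_div, eq_div_iff hD]
    unfold D3 at *
    fin_cases i
    · simp only [Fin.zero_eta, Fin.isValue]
      linear_combination (hom t' 0) * e1 - (hom t 0) * e2
    · simp only [Fin.mk_one, Fin.isValue]
      linear_combination (hom t' 1) * e1 - (hom t 1) * e2
    · simp only [Fin.reduceFinMk, Fin.isValue]
      linear_combination (hom t' 2) * e1 - (hom t 2) * e2
  have := eq_emb hcr
  exact hB.1 r hr (this ▸ (hb t ht1).1)

theorem swap_ne {u v w : Fin 3 → ℝ} (hD : D3 u v w ≠ 0) : D3 v u w ≠ 0 := by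
  intro h
  apply hD
  unfold D3 at *
  linear_combination -h

theorem hom_LF_ne {u v w : Fin 3 → ℝ} (hD : D3 u v w ≠ 0) (p : ℝ × ℝ) (h1 : LF u (hom p) = 0)
    (h2 : LF v (hom p) = 0) : LF w (hom p) ≠ 0 := fun h3 =>
  hom_ne_zero p (LF_zero hD h1 h2 h3)

theorem lineH {R : Finset (ℝ × ℝ)} {B : Finset (ℙ ℝ (Fin 3 → ℝ))} (hB : Blocks R B)
    {u v w : Fin 3 → ℝ} (hD : D3 u v w ≠ 0) {p q : ℝ × ℝ} (hp : p ∈ R) (hq : q ∈ R)
    (hpq : p ≠ q) (hup : LF u (hom p) = 0) (huq : LF u (hom q) = 0) :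
    ∃ b ∈ B, LF u b.rep = 0 := by
  obtain ⟨b, hbB, hbl⟩ := hB.2 p hp q hq hpq
  refine ⟨b, hbB, ?_⟩
  rw [onLine_iff] at hbl
  by_contra hX
  have h := D3_mul u v w (hom p) (hom q) b.rep
  rw [hbl, hup, huq, mul_zero] at h
  have h2 : LF u b.rep * (LF v (hom p) * LF w (hom q) - LF w (hom p) * LF v (hom q)) = 0 := by
    linear_combination h
  have h3 := (mul_eq_zero.1 h2).resolve_left hX
  apply hpq
  by_cases hY : LF v (hom q) = 0
  · have hZ := hom_LF_ne hD q huq hY
    have hYp : LF v (hom p) = 0 := by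
      rw [hY, mul_zero, sub_zero] at h3
      exact (mul_eq_zero.1 h3).resolve_right hZ
    refine hom_smul_eq (c := LF w (hom p) / LF w (hom q)) (LF_prop hD _ ?_ ?_ ?_)
    · rw [hup, huq, mul_zero]
    · rw [hYp, hY, mul_zero]
    · field_simp
  · refine hom_smul_eq (c := LF v (hom p) / LF v (hom q)) (LF_prop hD _ ?_ ?_ ?_)
    · rw [hup, huq, mul_zero]
    · field_simp
    · field_simp
      linear_combination -h3

theorem caseB {R : Finset (ℝ × ℝ)} {B : Finset (ℙ ℝ (Fin 3 → ℝ))} (hB : Blocks R B)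
    {U : Finset (ℝ × ℝ)} (hU : U ⊆ R) (hc : ¬ Collinear ℝ (U : Set (ℝ × ℝ)))
    {u v w : Fin 3 → ℝ} (hD : D3 u v w ≠ 0)
    (huv : ∀ p ∈ U, LF u (hom p) = 0 ∨ LF v (hom p) = 0) : U.card ≤ B.card + 1 := by
  have hu0 : u ≠ 0 := by
    rintro rfl
    apply hD
    simp [D3]
  have hv0 : v ≠ 0 := by
    rintro rfl
    apply hD
    simp [D3]
  set T0 := U.filter (fun p => LF u (hom p) = 0 ∧ LF v (hom p) = 0) with hT0
  set T1 := U.filter (fun p => LF u (hom p) = 0 ∧ LF v (hom p) ≠ 0) with hT1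
  set T2 := U.filter (fun p => LF u (hom p) ≠ 0 ∧ LF v (hom p) = 0) with hT2
  have hcard : U.card ≤ T0.card + T1.card + T2.card := by
    have hsub : U ⊆ (T0 ∪ T1) ∪ T2 := by
      intro p hp
      simp only [mem_union, hT0, hT1, hT2, mem_filter, hp, true_and]
      have := huv p hp
      tauto
    calc U.card ≤ ((T0 ∪ T1) ∪ T2).card := card_le_card hsub
      _ ≤ (T0 ∪ T1).card + T2.card := card_union_le _ _
      _ ≤ _ := by have := card_union_le T0 T1; omega
  have hT0c : T0.card ≤ 1 := by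
    rw [Finset.card_le_one]
    intro p hp q hq
    rw [hT0, mem_filter] at hp hq
    have hZ := hom_LF_ne hD q hq.2.1 hq.2.2
    refine hom_smul_eq (c := LF w (hom p) / LF w (hom q)) (LF_prop hD _ ?_ ?_ ?_)
    · rw [hp.2.1, hq.2.1, mul_zero]
    · rw [hp.2.2, hq.2.2, mul_zero]
    · field_simp
  have hT1n : T1.Nonempty := by
    by_contra hcon
    rw [Finset.not_nonempty_iff_eq_empty] at hcon
    apply hc
    refine collinear_of_functional hv0 (fun p hp => ?_)
    have hp' : p ∈ U := by simpa using hp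
    by_contra hv
    have : p ∈ T1 := by
      rw [hT1, mem_filter]
      exact ⟨hp', (huv p hp').resolve_right hv, hv⟩
    rw [hcon] at this
    simp at this
  have hT2n : T2.Nonempty := by
    by_contra hcon
    rw [Finset.not_nonempty_iff_eq_empty] at hcon
    apply hc
    refine collinear_of_functional hu0 (fun p hp => ?_)
    have hp' : p ∈ U := by simpa using hp
    by_contra hv
    have : p ∈ T2 := by
      rw [hT2, mem_filter]
      exact ⟨hp', hv, (huv p hp').resolve_left hv⟩
    rw [hcon] at this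
    simp at this
  set B' := B.filter (fun b => LF u b.rep ≠ 0 ∧ LF v b.rep ≠ 0) with hB'
  set s : ℝ × ℝ → ℝ := fun p => LF w (hom p) / LF v (hom p) with hs
  set t : ℝ × ℝ → ℝ := fun p => LF w (hom p) / LF u (hom p) with ht
  set F := B'.image (fun b => (-(LF v b.rep / LF u b.rep), LF w b.rep / LF u b.rep)) with hF
  have hsinj : (T1.image s).card = T1.card := by
    apply card_image_of_injOn
    intro p hp q hq hpq
    have hp1 : p ∈ T1 := by simpa using hp
    have hq1 : q ∈ T1 := by simpa using hq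
    rw [hT1, mem_filter] at hp1 hq1
    have e : LF w (hom p) / LF v (hom p) = LF w (hom q) / LF v (hom q) := hpq
    rw [div_eq_div_iff hp1.2.2 hq1.2.2] at e
    refine hom_smul_eq (c := LF v (hom p) / LF v (hom q)) (LF_prop hD _ ?_ ?_ ?_)
    · rw [hp1.2.1, hq1.2.1, mul_zero]
    · have := hq1.2.2
      field_simp
    · rw [div_mul_eq_mul_div, eq_div_iff hq1.2.2]
      linear_combination e
  have htinj : (T2.image t).card = T2.card := by
    apply card_image_of_injOn
    intro p hp q hq hpq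
    have hp1 : p ∈ T2 := by simpa using hp
    have hq1 : q ∈ T2 := by simpa using hq
    rw [hT2, mem_filter] at hp1 hq1
    have e : LF w (hom p) / LF u (hom p) = LF w (hom q) / LF u (hom q) := hpq
    rw [div_eq_div_iff hp1.2.1 hq1.2.1] at e
    refine hom_smul_eq (c := LF u (hom p) / LF u (hom q)) (LF_prop hD _ ?_ ?_ ?_)
    · have := hq1.2.1
      field_simp
    · rw [hp1.2.2, hq1.2.2, mul_zero]
    · rw [div_mul_eq_mul_div, eq_div_iff hq1.2.1]
      linear_combination e
  have hFne : ∀ f ∈ F, f.1 ≠ 0 := by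
    intro f hf
    rw [hF, mem_image] at hf
    obtain ⟨b, hb, rfl⟩ := hf
    rw [hB', mem_filter] at hb
    exact neg_ne_zero.2 (div_ne_zero hb.2.2 hb.2.1)
  have hcov : ∀ p ∈ T1, ∀ q ∈ T2, ∃ f ∈ F, t q = f.1 * s p + f.2 := by
    intro p hp q hq
    rw [hT1, mem_filter] at hp
    rw [hT2, mem_filter] at hq
    have hpq : p ≠ q := by
      rintro rfl
      exact hq.2.1 hp.2.1
    obtain ⟨b, hbB, hbl⟩ := hB.2 p (hU hp.1) q (hU hq.1) hpq
    rw [onLine_iff] at hbl
    have h := D3_mul u v w (hom p) (hom q) b.rep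
    rw [hbl, hp.2.1, hq.2.2, mul_zero] at h
    have hyp := hp.2.2
    have hxq := hq.2.1
    have hXb : LF u b.rep ≠ 0 := by
      intro h0
      apply hB.1 p (hU hp.1)
      have : b = emb p := by
        refine eq_emb (c := LF v b.rep / LF v (hom p)) (LF_prop hD _ ?_ ?_ ?_)
        · rw [hp.2.1, h0, mul_zero]
        · field_simp
        · rw [div_mul_eq_mul_div, eq_div_iff hyp]
          rw [h0] at h
          have h3 : LF u (hom q) * (LF v (hom p) * LF w b.rep - LF w (hom p) * LF v b.rep) = 0 := by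
            linear_combination -h
          have h4 := (mul_eq_zero.1 h3).resolve_left hxq
          linear_combination h4
      rwa [← this]
    have hYb : LF v b.rep ≠ 0 := by
      intro h0
      apply hB.1 q (hU hq.1)
      have : b = emb q := by
        refine eq_emb (c := LF u b.rep / LF u (hom q)) (LF_prop hD _ ?_ ?_ ?_)
        · field_simp
        · rw [hq.2.2, h0, mul_zero]
        · rw [div_mul_eq_mul_div, eq_div_iff hxq]
          rw [h0] at h
          have h3 : LF v (hom p) * (LF u (hom q) * LF w b.rep - LF w (hom q) * LF u b.rep) = 0 := by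
            linear_combination -h
          have h4 := (mul_eq_zero.1 h3).resolve_left hyp
          linear_combination h4
      rwa [← this]
    refine ⟨(-(LF v b.rep / LF u b.rep), LF w b.rep / LF u b.rep), ?_, ?_⟩
    · rw [hF, mem_image]
      exact ⟨b, by rw [hB', mem_filter]; exact ⟨hbB, hXb, hYb⟩, rfl⟩
    · simp only [hs, ht]
      field_simp
      linear_combination h
  have hFc : F.card ≤ B'.card := card_image_le
  have g1 : T2.card ≤ B'.card := by
    have := grid_one (T1.image s) (T2.image t) F hFne (by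
      intro a ha c hc'
      rw [mem_image] at ha hc'
      obtain ⟨p, hp, rfl⟩ := ha
      obtain ⟨q, hq, rfl⟩ := hc'
      exact hcov p hp q hq) (hT1n.image s)
    omega
  have g2 : T1.card ≤ B'.card := by
    have := grid_one (T2.image t) (T1.image s) (F.image (fun f => (1 / f.1, - (f.2 / f.1)))) (by
      intro f hf
      rw [mem_image] at hf
      obtain ⟨f', hf', rfl⟩ := hf
      exact one_div_ne_zero (hFne f' hf')) (by
      intro a ha c hc'
      rw [mem_image] at ha hc'
      obtain ⟨q, hq, rfl⟩ := ha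
      obtain ⟨p, hp, rfl⟩ := hc'
      obtain ⟨f, hf, e⟩ := hcov p hp q hq
      refine ⟨_, mem_image_of_mem _ hf, ?_⟩
      have := hFne f hf
      simp only
      field_simp
      linear_combination -e) (hT2n.image t)
    have h3 : (F.image (fun f : ℝ × ℝ => (1 / f.1, - (f.2 / f.1)))).card ≤ F.card := card_image_le
    omega
  have g3 : 2 ≤ T1.card → 2 ≤ T2.card → T1.card + T2.card ≤ B'.card + 2 := by
    intro h1 h2
    have := grid_two (T1.image s) (T2.image t) F hFne (by
      intro a ha c hc'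
      rw [mem_image] at ha hc'
      obtain ⟨p, hp, rfl⟩ := ha
      obtain ⟨q, hq, rfl⟩ := hc'
      exact hcov p hp q hq) (by omega) (by omega)
    omega
  have hB'c : B'.card ≤ B.card := card_le_card (filter_subset _ _)
  have n1 : 1 ≤ T1.card := hT1n.card_pos
  have n2 : 1 ≤ T2.card := hT2n.card_pos
  rcases T0.eq_empty_or_nonempty with h0 | ⟨p0, hp0⟩
  · have h00 : T0.card = 0 := by rw [h0]; rfl
    by_cases h12 : 2 ≤ T1.card ∧ 2 ≤ T2.card
    · obtain ⟨p, hp, q, hq, hpq⟩ := Finset.one_lt_card.1 (show 1 < T1.card by omega)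
      rw [hT1, mem_filter] at hp hq
      obtain ⟨b, hb, hb0⟩ := lineH hB hD (hU hp.1) (hU hq.1) hpq hp.2.1 hq.2.1
      have hlt : B'.card < B.card := by
        apply card_lt_card
        refine ⟨filter_subset _ _, fun hsub => ?_⟩
        have := hsub hb
        rw [hB', mem_filter] at this
        exact this.2.1 hb0
      have := g3 h12.1 h12.2
      omega
    · omega
  · rw [hT0, mem_filter] at hp0
    obtain ⟨p, hp⟩ := hT1n
    obtain ⟨q, hq⟩ := hT2n
    rw [hT1, mem_filter] at hp
    rw [hT2, mem_filter] at hq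
    have hp0p : p0 ≠ p := by
      rintro rfl
      exact hp.2.2 hp0.2.2
    have hp0q : p0 ≠ q := by
      rintro rfl
      exact hq.2.1 hp0.2.1
    obtain ⟨b1, hb1, hb10⟩ := lineH hB hD (hU hp0.1) (hU hp.1) hp0p hp0.2.1 hp.2.1
    obtain ⟨b2, hb2, hb20⟩ := lineH hB (swap_ne hD) (hU hp0.1) (hU hq.1) hp0q hp0.2.2 hq.2.2
    have hb12 : b1 ≠ b2 := by
      rintro rfl
      have hZ := hom_LF_ne hD p0 hp0.2.1 hp0.2.2
      have : b1 = emb p0 := by
        refine eq_emb (c := LF w b1.rep / LF w (hom p0)) (LF_prop hD _ ?_ ?_ ?_)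
        · rw [hb10, hp0.2.1, mul_zero]
        · rw [hb20, hp0.2.2, mul_zero]
        · field_simp
      exact hB.1 p0 (hU hp0.1) (this ▸ hb1)
    have hsub : B' ⊆ (B.erase b1).erase b2 := by
      intro b hb
      rw [hB', mem_filter] at hb
      rw [mem_erase, mem_erase]
      refine ⟨?_, ?_, hb.1⟩
      · rintro rfl
        exact hb.2.2 hb20
      · rintro rfl
        exact hb.2.1 hb10
    have hc1 : (B.erase b1).card = B.card - 1 := card_erase_of_mem hb1
    have hc2 : ((B.erase b1).erase b2).card = (B.erase b1).card - 1 :=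
      card_erase_of_mem (mem_erase.2 ⟨hb12.symm, hb2⟩)
    have hc3 := card_le_card hsub
    have hc4 : 2 ≤ B.card := by
      have : ({b1, b2} : Finset _) ⊆ B := by
        intro x hx
        simp only [mem_insert, mem_singleton] at hx
        rcases hx with rfl | rfl
        · exact hb1
        · exact hb2
      have h5 := card_le_card this
      rwa [card_pair hb12] at h5
    by_cases h12 : 2 ≤ T1.card ∧ 2 ≤ T2.card
    · have := g3 h12.1 h12.2
      omega
    · omega

theorem two_lines_lower (R : Finset (ℝ × ℝ)) (B : Finset (ℙ ℝ (Fin 3 → ℝ)))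
    (hcol : ¬ Collinear ℝ (R : Set (ℝ × ℝ))) (hB : Blocks R B) (S₁ S₂ : Finset (ℝ × ℝ))
    (h₁ : S₁ ⊆ R) (h₂ : S₂ ⊆ R) (hc₁ : Collinear ℝ (S₁ : Set (ℝ × ℝ)))
    (hc₂ : Collinear ℝ (S₂ : Set (ℝ × ℝ))) : (S₁ ∪ S₂).card ≤ B.card + 1 := by
  by_cases hc : Collinear ℝ ((S₁ ∪ S₂ : Finset (ℝ × ℝ)) : Set (ℝ × ℝ))
  · have := caseA hcol hB (union_subset h₁ h₂) hc
    omega
  · obtain ⟨u, hu, hu1⟩ := exists_functional hc₁
    obtain ⟨v, hv, hv1⟩ := exists_functional hc₂
    have huv : ∀ p ∈ S₁ ∪ S₂, LF u (hom p) = 0 ∨ LF v (hom p) = 0 := by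
      intro p hp
      rcases mem_union.1 hp with hp | hp
      · exact Or.inl (hu1 p (by simpa using hp))
      · exact Or.inr (hv1 p (by simpa using hp))
    set w : Fin 3 → ℝ := ![u 1 * v 2 - u 2 * v 1, u 2 * v 0 - u 0 * v 2, u 0 * v 1 - u 1 * v 0]
      with hw
    have hDe : D3 u v w = (u 1 * v 2 - u 2 * v 1) ^ 2 + (u 2 * v 0 - u 0 * v 2) ^ 2
        + (u 0 * v 1 - u 1 * v 0) ^ 2 := by
      simp [D3, hw]
      ring
    have hD : D3 u v w ≠ 0 := by
      intro h0
      rw [hDe] at h0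
      have k0 : u 1 * v 2 - u 2 * v 1 = 0 := by
        apply pow_eq_zero_iff (two_ne_zero) |>.1
        nlinarith [sq_nonneg (u 1 * v 2 - u 2 * v 1), sq_nonneg (u 2 * v 0 - u 0 * v 2),
          sq_nonneg (u 0 * v 1 - u 1 * v 0)]
      have k1 : u 2 * v 0 - u 0 * v 2 = 0 := by
        apply pow_eq_zero_iff (two_ne_zero) |>.1
        nlinarith [sq_nonneg (u 1 * v 2 - u 2 * v 1), sq_nonneg (u 2 * v 0 - u 0 * v 2),
          sq_nonneg (u 0 * v 1 - u 1 * v 0)]
      have k2 : u 0 * v 1 - u 1 * v 0 = 0 := by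
        apply pow_eq_zero_iff (two_ne_zero) |>.1
        nlinarith [sq_nonneg (u 1 * v 2 - u 2 * v 1), sq_nonneg (u 2 * v 0 - u 0 * v 2),
          sq_nonneg (u 0 * v 1 - u 1 * v 0)]
      apply hc
      refine collinear_of_functional hv (fun p hp => ?_)
      rcases huv p (by simpa using hp) with h | h
      · -- proportional
        by_contra hne
        apply hu
        have m0 : u 0 * LF v (hom p) = 0 := by
          unfold LF at *
          linear_combination v 0 * h + (hom p 1) * k2 - (hom p 2) * k1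
        have m1 : u 1 * LF v (hom p) = 0 := by
          unfold LF at *
          linear_combination v 1 * h - (hom p 0) * k2 + (hom p 2) * k0
        have m2 : u 2 * LF v (hom p) = 0 := by
          unfold LF at *
          linear_combination v 2 * h + (hom p 0) * k1 - (hom p 1) * k0
        funext i
        fin_cases i
        · exact (mul_eq_zero.1 m0).resolve_right hne
        · exact (mul_eq_zero.1 m1).resolve_right hne
        · exact (mul_eq_zero.1 m2).resolve_right hne
      · exact h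
    exact caseB hB (union_subset h₁ h₂) hc hD huv

end Helper171
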